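import Pool.Agent.Lib.P28F.Defs

/-!
# Module P28F.Affine: linear forms and terms of degree at most one

PROOFS.
`exists_term` (degree 0): induction on t. A variable i of degree 0 has `E i = inl s` (if
`E i = inr l` then isRight is true and the degree is 1); sums: both degrees are 0 (max); products:
both are 0.
`exists_lf`: induction on t. Variable: `E i = inl s`: the form (s, []); `E i = inr l`: the form
(zero, [(one, l)]). zero, one: ((zero), []), ((one), []). Sum: (add c c', list ++ list').
Product: degrees d₁ + d₂ ≤ 1, so one of them is 0; say t₁ has degree 0 with value s.eval v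
(`exists_term`) and t₂ the form (c, list): take (mul s c, list.map (fun p => (mul s p.1, p.2))),
by distributivity (`List.sum_map_mul_left`); similarly when t₂ has degree 0.
`Lf.map_eval`, `Lf.evalK_map`: unfold; `List.map_map`.
`Lf.evalK_hom`: κ (f.eval v z) = f.evalK κ v (fun i => κ (z i)): `map_add`, `map_list_sum`,
`map_mul`.
-/

set_option autoImplicit false
set_option linter.unusedSectionVars false

namespace Pool.Agent.Lib.P28F

open Pool.Agent.Lib.P28b

/-- Linear forms: a constant term and a list of coefficients with variables. -/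
def Lf (α : Type) (k : ℕ) : Type := Tm α × List (Tm α × Fin k)

/-- The value of a linear form, the variables running in a ring to which the model is mapped. -/
def Lf.evalK {α : Type} {k : ℕ} {M K : Type} [CommSemiring M] [CommSemiring K] (κ : M →+* K)
    (f : Lf α k) (v : α → M) (x : Fin k → K) : K :=
  κ (f.1.eval v) + (f.2.map (fun p => κ (p.1.eval v) * x p.2)).sum

/-- The value of a linear form. -/
def Lf.eval {α : Type} {k : ℕ} {M : Type} [CommSemiring M] (f : Lf α k) (v : α → M)
    (z : Fin k → M) : M := f.1.eval v + (f.2.map (fun p => p.1.eval v * z p.2)).sum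

/-- Renaming of the variables of a linear form. -/
def Lf.ren {α : Type} {k k' : ℕ} (e : Fin k → Fin k') (f : Lf α k) : Lf α k' :=
  (f.1, f.2.map (fun p => (p.1, e p.2)))

/-- Adding one. -/
def Lf.succ {α : Type} {k : ℕ} (f : Lf α k) : Lf α k := (.add f.1 .one, f.2)

section

variable {α : Type} {k k' : ℕ} {M K : Type} [CommSemiring M] [CommSemiring K]

theorem Lf.eval_ren (e : Fin k → Fin k') (f : Lf α k) (v : α → M) (z : Fin k' → M) :
    (f.ren e).eval v z = f.eval v (fun i => z (e i)) := by
  simp only [Lf.ren, Lf.eval, List.map_map, Function.comp_def]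

theorem Lf.evalK_ren (κ : M →+* K) (e : Fin k → Fin k') (f : Lf α k) (v : α → M)
    (x : Fin k' → K) : (f.ren e).evalK κ v x = f.evalK κ v (fun i => x (e i)) := by
  simp only [Lf.ren, Lf.evalK, List.map_map, Function.comp_def]

theorem Lf.evalK_hom (κ : M →+* K) (f : Lf α k) (v : α → M) (z : Fin k → M) :
    κ (f.eval v z) = f.evalK κ v (fun i => κ (z i)) := by
  simp only [Lf.eval, Lf.evalK, map_add, map_list_sum, List.map_map, Function.comp_def, map_mul]

theorem Lf.eval_succ (f : Lf α k) (v : α → M) (z : Fin k → M) :
    f.succ.eval v z = f.eval v z + 1 := by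
  simp only [Lf.succ, Lf.eval, Tm.eval]
  rw [add_right_comm]

theorem Lf.evalK_succ (κ : M →+* K) (f : Lf α k) (v : α → M) (x : Fin k → K) :
    f.succ.evalK κ v x = f.evalK κ v x + 1 := by
  simp only [Lf.succ, Lf.evalK, Tm.eval, map_add, map_one]
  rw [add_right_comm]

end

/-- The assignment in which the variables are terms or quantified variables. -/
def env {α : Type} {m k : ℕ} {M : Type} [Zero M] [One M] [Add M] [Mul M]
    (E : Fin m → Tm α ⊕ Fin k) (v : α → M) (z : Fin k → M) : Fin m → M :=
  fun i => Sum.elim (fun s => s.eval v) z (E i)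

theorem exists_term {α : Type} {m k : ℕ} (E : Fin m → Tm α ⊕ Fin k) (t : Tm (Fin m))
    (ht : deg (fun i => (E i).isRight) t = 0) :
    ∃ s : Tm α, ∀ (M : Type) [CommSemiring M] (v : α → M) (z : Fin k → M),
      t.eval (env E v z) = s.eval v := by
  induction t with
  | var i =>
      cases hE : E i with
      | inl s =>
          refine ⟨s, fun M _ v z => ?_⟩
          simp only [Tm.eval, env, hE, Sum.elim_inl]
      | inr l =>
          simp [deg, hE] at ht
  | zero => exact ⟨.zero, fun M _ v z => rfl⟩
  | one => exact ⟨.one, fun M _ v z => rfl⟩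
  | add s t ih₁ ih₂ =>
      simp only [deg] at ht
      obtain ⟨s', hs⟩ := ih₁ (by omega)
      obtain ⟨t', ht'⟩ := ih₂ (by omega)
      refine ⟨.add s' t', fun M _ v z => ?_⟩
      simp only [Tm.eval, hs, ht']
  | mul s t ih₁ ih₂ =>
      simp only [deg] at ht
      obtain ⟨s', hs⟩ := ih₁ (by omega)
      obtain ⟨t', ht'⟩ := ih₂ (by omega)
      refine ⟨.mul s' t', fun M _ v z => ?_⟩
      simp only [Tm.eval, hs, ht']

theorem exists_lf {α : Type} {m k : ℕ} (E : Fin m → Tm α ⊕ Fin k) (t : Tm (Fin m))
    (ht : deg (fun i => (E i).isRight) t ≤ 1) :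
    ∃ f : Lf α k, ∀ (M : Type) [CommSemiring M] (v : α → M) (z : Fin k → M),
      t.eval (env E v z) = f.eval v z := by
  induction t with
  | var i =>
      cases hE : E i with
      | inl s =>
          refine ⟨(s, []), fun M _ v z => ?_⟩
          simp only [Tm.eval, env, hE, Sum.elim_inl, Lf.eval, List.map_nil, List.sum_nil, add_zero]
      | inr l =>
          refine ⟨(.zero, [(.one, l)]), fun M _ v z => ?_⟩
          simp only [Tm.eval, env, hE, Sum.elim_inr, Lf.eval, List.map_cons, List.map_nil,
            List.sum_cons, List.sum_nil, add_zero, zero_add, one_mul]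
  | zero =>
      refine ⟨(.zero, []), fun M _ v z => ?_⟩
      simp only [Tm.eval, Lf.eval, List.map_nil, List.sum_nil, add_zero]
  | one =>
      refine ⟨(.one, []), fun M _ v z => ?_⟩
      simp only [Tm.eval, Lf.eval, List.map_nil, List.sum_nil, add_zero]
  | add s t ih₁ ih₂ =>
      simp only [deg] at ht
      obtain ⟨f, hf⟩ := ih₁ (by omega)
      obtain ⟨g, hg⟩ := ih₂ (by omega)
      refine ⟨(.add f.1 g.1, f.2 ++ g.2), fun M _ v z => ?_⟩
      simp only [Tm.eval, hf, hg, Lf.eval, List.map_append, List.sum_append]
      exact add_add_add_comm _ _ _ _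
  | mul s t ih₁ ih₂ =>
      simp only [deg] at ht
      rcases Nat.eq_zero_or_pos (deg (fun i => (E i).isRight) s) with h0 | h0
      · obtain ⟨c, hc⟩ := exists_term E s h0
        obtain ⟨g, hg⟩ := ih₂ (by omega)
        refine ⟨(.mul c g.1, g.2.map (fun p => (.mul c p.1, p.2))), fun M _ v z => ?_⟩
        simp only [Tm.eval, hc, hg, Lf.eval, List.map_map, Function.comp_def, mul_add,
          mul_assoc, List.sum_map_mul_left]
      · obtain ⟨c, hc⟩ := exists_term E t (by omega)
        obtain ⟨g, hg⟩ := ih₁ (by omega)
        refine ⟨(.mul c g.1, g.2.map (fun p => (.mul c p.1, p.2))), fun M _ v z => ?_⟩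
        simp only [Tm.eval, hc, hg, Lf.eval, List.map_map, Function.comp_def]
        rw [mul_comm, mul_add]
        simp only [mul_assoc, List.sum_map_mul_left]

end Pool.Agent.Lib.P28F
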