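import Pool.Agent.Lib.P28F.Defs

/-!
# Module P28F.Floor: Euclidean division in the ring of a model of open induction

PROOF. First for `a b : M.C`, `0 < b`: there is q with `q * b ≤ a < (q + 1) * b`. If not, the set
`S = {q | q * b ≤ a}` is open (`OSet.le` of P28b.Open with `PF.mul`, `PF.id`, `PF.const`),
contains 0 (`nonneg`) and is closed under successor, so by `openInd M.io` it contains `a + 1`:
`(a + 1) * b ≤ a`, but `(a + 1) * b ≥ a + 1 > a` since `1 ≤ b`. Contradiction.
In `ZM M`: for `a ≥ 0` write `a = of M a'`, `b = of M b'` (`exists_of`, `of_le`, `of_lt`). For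
`a < 0` divide `-a`: `q * b ≤ -a < (q + 1) * b`; if `q * b = -a` take `-q`, else take `-(q + 1)`
(`(-(q+1)) * b < a` and `a < (-q) * b`).
-/

set_option autoImplicit false

namespace Pool.Agent.Lib.P28F

open Pool.Agent.Lib.P28b

namespace FloorAux

/-- Euclidean division in the model. -/
theorem nfloor (M : Mdl) (a b : M.C) (hb : 0 < b) :
    ∃ q : M.C, q * b ≤ a ∧ a < (q + 1) * b := by
  by_contra hcon
  push Not at hcon
  have hS : OSet (fun q : M.C => q * b ≤ a) :=
    OSet.le _ _ (PF.id.mul (PF.const b)) (PF.const a)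
  have h1 : (a + 1) * b ≤ a :=
    openInd M.io hS (by rw [zero_mul]; exact nonneg M.io a) (fun q hq => hcon q hq) (a + 1)
  have hb1 : 1 ≤ b := by
    have := P28b.add_one_le M.io hb
    rwa [zero_add] at this
  have h2 : a + 1 ≤ (a + 1) * b :=
    le_mul_of_one_le_right (nonneg M.io _) hb1
  exact absurd (lt_add_one' a) (not_lt.2 (h2.trans h1))

/-- Euclidean division of a nonnegative integer. -/
theorem pos (M : Mdl) (a b : ZM M) (ha : 0 ≤ a) (hb : 0 < b) :
    ∃ q : ZM M, q * b ≤ a ∧ a < (q + 1) * b := by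
  obtain ⟨a', rfl⟩ := exists_of ha
  obtain ⟨b', rfl⟩ := exists_of hb.le
  rw [← map_zero (of M), of_lt] at hb
  obtain ⟨q, h1, h2⟩ := nfloor M a' b' hb
  refine ⟨of M q, ?_, ?_⟩
  · rw [← map_mul, of_le]
    exact h1
  · rw [← map_one (of M), ← map_add, ← map_mul, of_lt]
    exact h2

end FloorAux

theorem ZM.floor (M : Mdl) (a b : ZM M) (hb : 0 < b) :
    ∃ q : ZM M, q * b ≤ a ∧ a < (q + 1) * b := by
  rcases le_total 0 a with ha | ha
  · exact FloorAux.pos M a b ha hb
  · obtain ⟨q, h1, h2⟩ := FloorAux.pos M (-a) b (neg_nonneg.2 ha) hb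
    rcases h1.lt_or_eq with h3 | h3
    · refine ⟨-(q + 1), ?_, ?_⟩
      · rw [neg_mul]
        linarith
      · have : (-(q + 1) + 1) * b = -(q * b) := by ring
        rw [this]
        linarith
    · refine ⟨-q, ?_, ?_⟩
      · rw [neg_mul]
        linarith
      · have : (-q + 1) * b = -(q * b) + b := by ring
        rw [this]
        linarith

end Pool.Agent.Lib.P28F
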