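import Pool.Agent.Lib.P28F.EB
import Pool.Agent.Lib.P28F.Floor

/-!
# Module P28F.Bez: Bezout's theorem in models of IE₁

For all `a b` in the ring of the model there are `p q u v g` with `a = p g`, `b = q g`,
`u p + v q = 1`.

PROOF. It is enough to treat `a, b ≥ 0`: replacing a by -a changes p, u to -p, -u; the same for
b. If a = b = 0 take p = 1, q = 0, u = 1, v = 0, g = 0. If b = 0 < a: p = 1, g = a, q = 0, u = 1,
v = 0; similarly a = 0 < b. Let a, b > 0, in M (`exists_of`). Let
R(g): 0 < g and there are x, y < T in M, T = 2(a + b) + 2, with g + y b = x a. It is bounded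
existential: use `EB.exs` with `γ = Fin 2` (or two `EB.exB`) and parameters a, b. It is nonempty:
g = a, x = 1, y = 0. Let g be least (`EB.lnp hM`). Divide: a = s g + r, 0 ≤ r < g (`ZM.floor`).
If r > 0: r = a - s g = (1 - s x) a + (s y) b = x' a - y' b with integers x', y' of the ring.
Divide x' = w b + x'', 0 ≤ x'' < b (`ZM.floor`) and put X = x'' + b, Y = y' - w a + a: then
r = X a - Y b, b ≤ X < 2 b, and Y b = X a - r with X a ≥ b a ≥ a ≥ g > r (g ≤ a as R(a) holds),
thus Y > 0, and Y b < 2 a b, thus Y < 2 a. So X, Y < T, R(r) holds and r < g, against minimality.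
So r = 0, g ∣ a. In the same way g ∣ b: b = s g + r,
r = (-s x) a - (-1 - s y) b = x' a - y' b again. So a = p g,
b = q g and g = x a - y b = (x p - y q) g, cancel g > 0: x p + (-y) q = 1.
-/

set_option autoImplicit false

namespace Pool.Agent.Lib.P28F

open Pool.Agent.Lib.P28b

namespace BezAux

/-- The conclusion. -/
def P (M : Mdl) (a b : ZM M) : Prop :=
  ∃ p q u v g : ZM M, a = p * g ∧ b = q * g ∧ u * p + v * q = 1

theorem P.neg_left {M : Mdl} {a b : ZM M} (h : P M a b) : P M (-a) b := by
  obtain ⟨p, q, u, v, g, h1, h2, h3⟩ := h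
  exact ⟨-p, q, -u, v, g, by rw [h1]; ring, h2, by rw [← h3]; ring⟩

theorem P.neg_right {M : Mdl} {a b : ZM M} (h : P M a b) : P M a (-b) := by
  obtain ⟨p, q, u, v, g, h1, h2, h3⟩ := h
  exact ⟨p, -q, u, -v, g, h1, by rw [h2]; ring, by rw [← h3]; ring⟩

/-- The bounded existential relation. -/
def Rel {M : Type} [Zero M] [One M] [Add M] [Mul M] [LT M] (w : Option (Fin 2) → M) : Prop :=
  ∃ y : Fin 2 → M, (∀ i, y i < (Tm.add (Tm.add (Tm.add (Tm.var (some 0)) (Tm.var (some 1)))
    (Tm.add (Tm.var (some 0)) (Tm.var (some 1)))) (Tm.add Tm.one Tm.one)).eval w) ∧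
    (fun u : Option (Fin 2) ⊕ Fin 2 → M => Tm.zero.eval u < (Tm.var (Sum.inl none)).eval u ∧
      (Tm.add (Tm.var (Sum.inl none)) (Tm.mul (Tm.var (Sum.inr 1)) (Tm.var
        (Sum.inl (some 1))))).eval u =
        (Tm.mul (Tm.var (Sum.inr 0)) (Tm.var (Sum.inl (some 0)))).eval u) (Sum.elim w y)

theorem rel_iff {M : Type} [Zero M] [One M] [Add M] [Mul M] [LT M] (g : M) (v : Fin 2 → M) :
    Rel (fun o : Option (Fin 2) => o.elim g v) ↔
      0 < g ∧ ∃ x y : M, x < (v 0 + v 1) + (v 0 + v 1) + (1 + 1) ∧
        y < (v 0 + v 1) + (v 0 + v 1) + (1 + 1) ∧ g + y * v 1 = x * v 0 := by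
  constructor
  · rintro ⟨y, h1, h2, h3⟩
    exact ⟨h2, y 0, y 1, h1 0, h1 1, h3⟩
  · rintro ⟨h1, x, y, h2, h3, h4⟩
    refine ⟨![x, y], ?_, h1, h4⟩
    intro i
    fin_cases i
    · exact h2
    · exact h3

theorem pos (M : Mdl) (hM : ModelIE1 M.C) (a b : M.C) (ha : 0 < a) (hb : 0 < b) :
    P M (of M a) (of M b) := by
  have hEB : EB (Rel (M := M.C)) := EB.exs _ (EB.qb _ (QB.and _ _ (QB.lt _ _) (QB.eq _ _)))
  let v : Fin 2 → M.C := ![a, b]
  have hv0 : v 0 = a := rfl
  have hv1 : v 1 = b := rfl
  have hR : ∀ g : M.C, Rel (fun o : Option (Fin 2) => o.elim g v) ↔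
      0 < g ∧ ∃ x y : M.C, x < (a + b) + (a + b) + (1 + 1) ∧
        y < (a + b) + (a + b) + (1 + 1) ∧ g + y * b = x * a := fun g => rel_iff g v
  have hab : 0 < a + b := add_pos ha hb
  have hRa : Rel (fun o : Option (Fin 2) => o.elim a v) := by
    rw [hR]
    refine ⟨ha, 1, 0, ?_, ?_, by rw [zero_mul, one_mul, add_zero]⟩
    · calc (1 : M.C) < 1 + 1 := lt_add_one' 1
        _ ≤ (a + b) + (a + b) + (1 + 1) := le_add_of_nonneg_left (nonneg M.io _)
    · calc (0 : M.C) < a + b := hab
        _ ≤ (a + b) + (a + b) := le_add_of_nonneg_left (nonneg M.io _)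
        _ ≤ (a + b) + (a + b) + (1 + 1) := le_add_of_nonneg_right (nonneg M.io _)
  obtain ⟨g, hg, hmin⟩ := EB.lnp hM hEB v ⟨a, hRa⟩
  have hga : g ≤ a := by
    by_contra h
    exact hmin a (not_le.1 h) hRa
  rw [hR] at hg
  obtain ⟨hg0, x, y, -, -, hxy⟩ := hg
  have hA : (0 : ZM M) < of M a := by rw [← map_zero (of M), of_lt]; exact ha
  have hB : (0 : ZM M) < of M b := by rw [← map_zero (of M), of_lt]; exact hb
  have hG : (0 : ZM M) < of M g := by rw [← map_zero (of M), of_lt]; exact hg0
  have hGA : of M g ≤ of M a := of_le.2 hga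
  have hXY : of M g = of M x * of M a - of M y * of M b := by
    rw [← map_mul, ← map_mul, ← hxy, map_add]
    ring
  -- no smaller positive value
  have key : ∀ r x' y' : ZM M, 0 < r → r < of M g → r = x' * of M a - y' * of M b → False := by
    intro r x' y' hr0 hrg hr
    obtain ⟨w, hw1, hw2⟩ := ZM.floor M x' (of M b) hB
    have hb1 : (1 : ZM M) ≤ of M b := ZM.one_le hB
    have hX1 : of M b ≤ x' - w * of M b + of M b := by linarith
    have hX2 : x' - w * of M b + of M b < of M b + of M b := by
      have : (w + 1) * of M b = w * of M b + of M b := by ring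
      rw [this] at hw2
      linarith
    have hrX : r + (y' - w * of M a + of M a) * of M b =
        (x' - w * of M b + of M b) * of M a := by
      rw [hr]; ring
    obtain ⟨X, hX⟩ : ∃ X : M.C, x' - w * of M b + of M b = of M X :=
      exists_of (by linarith)
    have hXa : of M a ≤ of M X * of M a := by
      rw [← hX]
      calc of M a = 1 * of M a := (one_mul _).symm
        _ ≤ (x' - w * of M b + of M b) * of M a :=
          mul_le_mul_of_nonneg_right (hb1.trans hX1) hA.le
    have hYb : 0 < (y' - w * of M a + of M a) * of M b := by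
      have h1 : (y' - w * of M a + of M a) * of M b = of M X * of M a - r := by
        rw [← hX, ← hrX]; ring
      rw [h1]
      linarith
    have hY0 : 0 < y' - w * of M a + of M a := pos_of_mul_pos_left hYb hB.le
    obtain ⟨Y, hY⟩ : ∃ Y : M.C, y' - w * of M a + of M a = of M Y := exists_of hY0.le
    obtain ⟨R, hRR⟩ : ∃ R : M.C, r = of M R := exists_of hr0.le
    have hY2 : of M Y < of M a + of M a := by
      rw [hX, hY] at hrX
      rw [hX] at hX2
      have h1 : of M Y * of M b < (of M a + of M a) * of M b := by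
        calc of M Y * of M b < r + of M Y * of M b := lt_add_of_pos_left _ hr0
          _ = of M X * of M a := hrX
          _ < (of M b + of M b) * of M a := mul_lt_mul_of_pos_right hX2 hA
          _ = (of M a + of M a) * of M b := by ring
      exact lt_of_mul_lt_mul_right h1 hB.le
    apply hmin R
    · rw [hRR, of_lt] at hrg
      exact hrg
    · rw [hR]
      refine ⟨?_, X, Y, ?_, ?_, ?_⟩
      · rw [hRR, ← map_zero (of M), of_lt] at hr0
        exact hr0
      · rw [hX, ← map_add, of_lt] at hX2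
        calc X < b + b := hX2
          _ ≤ (a + b) + (a + b) :=
            add_le_add (le_add_of_nonneg_left ha.le) (le_add_of_nonneg_left ha.le)
          _ ≤ (a + b) + (a + b) + (1 + 1) := le_add_of_nonneg_right (nonneg M.io _)
      · rw [← map_add, of_lt] at hY2
        calc Y < a + a := hY2
          _ ≤ (a + b) + (a + b) :=
            add_le_add (le_add_of_nonneg_right hb.le) (le_add_of_nonneg_right hb.le)
          _ ≤ (a + b) + (a + b) + (1 + 1) := le_add_of_nonneg_right (nonneg M.io _)
      · rw [hX, hY, hRR, ← map_mul, ← map_mul, ← map_add, of_inj] at hrX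
        exact hrX
  -- the value divides both numbers
  have hdiv : ∀ c e f : ZM M, c = e * of M a - f * of M b → ∃ s, c = s * of M g := by
    intro c e f hc
    obtain ⟨s, hs1, hs2⟩ := ZM.floor M c (of M g) hG
    refine ⟨s, ?_⟩
    by_contra hne
    have h1 : 0 < c - s * of M g := by
      rcases hs1.lt_or_eq with h2 | h2
      · linarith
      · exact absurd h2.symm hne
    have h2 : c - s * of M g < of M g := by
      have : (s + 1) * of M g = s * of M g + of M g := by ring
      rw [this] at hs2
      linarith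
    refine key _ (e - s * of M x) (f - s * of M y) h1 h2 ?_
    rw [hc, hXY]
    ring
  obtain ⟨p, hp⟩ := hdiv (of M a) 1 0 (by ring)
  obtain ⟨q, hq⟩ := hdiv (of M b) 0 (-1) (by ring)
  refine ⟨p, q, of M x, -of M y, of M g, hp, hq, ?_⟩
  have h1 : (of M x * p + -of M y * q) * of M g = 1 * of M g := by
    calc (of M x * p + -of M y * q) * of M g
        = of M x * (p * of M g) - of M y * (q * of M g) := by ring
      _ = of M x * of M a - of M y * of M b := by rw [← hp, ← hq]
      _ = 1 * of M g := by rw [← hXY, one_mul]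
  exact mul_right_cancel₀ hG.ne' h1

end BezAux

theorem ZM.bez (M : Mdl) (hM : ModelIE1 M.C) (a b : ZM M) :
    ∃ p q u v g : ZM M, a = p * g ∧ b = q * g ∧ u * p + v * q = 1 := by
  have hpp : ∀ a b : ZM M, 0 < a → 0 < b → BezAux.P M a b := by
    intro a b ha hb
    obtain ⟨a', rfl⟩ := exists_of ha.le
    obtain ⟨b', rfl⟩ := exists_of hb.le
    rw [← map_zero (of M), of_lt] at ha hb
    exact BezAux.pos M hM a' b' ha hb
  rcases lt_trichotomy a 0 with ha | ha | ha
  · rcases lt_trichotomy b 0 with hb | hb | hb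
    · have := (hpp (-a) (-b) (neg_pos.2 ha) (neg_pos.2 hb)).neg_left.neg_right
      rwa [neg_neg, neg_neg] at this
    · exact ⟨1, 0, 1, 0, a, by ring, by rw [hb]; ring, by ring⟩
    · have := (hpp (-a) b (neg_pos.2 ha) hb).neg_left
      rwa [neg_neg] at this
  · exact ⟨0, 1, 0, 1, b, by rw [ha]; ring, by ring, by ring⟩
  · rcases lt_trichotomy b 0 with hb | hb | hb
    · have := (hpp a (-b) ha (neg_pos.2 hb)).neg_right
      rwa [neg_neg] at this
    · exact ⟨1, 0, 1, 0, a, by ring, by rw [hb]; ring, by ring⟩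
    · exact hpp a b ha hb

end Pool.Agent.Lib.P28F
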