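import Pool.Agent.Lib.P28F.QDnf

/-!
# Module P28F.BlockNF: blocks of universal quantifiers as infeasibility of linear systems

PROOF by induction on the derivation of `Block B φ`, generalising k and E (with
B = fun i => (E i).isRight; carry the equality as a hypothesis).
qfree: k' = k, e = id, L = the list L' of `qdnf`; z' = z. Bound: D' = D (x i ≤ |x i| ≤ D).
allB t φ: let E' : Fin (m+1) → Tm α ⊕ Fin (k+1), E' = Fin.cons (.inr 0) (fun i => (E i).map id
Fin.succ); (fun i => (E' i).isRight) = Fin.cons true B (`Fin.cases`), and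
Fin.cons x (env E v z) = env E' v (Fin.cons x z). Induction hypothesis for φ, E': k', e', L'. Take
e i = e' i.succ and, with f = the linear form of t for E (`exists_lf`), the new constraint
p₀ = (Lf.succ (zero, [(one, e' 0)]), f.ren e), i.e. z'(e' 0) + 1 ≤ t, and
L = L'.map (fun S => p₀ :: S). Then
¬ (∀ x < t, φ) ↔ ∃ x < t, ¬ φ(cons x ..) ↔ ∃ x, x < t ∧ ∃ z', (∀ i, z' (e' i) = (cons x z) i) ∧
∃ S ∈ L', ∀ p ∈ S, ..., and x = z' (e' 0), z = z' ∘ e; `Lf.eval_ren`, `Lf.eval_succ`,
`add_one_le`, `lt_add_one'`.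
Bound: given D, let D₁ = κ (f.1.eval v) + ∑ (p ∈ f.2) κ (p.1.eval v) * D (a list sum); if
|x (e i)| ≤ D for all i then (κ of elements of the model is ≥ 0: `hκ` and `nonneg M.io`)
x (e' 0) + 1 ≤ D₁, so |x (e' 0)| ≤ D₂ := max D D₁ and |x (e' i.succ)| ≤ D₂; apply the induction
hypothesis with D₂.
-/

set_option autoImplicit false
set_option linter.unusedSectionVars false

namespace Pool.Agent.Lib.P28F

open Pool.Agent.Lib.P28b

namespace BlockNFAux

theorem env_cons {α : Type} {m k : ℕ} {M : Type} [Zero M] [One M] [Add M] [Mul M]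
    (E : Fin m → Tm α ⊕ Fin k) (v : α → M) (z : Fin k → M) (x : M) :
    (Fin.cons x (env E v z) : Fin (m + 1) → M) =
      env (Fin.cons (.inr 0) (fun i => (E i).map id Fin.succ) :
        Fin (m + 1) → Tm α ⊕ Fin (k + 1)) v (Fin.cons x z : Fin (k + 1) → M) := by
  funext i
  refine Fin.cases ?_ (fun i => ?_) i
  · simp only [env, Fin.cons_zero, Sum.elim_inr]
  · simp only [env, Fin.cons_succ]
    cases E i with
    | inl s => simp only [Sum.map_inl, Sum.elim_inl, id]
    | inr l => simp only [Sum.map_inr, Sum.elim_inr, Fin.cons_succ]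

theorem right_cons {α : Type} {m k : ℕ} (E : Fin m → Tm α ⊕ Fin k) (B : Fin m → Bool)
    (hB : B = fun i => (E i).isRight) :
    (Fin.cons true B : Fin (m + 1) → Bool) =
      fun i => ((Fin.cons (.inr 0) (fun i => (E i).map id Fin.succ) :
        Fin (m + 1) → Tm α ⊕ Fin (k + 1)) i).isRight := by
  funext i
  refine Fin.cases ?_ (fun i => ?_) i
  · simp only [Fin.cons_zero, Sum.isRight_inr]
  · simp only [Fin.cons_succ, hB, Sum.isRight_map]

/-- A variable as a linear form. -/
def g0 {α : Type} {k' : ℕ} (l : Fin k') : Lf α k' := (Tm.zero, [(Tm.one, l)])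

theorem g0_eval {α : Type} {k' : ℕ} (l : Fin k') {M : Type} [CommSemiring M] (v : α → M)
    (z : Fin k' → M) : (g0 l : Lf α k').eval v z = z l := by
  show (0 : M) + (1 * z l + 0) = z l
  rw [add_zero, zero_add, one_mul]

theorem g0_evalK {α : Type} {k' : ℕ} (l : Fin k') {M K : Type} [CommSemiring M]
    [CommSemiring K] (κ : M →+* K) (v : α → M) (x : Fin k' → K) :
    (g0 l : Lf α k').evalK κ v x = x l := by
  show κ 0 + (κ 1 * x l + 0) = x l
  rw [map_zero, map_one, add_zero, zero_add, one_mul]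

/-- The new constraint. -/
def p0 {α : Type} {k k' : ℕ} (e' : Fin (k + 1) → Fin k') (f : Lf α k) : Con α k' :=
  ((g0 (e' 0)).succ, f.ren (fun i => e' i.succ))

theorem p0_holds {α : Type} {k k' : ℕ} (e' : Fin (k + 1) → Fin k') (f : Lf α k) (M : Mdl)
    (v : α → M.C) (z' : Fin k' → M.C) :
    (p0 e' f).holds v z' ↔ z' (e' 0) < f.eval v (fun i => z' (e' i.succ)) := by
  show (Lf.succ (g0 (e' 0))).eval v z' ≤ (f.ren (fun i => e' i.succ)).eval v z' ↔ _
  rw [Lf.eval_succ, Lf.eval_ren, g0_eval]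
  exact QDnfAux.succ_le_iff M

theorem p0_holdsK {α : Type} {k k' : ℕ} (e' : Fin (k + 1) → Fin k') (f : Lf α k)
    {M K : Type} [CommSemiring M] [CommSemiring K] [LE K] (κ : M →+* K)
    (v : α → M) (x : Fin k' → K) :
    (p0 e' f).holdsK κ v x ↔ x (e' 0) + 1 ≤ f.evalK κ v (fun i => x (e' i.succ)) := by
  show (Lf.succ (g0 (e' 0))).evalK κ v x ≤ (f.ren (fun i => e' i.succ)).evalK κ v x ↔ _
  rw [Lf.evalK_succ, Lf.evalK_ren, g0_evalK]

theorem evalK_le {α : Type} {k : ℕ} (f : Lf α k) (M : Mdl) (v : α → M.C) {K : Type} [Field K]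
    [LinearOrder K] [IsStrictOrderedRing K] (κ : M.C →+* K)
    (hκ : ∀ a b : M.C, a ≤ b → κ a ≤ κ b) (D : K) (x : Fin k → K) (hx : ∀ i, |x i| ≤ D) :
    f.evalK κ v x ≤ κ (f.1.eval v) + (f.2.map (fun p => κ (p.1.eval v) * D)).sum := by
  unfold Lf.evalK
  gcongr
  have hk0 : ∀ a : M.C, 0 ≤ κ a := by
    intro a
    have := hκ 0 a (nonneg M.io a)
    rwa [map_zero] at this
  induction f.2 with
  | nil => simp only [List.map_nil, List.sum_nil, le_refl]
  | cons p l ih =>
    simp only [List.map_cons, List.sum_cons]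
    refine add_le_add ?_ ih
    exact mul_le_mul_of_nonneg_left ((le_abs_self _).trans (hx _)) (hk0 _)

theorem main {α : Type} {m : ℕ} {B : Fin m → Bool} {φ : Fm m} (hφ : Block B φ) :
    ∀ (k : ℕ) (E : Fin m → Tm α ⊕ Fin k), (B = fun i => (E i).isRight) →
    ∃ (k' : ℕ) (e : Fin k → Fin k') (L : List (List (Con α k'))),
      (∀ (M : Mdl) (v : α → M.C) (z : Fin k → M.C), ¬ φ.sat (env E v z) ↔
        ∃ z' : Fin k' → M.C, (∀ i, z' (e i) = z i) ∧ ∃ S ∈ L, ∀ p ∈ S, p.holds v z') ∧
      ∀ (M : Mdl) (v : α → M.C) (K : Type) [Field K] [LinearOrder K] [IsStrictOrderedRing K]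
        (κ : M.C →+* K) (_ : ∀ a b : M.C, a ≤ b → κ a ≤ κ b) (D : K),
        ∃ D' : K, ∀ S ∈ L, ∀ x : Fin k' → K, (∀ i, |x (e i)| ≤ D) → (∀ i, 0 ≤ x i) →
          (∀ p ∈ S, p.holdsK κ v x) → ∀ i, x i ≤ D' := by
  induction hφ with
  | @qfree n B θ h =>
    intro k E hB
    rw [hB] at h
    obtain ⟨L, L', hL⟩ := qdnf E θ h
    refine ⟨k, id, L', ?_, ?_⟩
    · intro M v z
      rw [(hL M v z).2]
      constructor
      · intro h1
        exact ⟨z, fun i => rfl, h1⟩
      · rintro ⟨z', hz', h1⟩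
        have : z' = z := funext hz'
        rwa [this] at h1
    · intro M v K _ _ _ κ _ D
      refine ⟨D, ?_⟩
      intro S _ x hx _ _ i
      exact (le_abs_self _).trans (hx i)
  | @allB n B t φ ht h ih =>
    intro k E hB
    obtain ⟨k', e', L', h1, h2⟩ := ih (k + 1)
      (Fin.cons (.inr 0) (fun i => (E i).map id Fin.succ)) (right_cons E B hB)
    rw [hB] at ht
    obtain ⟨f, hf⟩ := exists_lf E t ht
    refine ⟨k', fun i => e' i.succ, L'.map (fun S => p0 e' f :: S), ?_, ?_⟩
    · intro M v z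
      have hsat : ¬ (Fm.allB t φ).sat (env E v z) ↔
          ∃ x : M.C, x < f.eval v z ∧ ¬ φ.sat (Fin.cons x (env E v z) : Fin (n + 1) → M.C) := by
        show ¬ (∀ x : M.C, x < t.eval (env E v z) →
          φ.sat (Fin.cons x (env E v z) : Fin (n + 1) → M.C)) ↔ _
        rw [hf]
        push Not
        rfl
      rw [hsat]
      constructor
      · rintro ⟨x, hx, hns⟩
        rw [env_cons, h1 M v] at hns
        obtain ⟨z', hz', S, hS, hp⟩ := hns
        have hz1 : ∀ i : Fin k, z' (e' i.succ) = z i := by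
          intro i
          rw [hz']
          rfl
        refine ⟨z', hz1, p0 e' f :: S, List.mem_map.2 ⟨S, hS, rfl⟩, ?_⟩
        intro p hpS
        rcases List.mem_cons.1 hpS with rfl | hpS
        · rw [p0_holds]
          have : (fun i : Fin k => z' (e' i.succ)) = z := funext hz1
          rw [this, hz']
          exact hx
        · exact hp p hpS
      · rintro ⟨z', hz', S, hS, hp⟩
        obtain ⟨S', hS', rfl⟩ := List.mem_map.1 hS
        have hz1 : (fun i : Fin k => z' (e' i.succ)) = z := funext hz'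
        refine ⟨z' (e' 0), ?_, ?_⟩
        · have := (p0_holds e' f M v z').1 (hp _ (List.mem_cons.2 (Or.inl rfl)))
          rwa [hz1] at this
        · rw [env_cons, h1 M v]
          refine ⟨z', ?_, S', hS', fun p hp' => hp p (List.mem_cons.2 (Or.inr hp'))⟩
          intro i
          refine Fin.cases ?_ (fun i => ?_) i
          · rfl
          · exact hz' i
    · intro M v K _ _ _ κ hκ D
      set D₁ : K := κ (f.1.eval v) + (f.2.map (fun p => κ (p.1.eval v) * D)).sum with hD₁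
      obtain ⟨D', hD'⟩ := h2 M v K κ hκ (max D D₁)
      refine ⟨D', ?_⟩
      intro S hS x hx hx0 hp i
      obtain ⟨S', hS', rfl⟩ := List.mem_map.1 hS
      refine hD' S' hS' x ?_ hx0 (fun p hp' => hp p (List.mem_cons.2 (Or.inr hp'))) i
      intro j
      refine Fin.cases ?_ (fun j => ?_) j
      · have h3 := (p0_holdsK e' f κ v x).1 (hp _ (List.mem_cons.2 (Or.inl rfl)))
        have h4 := evalK_le f M v κ hκ D (fun i => x (e' i.succ)) hx
        rw [abs_of_nonneg (hx0 _)]
        refine le_trans ?_ (le_max_right _ _)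
        rw [hD₁]
        linarith
      · exact (hx j).trans (le_max_left _ _)

end BlockNFAux

theorem block_nf {α : Type} {m k : ℕ} (E : Fin m → Tm α ⊕ Fin k) (φ : Fm m)
    (hφ : Block (fun i => (E i).isRight) φ) :
    ∃ (k' : ℕ) (e : Fin k → Fin k') (L : List (List (Con α k'))),
      (∀ (M : Mdl) (v : α → M.C) (z : Fin k → M.C), ¬ φ.sat (env E v z) ↔
        ∃ z' : Fin k' → M.C, (∀ i, z' (e i) = z i) ∧ ∃ S ∈ L, ∀ p ∈ S, p.holds v z') ∧
      ∀ (M : Mdl) (v : α → M.C) (K : Type) [Field K] [LinearOrder K] [IsStrictOrderedRing K]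
        (κ : M.C →+* K) (_ : ∀ a b : M.C, a ≤ b → κ a ≤ κ b) (D : K),
        ∃ D' : K, ∀ S ∈ L, ∀ x : Fin k' → K, (∀ i, |x (e i)| ≤ D) → (∀ i, 0 ≤ x i) →
          (∀ p ∈ S, p.holdsK κ v x) → ∀ i, x i ≤ D' := by
  exact BlockNFAux.main hφ k E rfl

end Pool.Agent.Lib.P28F
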