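import Pool.Agent.Lib.P28F.ZM

/-!
Definitions: ordered fields with an integer part, certificates of integer infeasibility, and
blocks of bounded universal quantifiers with an affine matrix.
-/

set_option autoImplicit false
set_option linter.unusedSectionVars false

namespace Pool.Agent.Lib.P28F

open Pool.Agent.Lib.P28b Matrix

/-! ### induction for bounded existential formulas -/

/-- Bounded existential formulas `∃ x₁ < t₁ … ∃ x_k < t_k, θ` with `θ` quantifier-free. -/
inductive E1 : {n : ℕ} → Fm n → Prop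
  | qfree {n : ℕ} (θ : Fm n) (h : θ.QFree) : E1 θ
  | exB {n : ℕ} (t : Tm (Fin n)) (φ : Fm (n + 1)) (h : E1 φ) : E1 (Fm.exB t φ)

/-- Models of IE₁: the basic axioms and the induction scheme for bounded existential formulas
(with parameters). -/
structure ModelIE1 (M : Type) [Zero M] [One M] [Add M] [Mul M] [LT M] : Prop where
  basic : Basic M
  ind : ∀ (n : ℕ) (φ : Fm (n + 1)), E1 φ → ∀ v : Fin n → M,
    φ.sat (Fin.cons 0 v : Fin (n + 1) → M) →
    (∀ x : M, φ.sat (Fin.cons x v : Fin (n + 1) → M) →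
      φ.sat (Fin.cons (x + 1) v : Fin (n + 1) → M)) →
    ∀ x : M, φ.sat (Fin.cons x v : Fin (n + 1) → M)

theorem E1.bounded {n : ℕ} {φ : Fm n} (h : E1 φ) : φ.Bounded := by
  induction h with
  | qfree θ h => exact QFree.bounded θ h
  | exB t φ h ih => exact ih

theorem ModelIE1.of_delta0 {M : Type} [Zero M] [One M] [Add M] [Mul M] [LT M]
    (h : ModelIDelta0 M) : ModelIE1 M :=
  ⟨h.basic, fun n φ hφ => h.ind n φ hφ.bounded⟩

theorem ModelIE1.iopen {M : Type} [Zero M] [One M] [Add M] [Mul M] [LT M]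
    (h : ModelIE1 M) : ModelIOpen M :=
  ⟨h.basic, fun n φ hφ => h.ind n φ (E1.qfree φ hφ)⟩

/-! ### integer parts -/

/-- `K` is an ordered field of fractions of the ordered ring `Z` (embedded by `c`), and `Z` is an
integer part of `K` with Bezout's theorem and with shortest vectors for polyhedral norms. -/
structure IntPart {Z K : Type} [CommRing Z] [LinearOrder Z] [IsStrictOrderedRing Z]
    [Field K] [LinearOrder K] [IsStrictOrderedRing K] (c : Z →+* K) : Prop where
  lt : ∀ a b : Z, a < b → c a < c b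
  frac : ∀ x : K, ∃ a b : Z, 0 < b ∧ x * c b = c a
  floor : ∀ x : K, ∃ z : Z, c z ≤ x ∧ x < c z + 1
  one_le : ∀ z : Z, 0 < z → 1 ≤ z
  bez : ∀ a b : Z, ∃ p q u v g : Z, a = p * g ∧ b = q * g ∧ u * p + v * q = 1
  short : ∀ (n : ℕ) (ι : Type) [Fintype ι] (A : Matrix ι (Fin (n + 1)) Z),
    (∀ z : Fin (n + 1) → Z, A *ᵥ z = 0 → z = 0) →
    ∃ b : Fin (n + 1) → Z, b ≠ 0 ∧ ∀ z : Fin (n + 1) → Z, z ≠ 0 → ∀ N : Z,
      (∀ i, |(A *ᵥ z) i| ≤ N) → ∀ i, |(A *ᵥ b) i| ≤ N

section

variable {Z K : Type} [CommRing Z] [LinearOrder Z] [IsStrictOrderedRing Z]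
  [Field K] [LinearOrder K] [IsStrictOrderedRing K] {c : Z →+* K}

theorem IntPart.lt_iff (hI : IntPart c) {a b : Z} : c a < c b ↔ a < b := by
  constructor
  · intro h
    by_contra h'
    rcases (not_lt.1 h').lt_or_eq with h1 | h1
    · exact lt_asymm h (hI.lt _ _ h1)
    · rw [h1] at h
      exact lt_irrefl _ h
  · exact hI.lt a b

theorem IntPart.le_iff (hI : IntPart c) {a b : Z} : c a ≤ c b ↔ a ≤ b := by
  rw [← not_lt, ← not_lt, hI.lt_iff]

theorem IntPart.inj (hI : IntPart c) {a b : Z} : c a = c b ↔ a = b := by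
  constructor
  · intro h
    exact le_antisymm (hI.le_iff.1 h.le) (hI.le_iff.1 h.ge)
  · intro h
    rw [h]

theorem IntPart.le_comp (hI : IntPart c) {ι : Type} {f g : ι → Z} :
    c ∘ f ≤ c ∘ g ↔ f ≤ g :=
  forall_congr' fun _ => hI.le_iff

/-- The embedding of vectors commutes with integer matrices. -/
theorem comp_mulVec (c : Z →+* K) {ι κ : Type} [Fintype κ] (A : Matrix ι κ Z) (z : κ → Z) :
    c ∘ (A *ᵥ z) = A.map c *ᵥ (c ∘ z) := by
  funext i
  simp only [Function.comp_apply, Matrix.mulVec, dotProduct, map_sum, map_mul, Matrix.map_apply]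

theorem comp_mulVec_apply (c : Z →+* K) {ι κ : Type} [Fintype κ] (A : Matrix ι κ Z) (z : κ → Z)
    (i : ι) : c ((A *ᵥ z) i) = (A.map c *ᵥ (c ∘ z)) i :=
  congrFun (comp_mulVec c A z) i

end

/-! ### certificates -/

/-- The width used in the certificates. -/
def Wd (n m : ℕ) : ℕ := 2 * (m * 3 ^ n) + 1

/-- A certificate that the system `A z ≤ b` has no solution in integers. -/
def Inf {Z : Type} [CommRing Z] [LinearOrder Z] :
    (k : ℕ) → (ι : Type) → [Fintype ι] → Matrix ι (Fin k) Z → (ι → Z) → Prop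
  | 0, ι, _, _, b => ∃ i : ι, b i < 0
  | k + 1, ι, _, A, b =>
      (∃ y : ι → Z, 0 ≤ y ∧ y ᵥ* A = 0 ∧ y ⬝ᵥ b < 0) ∨
      ∃ (V V' : Matrix (Fin (k + 1)) (Fin (k + 1)) Z) (h : Z), V * V' = 1 ∧
        (∃ (y : ι → Z) (s : Z), 0 ≤ y ∧ 0 ≤ s ∧ y ᵥ* (A * V) = Pi.single 0 s ∧
          y ⬝ᵥ b < s * (h + (Wd k (Fintype.card ι) : Z) + 1)) ∧
        (∃ (y : ι → Z) (s : Z), 0 ≤ y ∧ 0 ≤ s ∧ y ᵥ* (A * V) = Pi.single 0 (-s) ∧
          y ⬝ᵥ b < -s * (h - 1)) ∧
        ∀ i : Fin (Wd k (Fintype.card ι) + 1),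
          Inf k ι (fun j l => (A * V) j l.succ) (fun j => b j - (A * V) j 0 * (h + ((i : ℕ) : Z)))

/-! ### blocks of universal quantifiers -/

/-- The degree of a term in the variables marked by `B`. -/
def deg {α : Type} (B : α → Bool) : Tm α → ℕ
  | .var a => if B a then 1 else 0
  | .zero => 0
  | .one => 0
  | .add s t => max (deg B s) (deg B t)
  | .mul s t => deg B s + deg B t

/-- Quantifier-free formulas in which every term has degree at most one in the variables marked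
by `B`; the other variables occur in any way. -/
def QLin : {n : ℕ} → (Fin n → Bool) → Fm n → Prop
  | _, B, .lt s t => deg B s ≤ 1 ∧ deg B t ≤ 1
  | _, B, .eq s t => deg B s ≤ 1 ∧ deg B t ≤ 1
  | _, B, .not φ => QLin B φ
  | _, B, .and φ ψ => QLin B φ ∧ QLin B ψ
  | _, B, .or φ ψ => QLin B φ ∧ QLin B ψ
  | _, _, .ex _ => False
  | _, _, .all _ => False
  | _, _, .exB _ _ => False
  | _, _, .allB _ _ => False

/-- A block `∀ z₁ < t₁ … ∀ z_k < t_k, θ` with `θ` quantifier-free, in which all terms, those in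
`θ` and the `t_i`, have degree at most one in the marked variables and the `z_i` together. -/
inductive Block : {n : ℕ} → (Fin n → Bool) → Fm n → Prop
  | qfree {n : ℕ} (B : Fin n → Bool) (θ : Fm n) (h : QLin B θ) : Block B θ
  | allB {n : ℕ} (B : Fin n → Bool) (t : Tm (Fin n)) (φ : Fm (n + 1)) (ht : deg B t ≤ 1)
      (h : Block (Fin.cons true B : Fin (n + 1) → Bool) φ) : Block B (Fm.allB t φ)

/-- The class of formulas treated here: affine blocks of universal quantifiers and formulas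
`∀ x < t, θ` with any quantifier-free `θ`, closed under conjunction, disjunction and bounded or
unbounded existential quantification. -/
inductive LinAll : {n : ℕ} → Fm n → Prop
  | block {n : ℕ} (φ : Fm n) (h : Block (fun _ => false) φ) : LinAll φ
  | one {n : ℕ} (t : Tm (Fin n)) (θ : Fm (n + 1)) (h : θ.QFree) : LinAll (Fm.allB t θ)
  | and {n : ℕ} (φ ψ : Fm n) (h₁ : LinAll φ) (h₂ : LinAll ψ) : LinAll (Fm.and φ ψ)
  | or {n : ℕ} (φ ψ : Fm n) (h₁ : LinAll φ) (h₂ : LinAll ψ) : LinAll (Fm.or φ ψ)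
  | ex {n : ℕ} (φ : Fm (n + 1)) (h : LinAll φ) : LinAll (Fm.ex φ)
  | exB {n : ℕ} (t : Tm (Fin n)) (φ : Fm (n + 1)) (h : LinAll φ) : LinAll (Fm.exB t φ)

end Pool.Agent.Lib.P28F
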