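import Pool.Agent.Lib.P28F.TF

/-!
# Module P28F.DioInf: the certificates are Diophantine, uniformly in all models

PROOF by induction on `k`, for all α, ι, A, b. k = 0: `Dio.exFin` over ι and `Dio.ltZ` (b i < 0).
k + 1: `Dio.or`. First part: `Dio.exZ` with γ = ι: conjunction (`Dio.and`, `Dio.allFin`) of
0 ≤ y i, of (y ᵥ* A) l = ∑ i, y i * A i l = 0 and of y ⬝ b = ∑ i, y i * b i < 0; the functions
are TF by `TF.newVar`, `TF.rename` (for A, b in the larger context), `TF.mul`, `TF.sum`.
Second part: `Dio.exZ` three times (V with γ = Fin (k+1) × Fin (k+1), V' the same, h with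
γ = Unit; matrices as functions of pairs, use `Dio.congr` to pass from
∃ V : Matrix .. to ∃ y : Fin (k+1) × Fin (k+1) → ZM M) — or once, with the sum type of all three —
and inside: V * V' = 1 entrywise (`Matrix.mul_apply`, `Matrix.one_apply`; `funext`/`Matrix.ext_iff`),
the two certificates by `Dio.exZ` with γ = ι ⊕ Unit (y and s), `Pi.single 0 s` entrywise (for
l = 0 it is s, else 0), and `Dio.allFin` over `Fin (Wd .. + 1)` with the induction hypothesis for
the matrix entries ∑ l', A j l' * V l' l.succ and the right sides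
b j - (∑ l', A j l' * V l' 0) * (h + i).
It is convenient to prove first a private lemma for a general conjunction so that the term
functions of the larger contexts (α ⊕ (γ ⊕ γ)) are handled uniformly.
-/

set_option autoImplicit false

namespace Pool.Agent.Lib.P28F

open Pool.Agent.Lib.P28b Matrix

namespace DioInfAux

variable {α : Type}

theorem part1 {k : ℕ} (ι : Type) [Fintype ι]
    (A : ι → Fin k → ∀ M : Mdl, (α → M.C) → ZM M) (b : ι → ∀ M : Mdl, (α → M.C) → ZM M)
    (hA : ∀ i l, TF (A i l)) (hb : ∀ i, TF (b i)) :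
    Dio (fun M v => ∃ y : ι → ZM M, 0 ≤ y ∧ y ᵥ* (Matrix.of fun i l => A i l M v) = 0 ∧
      y ⬝ᵥ (fun i => b i M v) < 0) := by
  refine Dio.exZ (γ := ι) (R := fun M v y => 0 ≤ y ∧ y ᵥ* (Matrix.of fun i l => A i l M v) = 0 ∧
      y ⬝ᵥ (fun i => b i M v) < 0) ?_
  have h1 := Dio.allFin (α := α ⊕ (ι ⊕ ι))
    (fun (i : ι) M w => (0 : ZM M) ≤ mk (w (.inr (.inl i))) (w (.inr (.inr i))))
    (fun i => Dio.leZ TF.zero (TF.newVar i))
  have h2 := Dio.allFin (α := α ⊕ (ι ⊕ ι))
    (fun (l : Fin k) M w => (∑ i, mk (w (.inr (.inl i))) (w (.inr (.inr i))) *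
      A i l M (fun a => w (.inl a))) = 0)
    (fun l => Dio.eqZ (TF.sum Finset.univ _ fun i => (TF.newVar i).mul ((hA i l).rename Sum.inl))
      TF.zero)
  have h3 := Dio.ltZ (α := α ⊕ (ι ⊕ ι))
    (f := fun M w => ∑ i, mk (w (.inr (.inl i))) (w (.inr (.inr i))) *
      b i M (fun a => w (.inl a)))
    (g := fun M _ => 0)
    (TF.sum Finset.univ _ fun i => (TF.newVar i).mul ((hb i).rename Sum.inl)) TF.zero
  refine (h1.and (h2.and h3)).congr fun M w => ?_
  refine and_congr Iff.rfl (and_congr ?_ Iff.rfl)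
  rw [funext_iff]
  rfl

theorem cert {k : ℕ} (ι : Type) [Fintype ι]
    (A : ι → Fin (k + 1) → ∀ M : Mdl, (α → M.C) → ZM M) (b : ι → ∀ M : Mdl, (α → M.C) → ZM M)
    (e c : ∀ M : Mdl, (α → M.C) → ZM M)
    (hA : ∀ i l, TF (A i l)) (hb : ∀ i, TF (b i)) (he : TF e) (hc : TF c) :
    Dio (fun M v => ∃ (y : ι → ZM M) (s : ZM M), 0 ≤ y ∧ 0 ≤ s ∧
      y ᵥ* (Matrix.of fun i l => A i l M v) = Pi.single 0 (e M v * s) ∧
      y ⬝ᵥ (fun i => b i M v) < e M v * s * c M v) := by
  have key : Dio (fun M v => ∃ z : ι ⊕ Unit → ZM M, (fun M v (z : ι ⊕ Unit → ZM M) =>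
      0 ≤ (fun i => z (.inl i)) ∧ 0 ≤ z (.inr ()) ∧
      (fun i => z (.inl i)) ᵥ* (Matrix.of fun i l => A i l M v) =
        Pi.single 0 (e M v * z (.inr ())) ∧
      (fun i => z (.inl i)) ⬝ᵥ (fun i => b i M v) < e M v * z (.inr ()) * c M v) M v z) := by
    refine Dio.exZ (γ := ι ⊕ Unit) ?_
    have hn : ∀ g : ι ⊕ Unit, TF (fun M (w : α ⊕ ((ι ⊕ Unit) ⊕ (ι ⊕ Unit)) → M.C) =>
        mk (w (.inr (.inl g))) (w (.inr (.inr g)))) := fun g => TF.newVar g
    have h1 := Dio.allFin (α := α ⊕ ((ι ⊕ Unit) ⊕ (ι ⊕ Unit)))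
      (fun (i : ι) M w => (0 : ZM M) ≤ mk (w (.inr (.inl (.inl i)))) (w (.inr (.inr (.inl i)))))
      (fun i => Dio.leZ TF.zero (hn (.inl i)))
    have h1' := Dio.leZ TF.zero (hn (.inr ()))
    have h2 := Dio.allFin (α := α ⊕ ((ι ⊕ Unit) ⊕ (ι ⊕ Unit)))
      (fun (l : Fin (k + 1)) M w =>
        (∑ i, mk (w (.inr (.inl (.inl i)))) (w (.inr (.inr (.inl i)))) *
          A i l M (fun a => w (.inl a))) =
        if l = 0 then e M (fun a => w (.inl a)) *
          mk (w (.inr (.inl (.inr ())))) (w (.inr (.inr (.inr ())))) else 0)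
      (fun l => by
        by_cases hl : l = 0
        · simp only [if_pos hl]
          exact Dio.eqZ (TF.sum Finset.univ _ fun i =>
            (hn (.inl i)).mul ((hA i l).rename Sum.inl)) ((he.rename Sum.inl).mul (hn (.inr ())))
        · simp only [if_neg hl]
          exact Dio.eqZ (TF.sum Finset.univ _ fun i =>
            (hn (.inl i)).mul ((hA i l).rename Sum.inl)) TF.zero)
    have h3 := Dio.ltZ (α := α ⊕ ((ι ⊕ Unit) ⊕ (ι ⊕ Unit)))
      (f := fun M w => ∑ i, mk (w (.inr (.inl (.inl i)))) (w (.inr (.inr (.inl i)))) *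
        b i M (fun a => w (.inl a)))
      (g := fun M w => e M (fun a => w (.inl a)) *
          mk (w (.inr (.inl (.inr ())))) (w (.inr (.inr (.inr ())))) * c M (fun a => w (.inl a)))
      (TF.sum Finset.univ _ fun i => (hn (.inl i)).mul ((hb i).rename Sum.inl))
      (((he.rename Sum.inl).mul (hn (.inr ()))).mul (hc.rename Sum.inl))
    refine (h1.and (h1'.and (h2.and h3))).congr fun M w => ?_
    refine and_congr Iff.rfl (and_congr Iff.rfl (and_congr ?_ Iff.rfl))
    rw [funext_iff]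
    refine forall_congr' fun l => ?_
    rw [Pi.single_apply]
    rfl
  refine key.congr fun M v => ?_
  constructor
  · rintro ⟨z, hz⟩
    exact ⟨_, _, hz⟩
  · rintro ⟨y, s, hz⟩
    exact ⟨Sum.elim y fun _ => s, hz⟩

end DioInfAux

open DioInfAux in
theorem Dio.inf (k : ℕ) {α : Type} (ι : Type) [Fintype ι]
    (A : ι → Fin k → ∀ M : Mdl, (α → M.C) → ZM M) (b : ι → ∀ M : Mdl, (α → M.C) → ZM M)
    (hA : ∀ i l, TF (A i l)) (hb : ∀ i, TF (b i)) :
    Dio (fun M v => Inf k ι (Matrix.of fun i l => A i l M v) (fun i => b i M v)) := by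
  induction k generalizing α ι with
  | zero => exact Dio.exFin (fun i M v => b i M v < 0) fun i => Dio.ltZ (hb i) TF.zero
  | succ k ih =>
    refine (part1 ι A b hA hb).or ?_
    have key : Dio (fun M v => ∃ z : (Fin (k + 1) × Fin (k + 1)) ⊕
        ((Fin (k + 1) × Fin (k + 1)) ⊕ Unit) → ZM M,
        (fun M v (z : (Fin (k + 1) × Fin (k + 1)) ⊕
          ((Fin (k + 1) × Fin (k + 1)) ⊕ Unit) → ZM M) =>
        (Matrix.of fun i j => z (.inl (i, j)) : Matrix (Fin (k + 1)) (Fin (k + 1)) (ZM M)) *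
          (Matrix.of fun i j => z (.inr (.inl (i, j)))) = 1 ∧
        (∃ (y : ι → ZM M) (s : ZM M), 0 ≤ y ∧ 0 ≤ s ∧
          y ᵥ* ((Matrix.of fun i l => A i l M v) * (Matrix.of fun i j => z (.inl (i, j)))) =
            Pi.single 0 s ∧
          y ⬝ᵥ (fun i => b i M v) < s * (z (.inr (.inr ())) +
            (Wd k (Fintype.card ι) : ZM M) + 1)) ∧
        (∃ (y : ι → ZM M) (s : ZM M), 0 ≤ y ∧ 0 ≤ s ∧
          y ᵥ* ((Matrix.of fun i l => A i l M v) * (Matrix.of fun i j => z (.inl (i, j)))) =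
            Pi.single 0 (-s) ∧
          y ⬝ᵥ (fun i => b i M v) < -s * (z (.inr (.inr ())) - 1)) ∧
        ∀ i : Fin (Wd k (Fintype.card ι) + 1),
          Inf k ι (fun j l => ((Matrix.of fun i l => A i l M v) *
              (Matrix.of fun i j => z (.inl (i, j)))) j l.succ)
            (fun j => b j M v - ((Matrix.of fun i l => A i l M v) *
              (Matrix.of fun i j => z (.inl (i, j)))) j 0 *
                (z (.inr (.inr ())) + ((i : ℕ) : ZM M)))) M v z) := by
      refine Dio.exZ ?_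
      set Γ : Type := (Fin (k + 1) × Fin (k + 1)) ⊕ ((Fin (k + 1) × Fin (k + 1)) ⊕ Unit) with hΓ
      let nv : Γ → ∀ M : Mdl, (α ⊕ (Γ ⊕ Γ) → M.C) → ZM M :=
        fun g M w => mk (w (.inr (.inl g))) (w (.inr (.inr g)))
      have hn : ∀ g : Γ, TF (nv g) := fun g => TF.newVar g
      let A' : ι → Fin (k + 1) → ∀ M : Mdl, (α ⊕ (Γ ⊕ Γ) → M.C) → ZM M :=
        fun j l M w => ∑ l', A j l' M (fun a => w (.inl a)) * nv (.inl (l', l)) M w
      have hA' : ∀ j l, TF (A' j l) := fun j l =>
        TF.sum Finset.univ _ fun l' => ((hA j l').rename Sum.inl).mul (hn _)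
      let b' : ι → ∀ M : Mdl, (α ⊕ (Γ ⊕ Γ) → M.C) → ZM M := fun j M w =>
        b j M (fun a => w (.inl a))
      have hb' : ∀ j, TF (b' j) := fun j => (hb j).rename Sum.inl
      have hh : TF (nv (.inr (.inr ()))) := hn _
      have h1 := Dio.allFin (fun (i : Fin (k + 1)) M w => ∀ j : Fin (k + 1),
          (∑ l, nv (.inl (i, l)) M w * nv (.inr (.inl (l, j))) M w) = if i = j then 1 else 0)
        (fun i => Dio.allFin _ fun j => by
          by_cases hij : i = j
          · simp only [if_pos hij]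
            exact Dio.eqZ (TF.sum Finset.univ _ fun l => (hn _).mul (hn _)) TF.one
          · simp only [if_neg hij]
            exact Dio.eqZ (TF.sum Finset.univ _ fun l => (hn _).mul (hn _)) TF.zero)
      have h2 := cert ι A' b' (fun M _ => 1)
        (fun M w => nv (.inr (.inr ())) M w + ((Wd k (Fintype.card ι) : ℕ) : ZM M) + 1)
        hA' hb' TF.one ((hh.add (TF.natCast _)).add TF.one)
      have h3 := cert ι A' b' (fun M _ => -1)
        (fun M w => nv (.inr (.inr ())) M w - 1) hA' hb' TF.one.neg (hh.sub TF.one)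
      have h4 := Dio.allFin (fun (i : Fin (Wd k (Fintype.card ι) + 1)) M w =>
          Inf k ι (Matrix.of fun j l => A' j l.succ M w)
            (fun j => b' j M w - A' j 0 M w * (nv (.inr (.inr ())) M w + ((i : ℕ) : ZM M))))
        (fun i => ih ι (fun j l => A' j l.succ)
          (fun j M w => b' j M w - A' j 0 M w * (nv (.inr (.inr ())) M w + ((i : ℕ) : ZM M)))
          (fun j l => hA' j l.succ)
          (fun j => (hb' j).sub ((hA' j 0).mul (hh.add (TF.natCast _)))))
      refine (h1.and (h2.and (h3.and h4))).congr fun M w => ?_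
      refine and_congr ?_ (and_congr ?_ (and_congr ?_ ?_))
      · rw [← Matrix.ext_iff]
        refine forall_congr' fun i => forall_congr' fun j => ?_
        rw [Matrix.one_apply]
        rfl
      · simp only [one_mul]
        rfl
      · simp only [neg_mul, one_mul]
        rfl
      · rfl
    refine key.congr fun M v => ?_
    constructor
    · rintro ⟨z, hz⟩
      exact ⟨_, _, _, hz⟩
    · rintro ⟨V, V', h, hz⟩
      exact ⟨Sum.elim (fun p => V p.1 p.2) (Sum.elim (fun p => V' p.1 p.2) fun _ => h), hz⟩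

end Pool.Agent.Lib.P28F
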