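import Pool.Agent.Lib.P28F.Defs

/-!
# Module P28F.EB: bounded existential relations and the least number principle in IE₁

The predicates `QB` (quantifier-free) and `EB` (bounded existential) describe relations over
arbitrary types of variables; the value of `Option` variables follows `Lib/P28b/Dio.lean`
(`fun o => o.elim x v`).

PROOFS.
`QB.map`, `EB.map`: induction; terms by `Tm.map`, `Tm.eval_map` (P28b.Open); in the case `exB` use
the induction hypothesis for `Option.map f`.
`QB.formula`, `EB.formula`: induction, generalising `n` and `ρ`. lt, eq: `Tm.map ρ`,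
`Tm.eval_map`; not, and, or: direct. exB t R: for the formula of R take
`ρ' : Option α → Fin (n + 1)`, `ρ' o = o.elim 0 (fun a => (ρ a).succ)`, and
`Fm.exB (t.map ρ) φ'`; the assignments agree:
`(fun o => Fin.cons x v (ρ' o)) = (fun o => o.elim x (fun a => v (ρ a)))`.
`QB.le`: not lt. `QB.allFin`: induction over `Finset.univ.toList` (or `Finite.induction_empty_option`);
the empty conjunction is `QB.eq zero zero`.
`EB.and`: induction on `EB R`; in the case exB the quantifier-free S is moved below the quantifier
with `QB.map some`.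
`EB.exs`: for `γ = Fin l` by induction on `l` (split off one variable by `EB.exB` and renaming
`EB.map`; the bound t does not contain the new variables, so the relation
`∃ y, (∀ g, y g < t) ∧ R` unfolds to nested bounded quantifiers), then transport to a finite `γ`
by an equivalence and `EB.map`.
`EB.lnp` (least number principle): let R (a, v) hold and suppose there is no least x. Let
`S x := ∃ w, w < a + 1 ∧ (R (w, v) ∧ (w + x ≤ a ∨ a < x))`, a bounded existential relation of x with
parameters v and a (`EB.exB`, `EB.and`, `EB.map`). `S 0` by w = a. Step: let w witness S x. If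
a < x + 1, then S (x + 1) is witnessed by the same w. Otherwise x + 1 ≤ a, so not a < x, thus
w + x ≤ a; w is not least, so there is w' < w with R (w', v), w' + 1 ≤ w, w' + (x + 1) ≤ a. By
`EB.formula` and `hM.ind`, S a holds: w + a ≤ a, so w = 0, R (0, v), and 0 is least: contradiction.
For the formula: β is finite, take `e : β ≃ Fin m` (`Finite.exists_equiv_fin`), the parameters are
v ∘ e.symm and a (m + 1 of them), ρ none = 0. Facts on the order: `nonneg`, `add_one_le`,
`exists_add`, `lt_add_one'` of P28b.Open with `hM.iopen`.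
-/

set_option autoImplicit false
set_option linter.unusedSectionVars false

namespace Pool.Agent.Lib.P28F

open Pool.Agent.Lib.P28b

/-- Relations defined by quantifier-free formulas, over arbitrary types of variables. -/
inductive QB {M : Type} [Zero M] [One M] [Add M] [Mul M] [LT M] :
    {α : Type} → ((α → M) → Prop) → Prop
  | lt {α : Type} (s t : Tm α) : QB (fun v : α → M => s.eval v < t.eval v)
  | eq {α : Type} (s t : Tm α) : QB (fun v : α → M => s.eval v = t.eval v)
  | not {α : Type} (R : (α → M) → Prop) (h : QB R) : QB (fun v => ¬ R v)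
  | and {α : Type} (R S : (α → M) → Prop) (h₁ : QB R) (h₂ : QB S) : QB (fun v => R v ∧ S v)
  | or {α : Type} (R S : (α → M) → Prop) (h₁ : QB R) (h₂ : QB S) : QB (fun v => R v ∨ S v)

/-- Relations defined by bounded existential formulas, over arbitrary types of variables. -/
inductive EB {M : Type} [Zero M] [One M] [Add M] [Mul M] [LT M] :
    {α : Type} → ((α → M) → Prop) → Prop
  | qb {α : Type} (R : (α → M) → Prop) (h : QB R) : EB R
  | exB {α : Type} (t : Tm α) (R : (Option α → M) → Prop) (h : EB R) :
      EB (fun v : α → M => ∃ x : M, x < t.eval v ∧ R (fun o => o.elim x v))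

section raw

variable {M : Type} [Zero M] [One M] [Add M] [Mul M] [LT M]

theorem QB.congr {α : Type} {R S : (α → M) → Prop} (h : QB R) (hRS : ∀ v, R v ↔ S v) :
    QB S := by
  have : R = S := funext fun v => propext (hRS v)
  rwa [← this]

theorem EB.congr {α : Type} {R S : (α → M) → Prop} (h : EB R) (hRS : ∀ v, R v ↔ S v) :
    EB S := by
  have : R = S := funext fun v => propext (hRS v)
  rwa [← this]

theorem QB.map {α β : Type} {R : (α → M) → Prop} (h : QB R) (f : α → β) :
    QB (fun v : β → M => R (fun a => v (f a))) := by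
  induction h with
  | lt s t => exact (QB.lt (s.map f) (t.map f)).congr (fun v => by simp only [Tm.eval_map])
  | eq s t => exact (QB.eq (s.map f) (t.map f)).congr (fun v => by simp only [Tm.eval_map])
  | not R h ih => exact QB.not _ ih
  | and R S h₁ h₂ ih₁ ih₂ => exact QB.and _ _ ih₁ ih₂
  | or R S h₁ h₂ ih₁ ih₂ => exact QB.or _ _ ih₁ ih₂

theorem EB.map {α β : Type} {R : (α → M) → Prop} (h : EB R) (f : α → β) :
    EB (fun v : β → M => R (fun a => v (f a))) := by
  induction h generalizing β with
  | qb R h => exact EB.qb _ (h.map f)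
  | @exB α t R h ih =>
      refine (EB.exB (t.map f) _ (ih (Option.map f))).congr (fun v => ?_)
      simp only [Tm.eval_map]
      refine exists_congr fun x => and_congr Iff.rfl ?_
      have hx : (fun o : Option α => (Option.map f o).elim x v) =
          fun o => o.elim x (fun a => v (f a)) := by
        funext o
        cases o <;> rfl
      rw [hx]

theorem QB.formula {α : Type} {R : (α → M) → Prop} (h : QB R) (n : ℕ) (ρ : α → Fin n) :
    ∃ φ : Fm n, φ.QFree ∧ ∀ v : Fin n → M, φ.sat v ↔ R (fun a => v (ρ a)) := by
  induction h with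
  | lt s t =>
      exact ⟨.lt (s.map ρ) (t.map ρ), trivial, fun v => by simp only [Fm.sat, Tm.eval_map]⟩
  | eq s t =>
      exact ⟨.eq (s.map ρ) (t.map ρ), trivial, fun v => by simp only [Fm.sat, Tm.eval_map]⟩
  | not R h ih =>
      obtain ⟨φ, h₁, h₂⟩ := ih
      exact ⟨.not φ, h₁, fun v => not_congr (h₂ v)⟩
  | and R S _ _ ih₁ ih₂ =>
      obtain ⟨φ, h₁, h₂⟩ := ih₁
      obtain ⟨ψ, h₃, h₄⟩ := ih₂
      exact ⟨.and φ ψ, ⟨h₁, h₃⟩, fun v => and_congr (h₂ v) (h₄ v)⟩
  | or R S _ _ ih₁ ih₂ =>
      obtain ⟨φ, h₁, h₂⟩ := ih₁
      obtain ⟨ψ, h₃, h₄⟩ := ih₂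
      exact ⟨.or φ ψ, ⟨h₁, h₃⟩, fun v => or_congr (h₂ v) (h₄ v)⟩

theorem EB.formula {α : Type} {R : (α → M) → Prop} (h : EB R) (n : ℕ) (ρ : α → Fin n) :
    ∃ φ : Fm n, E1 φ ∧ ∀ v : Fin n → M, φ.sat v ↔ R (fun a => v (ρ a)) := by
  induction h generalizing n with
  | qb R h =>
      obtain ⟨φ, h₁, h₂⟩ := h.formula n ρ
      exact ⟨φ, E1.qfree φ h₁, h₂⟩
  | @exB α t R h ih =>
      obtain ⟨φ, h₁, h₂⟩ := ih (n + 1) (fun o => o.elim 0 (fun a => (ρ a).succ))
      refine ⟨.exB (t.map ρ) φ, E1.exB _ _ h₁, fun v => ?_⟩
      simp only [Fm.sat, Tm.eval_map]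
      refine exists_congr fun x => and_congr Iff.rfl ?_
      rw [h₂]
      have hx : (fun o : Option α => (Fin.cons x v : Fin (n + 1) → M)
          (o.elim 0 (fun a => (ρ a).succ))) = fun o => o.elim x (fun a => v (ρ a)) := by
        funext o
        cases o <;> rfl
      rw [hx]

theorem EB.and {α : Type} {R S : (α → M) → Prop} (hR : EB R) (hS : QB S) :
    EB (fun v => R v ∧ S v) := by
  induction hR with
  | qb R h => exact EB.qb _ (QB.and _ _ h hS)
  | exB t R h ih =>
      refine (EB.exB t _ (ih (hS.map some))).congr (fun v => ?_)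
      constructor
      · rintro ⟨x, hx, h1, h2⟩
        exact ⟨⟨x, hx, h1⟩, h2⟩
      · rintro ⟨⟨x, hx, h1⟩, h2⟩
        exact ⟨x, hx, h1, h2⟩

theorem EB.exs {α γ : Type} [Finite γ] (t : Tm α) {R : (α ⊕ γ → M) → Prop} (h : EB R) :
    EB (fun v : α → M => ∃ y : γ → M, (∀ g, y g < t.eval v) ∧ R (Sum.elim v y)) := by
  have key : ∀ (l : ℕ) (α : Type) (t : Tm α) (R : (α ⊕ Fin l → M) → Prop), EB R →
      EB (fun v : α → M => ∃ y : Fin l → M, (∀ g, y g < t.eval v) ∧ R (Sum.elim v y)) := by
    intro l
    induction l with
    | zero =>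
        intro α t R h
        refine (h.map (Sum.elim id Fin.elim0 : α ⊕ Fin 0 → α)).congr (fun v => ?_)
        have hv : ∀ y : Fin 0 → M,
            (fun a : α ⊕ Fin 0 => v ((Sum.elim id Fin.elim0 : α ⊕ Fin 0 → α) a)) =
              Sum.elim v y := by
          intro y
          funext a
          rcases a with a | a
          · rfl
          · exact a.elim0
        constructor
        · intro h1
          exact ⟨Fin.elim0, fun g => g.elim0, by rw [← hv Fin.elim0]; exact h1⟩
        · rintro ⟨y, -, h1⟩
          rw [hv y]
          exact h1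
    | succ l ih =>
        intro α t R h
        let f : α ⊕ Fin (l + 1) → Option α ⊕ Fin l :=
          Sum.elim (fun a => Sum.inl (some a))
            (Fin.cons (Sum.inl none) (fun j => Sum.inr j) : Fin (l + 1) → Option α ⊕ Fin l)
        have hf : ∀ (v : α → M) (x : M) (y : Fin l → M),
            (fun a => Sum.elim (fun o : Option α => o.elim x v) y (f a)) =
              Sum.elim v (Fin.cons x y : Fin (l + 1) → M) := by
          intro v x y
          funext a
          rcases a with a | a
          · rfl
          · refine Fin.cases ?_ (fun j => ?_) a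
            · rfl
            · rfl
        refine (EB.exB t _ (ih (Option α) (t.map some) _ (h.map f))).congr (fun v => ?_)
        constructor
        · rintro ⟨x, hx, y, hy, h1⟩
          refine ⟨(Fin.cons x y : Fin (l + 1) → M), ?_, ?_⟩
          · intro g
            refine Fin.cases ?_ (fun j => ?_) g
            · exact hx
            · have := hy j
              rw [Tm.eval_map] at this
              exact this
          · rw [← hf v x y]
            exact h1
        · rintro ⟨y, hy, h1⟩
          refine ⟨y 0, hy 0, fun j => y j.succ, fun j => ?_, ?_⟩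
          · rw [Tm.eval_map]
            exact hy j.succ
          · have h2 := hf v (y 0) (fun j => y j.succ)
            have h3 : (Fin.cons (y 0) (fun j => y j.succ) : Fin (l + 1) → M) = y := by
              funext g
              refine Fin.cases ?_ (fun j => ?_) g
              · rfl
              · rfl
            rw [h3] at h2
            rw [h2]
            exact h1
  obtain ⟨l, ⟨e⟩⟩ := Finite.exists_equiv_fin γ
  refine (key l α t _ (h.map (Sum.map id e))).congr (fun v => ?_)
  constructor
  · rintro ⟨y, hy, h1⟩
    refine ⟨fun g => y (e g), fun g => hy (e g), ?_⟩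
    have h2 : (fun a : α ⊕ γ => Sum.elim v y (Sum.map id e a)) =
        Sum.elim v (fun g => y (e g)) := by
      funext a
      rcases a with a | a <;> rfl
    rw [h2] at h1
    exact h1
  · rintro ⟨y, hy, h1⟩
    refine ⟨fun g => y (e.symm g), fun g => hy _, ?_⟩
    have h2 : (fun a : α ⊕ γ => Sum.elim v (fun g => y (e.symm g)) (Sum.map id e a)) =
        Sum.elim v y := by
      funext a
      rcases a with a | a
      · rfl
      · show y (e.symm (e a)) = y a
        rw [e.symm_apply_apply]
    rw [h2]
    exact h1

end raw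

section model

variable {M : Type} [CommSemiring M] [LinearOrder M] [IsStrictOrderedRing M]

theorem QB.le {α : Type} (s t : Tm α) : QB (fun v : α → M => s.eval v ≤ t.eval v) := by
  exact (QB.not _ (QB.lt t s)).congr (fun v => not_lt)

theorem QB.allFin {α κ : Type} [Finite κ] (R : κ → (α → M) → Prop) (h : ∀ i, QB (R i)) :
    QB (fun v => ∀ i, R i v) := by
  revert R h
  refine Finite.induction_empty_option
    (P := fun κ : Type => ∀ (R : κ → (α → M) → Prop), (∀ i, QB (R i)) →
      QB (fun v => ∀ i, R i v)) ?_ ?_ ?_ κ
  · intro κ κ' e ih R hR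
    refine (ih (fun i => R (e i)) (fun i => hR _)).congr (fun v => ?_)
    constructor
    · intro h1 i
      have := h1 (e.symm i)
      rwa [e.apply_symm_apply] at this
    · intro h1 i
      exact h1 _
  · intro R hR
    refine (QB.eq (M := M) (Tm.zero : Tm α) Tm.zero).congr (fun v => ?_)
    constructor
    · intro _ i
      exact i.elim
    · intro _
      rfl
  · intro κ _ ih R hR
    refine (QB.and _ _ (hR none) (ih (fun i => R (some i)) (fun i => hR _))).congr (fun v => ?_)
    constructor
    · rintro ⟨h1, h2⟩ i
      cases i with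
      | none => exact h1
      | some i => exact h2 i
    · intro h1
      exact ⟨h1 none, fun i => h1 (some i)⟩

theorem QB.exFin {α κ : Type} [Finite κ] (R : κ → (α → M) → Prop) (h : ∀ i, QB (R i)) :
    QB (fun v => ∃ i, R i v) := by
  refine (QB.not _ (QB.allFin (fun i v => ¬ R i v) (fun i => QB.not _ (h i)))).congr
    (fun v => ?_)
  constructor
  · intro h1
    by_contra h2
    exact h1 (fun i hi => h2 ⟨i, hi⟩)
  · rintro ⟨i, hi⟩ h1
    exact h1 i hi

/-- The least number principle for bounded existential relations in IE₁. -/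
theorem EB.lnp (hM : ModelIE1 M) {β : Type} [Finite β] {R : (Option β → M) → Prop} (hR : EB R)
    (v : β → M) (h : ∃ x : M, R (fun o => o.elim x v)) :
    ∃ x : M, R (fun o => o.elim x v) ∧ ∀ y : M, y < x → ¬ R (fun o => o.elim y v) := by
  by_contra hcon
  have hcon' : ∀ x : M, R (fun o => o.elim x v) → ∃ y : M, y < x ∧ R (fun o => o.elim y v) := by
    intro x hx
    by_contra h1
    exact hcon ⟨x, hx, fun y hy h2 => h1 ⟨y, hy, h2⟩⟩
  obtain ⟨a, ha⟩ := h
  have hI := hM.iopen
  obtain ⟨m, ⟨e⟩⟩ := Finite.exists_equiv_fin β
  let f : Option β → Option (Option (Option β)) :=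
    fun o => o.elim none (fun b => some (some (some b)))
  have hS : EB (fun u : Option (Option β) → M => ∃ w : M,
      w < (Tm.add (.var (some none)) .one : Tm (Option (Option β))).eval u ∧
        ((fun z : Option (Option (Option β)) → M => R (fun o => z (f o)) ∧
          ((Tm.add (.var none) (.var (some none)) : Tm (Option (Option (Option β)))).eval z ≤
            (Tm.var (some (some none)) : Tm (Option (Option (Option β)))).eval z ∨
          (Tm.var (some (some none)) : Tm (Option (Option (Option β)))).eval z <
            (Tm.var (some none) : Tm (Option (Option (Option β)))).eval z))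
          (fun o => o.elim w u))) :=
    EB.exB _ _ ((hR.map f).and (QB.or _ _ (QB.le _ _) (QB.lt _ _)))
  obtain ⟨φ, hφ, hsat⟩ := hS.formula (m + 2)
    (fun o => o.elim 0 (fun o' => o'.elim 1 (fun b => (e b).succ.succ)))
  have key : ∀ x : M, φ.sat (Fin.cons x (Fin.cons a (fun i => v (e.symm i)) : Fin (m + 1) → M) :
      Fin (m + 2) → M) ↔
      ∃ w : M, w < a + 1 ∧ (R (fun o => o.elim w v) ∧ (w + x ≤ a ∨ a < x)) := by
    intro x
    rw [hsat]
    refine exists_congr fun w => and_congr Iff.rfl (and_congr ?_ Iff.rfl)
    have hx : (fun o : Option β => (f o).elim w (fun o : Option (Option β) =>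
        (Fin.cons x (Fin.cons a (fun i => v (e.symm i)) : Fin (m + 1) → M) : Fin (m + 2) → M)
          (o.elim 0 (fun o' => o'.elim 1 (fun b => (e b).succ.succ))))) =
        fun o => o.elim w v := by
      funext o
      cases o with
      | none => rfl
      | some b =>
          show v (e.symm (e b)) = v b
          rw [e.symm_apply_apply]
    show R (fun o : Option β => (f o).elim w (fun o : Option (Option β) =>
        (Fin.cons x (Fin.cons a (fun i => v (e.symm i)) : Fin (m + 1) → M) : Fin (m + 2) → M)
          (o.elim 0 (fun o' => o'.elim 1 (fun b => (e b).succ.succ))))) ↔ _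
    rw [hx]
  have hall := hM.ind (m + 1) φ hφ (Fin.cons a (fun i => v (e.symm i)) : Fin (m + 1) → M) ?_ ?_ a
  · rw [key] at hall
    obtain ⟨w, -, hw, hw2⟩ := hall
    rcases hw2 with hw2 | hw2
    · obtain ⟨y, hy, -⟩ := hcon' w hw
      have h1 : 0 < w := lt_of_le_of_lt (nonneg hI y) hy
      have h2 : a < w + a := lt_add_of_pos_left a h1
      exact absurd h2 (not_lt.2 hw2)
    · exact lt_irrefl _ hw2
  · rw [key]
    exact ⟨a, lt_add_one' a, ha, Or.inl (by rw [add_zero])⟩
  · intro x hx
    rw [key] at hx ⊢
    obtain ⟨w, hw0, hw, hw2⟩ := hx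
    rcases lt_or_ge a (x + 1) with h1 | h1
    · exact ⟨w, hw0, hw, Or.inr h1⟩
    · rcases hw2 with hw2 | hw2
      · obtain ⟨y, hy, hy2⟩ := hcon' w hw
        refine ⟨y, lt_trans hy hw0, hy2, Or.inl ?_⟩
        calc y + (x + 1) = (y + 1) + x := by ring
          _ ≤ w + x := add_le_add (add_one_le hI hy) le_rfl
          _ ≤ a := hw2
      · exact absurd (lt_trans hw2 (lt_add_one' x)) (not_lt.2 h1)

end model

end Pool.Agent.Lib.P28F
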