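import Mathlib

/-!
# Module P28F.Farkas: Farkas' lemma over an ordered field

PROOF (Fourier-Motzkin), induction on `k`, for all ι at once. `k = 0`: the system is
`∀ i, 0 ≤ b i`; if it fails at i, take y = Pi.single i 1.
Step k → k + 1 (the variable with index 0 is eliminated): let
P = {i | A i 0 > 0}, N = {i | A i 0 < 0}, O = {i | A i 0 = 0} and consider the new system with
index type `{i // A i 0 = 0} ⊕ ({i // 0 < A i 0} × {i // A i 0 < 0})` and variables
`Fin k`: rows `A i ∘ succ`, right side `b i` for i ∈ O, and for (p, q) ∈ P × N the row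
`A p 0 • A q (succ ·) - A q 0 • A p (succ ·)` (nonnegative combination: A p 0 > 0, -A q 0 > 0),
right side `A p 0 * b q - A q 0 * b p`.
If the new system has a solution z then the old one has a solution `Fin.cons t z`: for p ∈ P the
condition is t ≤ (b p - ∑ ..)/A p 0 =: U p, for q ∈ N it is t ≥ (b q - ∑ ..)/A q 0 =: L q, and
L q ≤ U p for all p, q by the new inequalities; take t = the maximum of the L q if N is nonempty
(`Finset.exists_max_image`), the minimum of the U p if N is empty and P is not, 0 if both are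
empty. Otherwise the induction hypothesis gives y' ≥ 0 on the new index type; put
y i = y'(i) for i ∈ O, y p = ∑_q y'(p, q) * (-A q 0) for p ∈ P, y q = ∑_p y'(p, q) * A p 0 for
q ∈ N. Then y ≥ 0, the columns l.succ vanish and y ⬝ b < 0 since they equal the ones of the new
system, and the column 0 is ∑_{p,q} y'(p,q) (-A q 0 * A p 0 + A p 0 * A q 0) = 0.
(Alternative: separate the family by the nonnegative combinations as a linear map
`y' ↦ y' ᵥ* C` with a nonnegative matrix C, new matrix = C * A, new right side = C *ᵥ b, with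
(C * A) _ 0 = 0; then y = y' ᵥ* C works by associativity: y ᵥ* A = y' ᵥ* (C * A). This is the
shortest way in Lean.)
-/

set_option autoImplicit false

namespace Pool.Agent.Lib.P28F

open Matrix

namespace FarkasAux

variable {K : Type} [Field K] [LinearOrder K] [IsStrictOrderedRing K]

/-- choice of the eliminated variable -/
theorem choose_t {ι : Type} [Fintype ι] (a r : ι → K)
    (h0 : ∀ i, a i = 0 → 0 ≤ r i)
    (h1 : ∀ p q, 0 < a p → a q < 0 → 0 ≤ (-a q) * r p + a p * r q) :
    ∃ t : K, ∀ i, a i * t ≤ r i := by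
  classical
  by_cases hN : ∃ q, a q < 0
  · obtain ⟨q0, hq0⟩ := hN
    obtain ⟨q, hq, hmax⟩ := Finset.exists_max_image (Finset.univ.filter (fun i => a i < 0))
      (fun i => r i / a i) ⟨q0, by simpa using hq0⟩
    have hq' : a q < 0 := by simpa using hq
    refine ⟨r q / a q, fun i => ?_⟩
    rcases lt_trichotomy (a i) 0 with hi | hi | hi
    · have h2 := hmax i (by simpa using hi)
      have h3 : a i * (r q / a q) ≤ a i * (r i / a i) :=
        mul_le_mul_of_nonpos_left h2 hi.le
      rwa [mul_div_cancel₀ _ hi.ne] at h3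
    · rw [hi, zero_mul]; exact h0 i hi
    · have h2 := h1 i q hi hq'
      have hq2 : 0 < -a q := by linarith
      have h3 : a i * (r q / a q) = - ((a i * r q) / (-a q)) := by
        rw [div_neg, neg_neg, mul_div_assoc]
      rw [h3]
      have h4 : -(r i) ≤ (a i * r q) / (-a q) := by
        rw [le_div_iff₀ hq2]
        nlinarith [h2]
      linarith
  · have hN' : ∀ i, 0 ≤ a i := fun i => by
      by_contra hh
      exact hN ⟨i, not_le.1 hh⟩
    by_cases hP : ∃ p, 0 < a p
    · obtain ⟨p0, hp0⟩ := hP
      obtain ⟨p, hp, hmin⟩ := Finset.exists_min_image (Finset.univ.filter (fun i => 0 < a i))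
        (fun i => r i / a i) ⟨p0, by simpa using hp0⟩
      refine ⟨r p / a p, fun i => ?_⟩
      rcases (hN' i).eq_or_lt with hi | hi
      · rw [← hi, zero_mul]; exact h0 i hi.symm
      · have h2 := hmin i (by simpa using hi)
        have h3 : a i * (r p / a p) ≤ a i * (r i / a i) :=
          mul_le_mul_of_nonneg_left h2 hi.le
        rwa [mul_div_cancel₀ _ hi.ne'] at h3
    · refine ⟨0, fun i => ?_⟩
      have hi : a i = 0 := le_antisymm (by by_contra hh; exact hP ⟨i, not_le.1 hh⟩) (hN' i)
      rw [mul_zero]; exact h0 i hi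

end FarkasAux

theorem farkas {K : Type} [Field K] [LinearOrder K] [IsStrictOrderedRing K] (k : ℕ) (ι : Type)
    [Fintype ι] (A : Matrix ι (Fin k) K) (b : ι → K)
    (h : ¬ ∃ z : Fin k → K, A *ᵥ z ≤ b) :
    ∃ y : ι → K, 0 ≤ y ∧ y ᵥ* A = 0 ∧ y ⬝ᵥ b < 0 := by
  classical
  induction k generalizing ι with
  | zero =>
    have h1 : ∃ i, b i < 0 := by
      by_contra hh
      push Not at hh
      apply h
      refine ⟨0, fun i => ?_⟩
      have : (A *ᵥ (0 : Fin 0 → K)) i = 0 := by simp
      rw [this]; exact hh i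
    obtain ⟨i, hi⟩ := h1
    refine ⟨Pi.single i 1, Pi.single_nonneg.2 zero_le_one, ?_, ?_⟩
    · funext l; exact l.elim0
    · simpa using hi
  | succ k ih =>
    let J : Type := {i // A i 0 = 0} ⊕ ({i // 0 < A i 0} × {i // A i 0 < 0})
    let C : Matrix J ι K := fun j => Sum.elim (fun o => Pi.single o.1 1)
      (fun pq => (-A pq.2.1 0) • Pi.single pq.1.1 1 + (A pq.1.1 0) • Pi.single pq.2.1 1) j
    have hCnn : ∀ j i, 0 ≤ C j i := by
      rintro (o | ⟨p, q⟩) i
      · exact (Pi.single_nonneg.2 zero_le_one : (0 : ι → K) ≤ Pi.single o.1 1) i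
      · have e1 : (0 : K) ≤ (Pi.single p.1 (1 : K) : ι → K) i :=
          (Pi.single_nonneg.2 zero_le_one : (0 : ι → K) ≤ Pi.single p.1 1) i
        have e2 : (0 : K) ≤ (Pi.single q.1 (1 : K) : ι → K) i :=
          (Pi.single_nonneg.2 zero_le_one : (0 : ι → K) ≤ Pi.single q.1 1) i
        have e3 : 0 ≤ -A q.1 0 := by have := q.2; linarith
        have e4 : 0 ≤ A p.1 0 := p.2.le
        change 0 ≤ (-A q.1 0) * (Pi.single p.1 (1 : K) : ι → K) i
          + (A p.1 0) * (Pi.single q.1 (1 : K) : ι → K) i
        exact add_nonneg (mul_nonneg e3 e1) (mul_nonneg e4 e2)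
    have hCo : ∀ (v : ι → K) (o : {i // A i 0 = 0}), (C *ᵥ v) (Sum.inl o) = v o.1 := by
      intro v o
      change (Pi.single o.1 (1 : K) : ι → K) ⬝ᵥ v = v o.1
      simp
    have hCp : ∀ (v : ι → K) (pq : {i // 0 < A i 0} × {i // A i 0 < 0}),
        (C *ᵥ v) (Sum.inr pq) = (-A pq.2.1 0) * v pq.1.1 + A pq.1.1 0 * v pq.2.1 := by
      intro v pq
      change ((-A pq.2.1 0) • (Pi.single pq.1.1 (1 : K) : ι → K)
        + (A pq.1.1 0) • (Pi.single pq.2.1 (1 : K) : ι → K)) ⬝ᵥ v = _
      simp [add_dotProduct, smul_dotProduct]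
    let A' : Matrix J (Fin k) K := fun j l => (C * A) j l.succ
    let b' : J → K := C *ᵥ b
    have hA' : ∀ z : Fin k → K, A' *ᵥ z = C *ᵥ (fun i => ∑ l, A i l.succ * z l) := by
      intro z
      funext j
      simp only [A', Matrix.mulVec, dotProduct, Matrix.mul_apply, Finset.sum_mul, Finset.mul_sum]
      rw [Finset.sum_comm]
      exact Finset.sum_congr rfl fun i _ => Finset.sum_congr rfl fun l _ => by ring
    have hno : ¬ ∃ z : Fin k → K, A' *ᵥ z ≤ b' := by
      rintro ⟨z, hz⟩
      rw [hA' z] at hz
      obtain ⟨t, ht⟩ := FarkasAux.choose_t (fun i => A i 0)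
        (fun i => b i - ∑ l, A i l.succ * z l)
        (fun i hi => by
          have := hz (Sum.inl ⟨i, hi⟩)
          simp only [b'] at this
          rw [hCo, hCo] at this
          simp only at this
          linarith)
        (fun p q hp hq => by
          have := hz (Sum.inr (⟨p, hp⟩, ⟨q, hq⟩))
          simp only [b'] at this
          rw [hCp, hCp] at this
          simp only at this
          linarith)
      apply h
      refine ⟨Fin.cons t z, fun i => ?_⟩
      have e : (A *ᵥ (Fin.cons t z : Fin (k + 1) → K)) i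
          = A i 0 * t + ∑ l, A i l.succ * z l := by
        change (∑ j, A i j * (Fin.cons t z : Fin (k + 1) → K) j) = _
        rw [Fin.sum_univ_succ, Fin.cons_zero]
        simp only [Fin.cons_succ]
      rw [e]
      have h5 : A i 0 * t ≤ b i - ∑ l, A i l.succ * z l := ht i
      linarith
    obtain ⟨y', hy0, hyA, hyb⟩ := ih J A' b' hno
    refine ⟨y' ᵥ* C, ?_, ?_, ?_⟩
    · intro i
      exact Finset.sum_nonneg fun j _ => mul_nonneg (hy0 j) (hCnn j i)
    · rw [Matrix.vecMul_vecMul]
      funext l
      refine Fin.cases ?_ (fun l => ?_) l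
      · have hz : ∀ j, (C * A) j 0 = 0 := by
          intro j
          have e1 : (C * A) j 0 = (C *ᵥ (fun i => A i 0)) j := by
            simp [Matrix.mul_apply, Matrix.mulVec, dotProduct]
          rw [e1]
          rcases j with o | pq
          · rw [hCo]; exact o.2
          · rw [hCp]; ring
        simp [Matrix.vecMul, dotProduct, hz]
      · have := congrFun hyA l
        exact this
    · rw [← Matrix.dotProduct_mulVec]
      exact hyb

end Pool.Agent.Lib.P28F
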