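import Pool.Agent.Lib.P28F.Farkas
import Pool.Agent.Lib.P28F.Defs

/-!
# Module P28F.FarkasZ: integral multipliers in Farkas' lemma

PROOFS. `farkasZ`: apply `farkas` to `A.map c`, `c ∘ b`; the multipliers y ∈ K^ι, y ≥ 0, have a
common denominator: there are D > 0 in Z and y' : ι → Z with y i * c D = c (y' i) (`hI.frac` for
each i, D = product of the denominators over `Finset.univ`). c is injective and monotone
(`hI.inj`, `hI.le_iff`, `hI.lt_iff`), so y' ≥ 0, c ((y' ᵥ* A) l) = (y ᵥ* A.map c) l * c D = 0 and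
c (y' ⬝ b) = (y ⬝ (c ∘ b)) * c D < 0.
`farkas_upper`: the system with index type `Option ι`, rows A and the row -e₀ with right side
-(h + 1)... i.e. `A z ≤ b, -z 0 ≤ -t`, has no solution over K when every solution of A z ≤ b has
z 0 < c t. By `farkasZ` there are y ≥ 0 and s ≥ 0 (the multiplier of the extra row) with
y ᵥ* A - s e₀ = 0 and y ⬝ b - s t < 0.
`farkas_lower`: the same with the row e₀ and right side t: y ᵥ* A + s e₀ = 0, y ⬝ b + s t < 0.
-/

set_option autoImplicit false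

namespace Pool.Agent.Lib.P28F

open Matrix

section

variable {Z K : Type} [CommRing Z] [LinearOrder Z] [IsStrictOrderedRing Z]
  [Field K] [LinearOrder K] [IsStrictOrderedRing K] {c : Z →+* K}

theorem farkasZ (hI : IntPart c) {k : ℕ} {ι : Type} [Fintype ι] (A : Matrix ι (Fin k) Z)
    (b : ι → Z) (h : ¬ ∃ z : Fin k → K, A.map c *ᵥ z ≤ c ∘ b) :
    ∃ y : ι → Z, 0 ≤ y ∧ y ᵥ* A = 0 ∧ y ⬝ᵥ b < 0 := by
  classical
  obtain ⟨y, hy0, hyA, hyb⟩ := farkas k ι (A.map c) (c ∘ b) h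
  choose a d hd hyd using fun i => hI.frac (y i)
  obtain ⟨D, hDdef⟩ : ∃ D : Z, D = ∏ i, d i := ⟨_, rfl⟩
  have hD : 0 < D := by
    rw [hDdef]
    exact Finset.prod_pos fun i _ => hd i
  have hcD : (0 : K) < c D := by
    have := hI.lt 0 D hD
    rwa [map_zero] at this
  obtain ⟨y', hy'⟩ : ∃ y' : ι → Z, ∀ i, c (y' i) = y i * c D := by
    refine ⟨fun i => a i * ∏ j ∈ Finset.univ.erase i, d j, fun i => ?_⟩
    rw [map_mul, ← hyd i, mul_assoc, ← map_mul, Finset.mul_prod_erase _ _ (Finset.mem_univ i),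
      hDdef]
  have key : ∀ B : ι → Z, c (∑ i, y' i * B i) = (∑ i, y i * c (B i)) * c D := by
    intro B
    rw [map_sum, Finset.sum_mul]
    refine Finset.sum_congr rfl fun i _ => ?_
    rw [map_mul, hy']
    ring
  refine ⟨y', ?_, ?_, ?_⟩
  · intro i
    have h1 : c 0 ≤ c (y' i) := by
      rw [map_zero, hy']
      exact mul_nonneg (hy0 i) hcD.le
    exact hI.le_iff.1 h1
  · funext l
    have h1 : c ((y' ᵥ* A) l) = c 0 := by
      have h2 := congrFun hyA l
      simp only [Matrix.vecMul, dotProduct, Matrix.map_apply, Pi.zero_apply] at h2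
      simp only [Matrix.vecMul, dotProduct]
      rw [key, h2, zero_mul, map_zero]
    exact hI.inj.1 h1
  · have h1 : c (y' ⬝ᵥ b) < c 0 := by
      simp only [dotProduct, Function.comp_apply] at hyb
      simp only [dotProduct]
      rw [key, map_zero]
      exact mul_neg_of_neg_of_pos hyb hcD
    exact hI.lt_iff.1 h1

namespace FarkasZ

/-- The system with one additional row. -/
def extA {k : ℕ} {ι : Type} (A : Matrix ι (Fin k) Z) (r : Fin k → Z) :
    Matrix (Option ι) (Fin k) Z :=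
  fun o => o.elim r A

/-- The right side with one additional entry. -/
def extb {ι : Type} (b : ι → Z) (t : Z) : Option ι → Z :=
  fun o => o.elim t b

theorem ext (hI : IntPart c) {k : ℕ} {ι : Type} [Fintype ι] (A : Matrix ι (Fin k) Z)
    (b : ι → Z) (r : Fin k → Z) (t : Z)
    (h : ¬ ∃ z : Fin k → K, A.map c *ᵥ z ≤ c ∘ b ∧ (c ∘ r) ⬝ᵥ z ≤ c t) :
    ∃ (y : ι → Z) (s : Z), 0 ≤ y ∧ 0 ≤ s ∧ y ᵥ* A = - (s • r) ∧ y ⬝ᵥ b < - (s * t) := by
  have h' : ¬ ∃ z : Fin k → K, (extA A r).map c *ᵥ z ≤ c ∘ extb b t := by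
    rintro ⟨z, hz⟩
    refine h ⟨z, fun i => ?_, ?_⟩
    · exact hz (some i)
    · exact hz none
  obtain ⟨y, hy0, hyA, hyb⟩ := farkasZ hI (extA A r) (extb b t) h'
  refine ⟨fun i => y (some i), y none, fun i => hy0 (some i), hy0 none, ?_, ?_⟩
  · funext l
    have h2 := congrFun hyA l
    simp only [Matrix.vecMul, dotProduct, Pi.zero_apply, Fintype.sum_option, extA,
      Option.elim_none, Option.elim_some] at h2
    simp only [Matrix.vecMul, dotProduct, Pi.neg_apply, Pi.smul_apply, smul_eq_mul]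
    linarith
  · simp only [dotProduct, Fintype.sum_option, extb, Option.elim_none, Option.elim_some] at hyb
    simp only [dotProduct]
    linarith

end FarkasZ

theorem farkas_upper (hI : IntPart c) {k : ℕ} {ι : Type} [Fintype ι]
    (A : Matrix ι (Fin (k + 1)) Z) (b : ι → Z) (t : Z)
    (h : ∀ z : Fin (k + 1) → K, A.map c *ᵥ z ≤ c ∘ b → z 0 < c t) :
    ∃ (y : ι → Z) (s : Z), 0 ≤ y ∧ 0 ≤ s ∧ y ᵥ* A = Pi.single 0 s ∧ y ⬝ᵥ b < s * t := by
  obtain ⟨y, s, hy, hs, hA, hb⟩ := FarkasZ.ext hI A b (Pi.single 0 (-1)) (-t) (by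
    rintro ⟨z, hz, hz0⟩
    have h1 := h z hz
    have h2 : (c ∘ (Pi.single 0 (-1) : Fin (k + 1) → Z)) ⬝ᵥ z = - z 0 := by
      have h3 : c ∘ (Pi.single 0 (-1) : Fin (k + 1) → Z) = Pi.single 0 (-1 : K) := by
        funext l
        by_cases hl : l = 0
        · subst hl; simp
        · simp [hl]
      rw [h3, single_dotProduct]
      ring
    rw [h2, map_neg] at hz0
    linarith)
  refine ⟨y, s, hy, hs, ?_, ?_⟩
  · rw [hA]
    funext l
    by_cases hl : l = 0
    · subst hl; simp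
    · simp [hl]
  · linarith

theorem farkas_lower (hI : IntPart c) {k : ℕ} {ι : Type} [Fintype ι]
    (A : Matrix ι (Fin (k + 1)) Z) (b : ι → Z) (t : Z)
    (h : ∀ z : Fin (k + 1) → K, A.map c *ᵥ z ≤ c ∘ b → c t < z 0) :
    ∃ (y : ι → Z) (s : Z), 0 ≤ y ∧ 0 ≤ s ∧ y ᵥ* A = Pi.single 0 (-s) ∧ y ⬝ᵥ b < -s * t := by
  obtain ⟨y, s, hy, hs, hA, hb⟩ := FarkasZ.ext hI A b (Pi.single 0 1) t (by
    rintro ⟨z, hz, hz0⟩
    have h1 := h z hz
    have h2 : (c ∘ (Pi.single 0 1 : Fin (k + 1) → Z)) ⬝ᵥ z = z 0 := by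
      have h3 : c ∘ (Pi.single 0 1 : Fin (k + 1) → Z) = Pi.single 0 (1 : K) := by
        funext l
        by_cases hl : l = 0
        · subst hl; simp
        · simp [hl]
      rw [h3, single_dotProduct]
      ring
    rw [h2] at hz0
    linarith)
  refine ⟨y, s, hy, hs, ?_, ?_⟩
  · rw [hA]
    funext l
    by_cases hl : l = 0
    · subst hl; simp
    · simp [hl]
  · linarith

end

end Pool.Agent.Lib.P28F
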