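import Pool.Agent.Lib.P28F.Farkas

/-!
# Module P28F.LPmax: a bounded linear function attains its maximum on a polyhedron

PROOF. Let z₀ be feasible. Consider the system in the variables (z, y) ∈ K^k × K^ι
(index type of the variables `Fin k ⊕ ι`, moved to a `Fin` by an equivalence to apply `farkas`):
A z ≤ b; -y ≤ 0; y ᵥ* A ≤ d; -(y ᵥ* A) ≤ -d; y ⬝ b - d ⬝ z ≤ 0.
If (z, y) is a solution then z is feasible and for every feasible w:
d ⬝ w = (y ᵥ* A) ⬝ w = y ⬝ (A w) ≤ y ⬝ b ≤ d ⬝ z. Done.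
If there is no solution, `farkas` gives multipliers u ≥ 0 (for A z ≤ b), v ≥ 0 (for -y ≤ 0),
w⁺, w⁻ ≥ 0 (w = w⁺ - w⁻, a vector in K^k), τ ≥ 0 with
column z: u ᵥ* A - τ d = 0; column y: -v + A w + τ b = 0, so A w + τ b = v ≥ 0, that is
A (-w) ≤ τ b; right side: u ⬝ b + w ⬝ d < 0.
Case τ > 0: x = -w/τ is feasible, μ = u/τ ≥ 0, μ ᵥ* A = d, so
d ⬝ x = μ ⬝ (A x) ≤ μ ⬝ b, i.e. -(d ⬝ w) ≤ u ⬝ b, contradiction to u ⬝ b + w ⬝ d < 0.
Case τ = 0: u ᵥ* A = 0, A (-w) ≤ 0. u ⬝ b ≥ u ⬝ (A z₀) = 0. So w ⬝ d < 0, d ⬝ (-w) > 0, and for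
all s ≥ 0 the point z₀ + s (-w) is feasible with d ⬝ (z₀ - s w) = d ⬝ z₀ + s (d ⬝ (-w)), which
exceeds D for s = (D - d ⬝ z₀ + 1)/(d ⬝ (-w)) (nonnegative since d ⬝ z₀ ≤ D). Contradiction to
`hD`.
-/

set_option autoImplicit false

namespace Pool.Agent.Lib.P28F

open Matrix

namespace LPmaxAux

/-- Farkas with variables indexed by an arbitrary finite type. -/
theorem farkas' {K : Type} [Field K] [LinearOrder K] [IsStrictOrderedRing K] {κ : Type}
    [Fintype κ] {ι : Type} [Fintype ι] (A : Matrix ι κ K) (b : ι → K)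
    (h : ¬ ∃ z : κ → K, A *ᵥ z ≤ b) :
    ∃ y : ι → K, 0 ≤ y ∧ y ᵥ* A = 0 ∧ y ⬝ᵥ b < 0 := by
  classical
  let e : κ ≃ Fin (Fintype.card κ) := Fintype.equivFin κ
  have h' : ¬ ∃ z : Fin (Fintype.card κ) → K, (A.submatrix id e.symm) *ᵥ z ≤ b := by
    rintro ⟨z, hz⟩
    refine h ⟨fun x => z (e x), fun i => ?_⟩
    have h1 := hz i
    simp only [mulVec, dotProduct, submatrix_apply, id_eq] at h1 ⊢
    rw [← Equiv.sum_comp e] at h1
    simpa using h1
  obtain ⟨y, hy0, hy1, hy2⟩ := farkas _ ι _ b h'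
  refine ⟨y, hy0, ?_, hy2⟩
  funext x
  have h1 := congrFun hy1 (e x)
  simpa [vecMul, dotProduct] using h1

/-- The matrix of the primal-dual system. -/
def M {K : Type} [Field K] {k : ℕ} {ι : Type} [DecidableEq ι] (A : Matrix ι (Fin k) K) (b : ι → K)
    (d : Fin k → K) : Matrix (ι ⊕ (ι ⊕ (Fin k ⊕ (Fin k ⊕ Unit)))) (Fin k ⊕ ι) K :=
  Sum.elim (fun i => Sum.elim (A i) 0)
    (Sum.elim (fun i => Sum.elim 0 (-Pi.single i 1))
      (Sum.elim (fun l => Sum.elim 0 (fun i => A i l))
        (Sum.elim (fun l => Sum.elim 0 (fun i => -A i l))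
          (fun _ => Sum.elim (-d) b))))

/-- The right side of the primal-dual system. -/
def rhs {K : Type} [Field K] {k : ℕ} {ι : Type} (b : ι → K)
    (d : Fin k → K) : (ι ⊕ (ι ⊕ (Fin k ⊕ (Fin k ⊕ Unit)))) → K :=
  Sum.elim b (Sum.elim 0 (Sum.elim d (Sum.elim (-d) 0)))

end LPmaxAux

theorem exists_max {K : Type} [Field K] [LinearOrder K] [IsStrictOrderedRing K] {k : ℕ}
    {ι : Type} [Fintype ι] (A : Matrix ι (Fin k) K) (b : ι → K) (d : Fin k → K) (D : K)
    (hne : ∃ z : Fin k → K, A *ᵥ z ≤ b) (hD : ∀ z : Fin k → K, A *ᵥ z ≤ b → d ⬝ᵥ z ≤ D) :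
    ∃ z : Fin k → K, A *ᵥ z ≤ b ∧ ∀ w : Fin k → K, A *ᵥ w ≤ b → d ⬝ᵥ w ≤ d ⬝ᵥ z := by
  classical
  obtain ⟨z₀, hz₀⟩ := hne
  by_cases hsol : ∃ v : (Fin k ⊕ ι) → K, LPmaxAux.M A b d *ᵥ v ≤ LPmaxAux.rhs b d
  · obtain ⟨v, hv⟩ := hsol
    refine ⟨fun l => v (Sum.inl l), ?_, ?_⟩
    · intro i
      have h1 := hv (Sum.inl i)
      simpa [LPmaxAux.M, LPmaxAux.rhs, mulVec, dotProduct, Fintype.sum_sum_type] using h1
    · intro w hw
      set y : ι → K := fun i => v (Sum.inr i) with hy
      have hy0 : ∀ i, 0 ≤ y i := by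
        intro i
        have h1 := hv (Sum.inr (Sum.inl i))
        simp [LPmaxAux.M, LPmaxAux.rhs, mulVec, dotProduct, Fintype.sum_sum_type,
          Pi.single_apply] at h1
        exact h1
      have h2 : ∀ l, ∑ i, A i l * y i ≤ d l := by
        intro l
        have h1 := hv (Sum.inr (Sum.inr (Sum.inl l)))
        simpa [LPmaxAux.M, LPmaxAux.rhs, mulVec, dotProduct, Fintype.sum_sum_type] using h1
      have h3 : ∀ l, d l ≤ ∑ i, A i l * y i := by
        intro l
        have h1 := hv (Sum.inr (Sum.inr (Sum.inr (Sum.inl l))))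
        simpa [LPmaxAux.M, LPmaxAux.rhs, mulVec, dotProduct, Fintype.sum_sum_type,
          Finset.sum_neg_distrib] using h1
      have h4 : ∑ i, b i * y i ≤ ∑ l, d l * v (Sum.inl l) := by
        have h1 := hv (Sum.inr (Sum.inr (Sum.inr (Sum.inr ()))))
        simp [LPmaxAux.M, LPmaxAux.rhs, mulVec, dotProduct, Fintype.sum_sum_type,
          Finset.sum_neg_distrib] at h1
        linarith
      have hd : ∀ l, d l = ∑ i, A i l * y i := fun l => le_antisymm (h3 l) (h2 l)
      calc d ⬝ᵥ w = ∑ l, (∑ i, A i l * y i) * w l := by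
            simp only [dotProduct]
            exact Finset.sum_congr rfl fun l _ => by rw [← hd l]
        _ = ∑ i, (∑ l, A i l * w l) * y i := by
            simp only [Finset.sum_mul]
            rw [Finset.sum_comm]
            exact Finset.sum_congr rfl fun i _ => Finset.sum_congr rfl fun l _ => by ring
        _ ≤ ∑ i, b i * y i := by
            refine Finset.sum_le_sum fun i _ => ?_
            exact mul_le_mul_of_nonneg_right (hw i) (hy0 i)
        _ ≤ _ := h4
  · exfalso
    obtain ⟨m, hm0, hm1, hm2⟩ := LPmaxAux.farkas' _ _ hsol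
    set u : ι → K := fun i => m (Sum.inl i) with hu
    set τ : K := m (Sum.inr (Sum.inr (Sum.inr (Sum.inr ())))) with hτ
    set w : Fin k → K := fun l => m (Sum.inr (Sum.inr (Sum.inl l))) -
      m (Sum.inr (Sum.inr (Sum.inr (Sum.inl l)))) with hw
    have hu0 : ∀ i, 0 ≤ u i := fun i => hm0 _
    have hτ0 : 0 ≤ τ := hm0 _
    -- column z
    have hcz : ∀ l, ∑ i, u i * A i l = τ * d l := by
      intro l
      have h1 := congrFun hm1 (Sum.inl l)
      simp [LPmaxAux.M, vecMul, dotProduct, Fintype.sum_sum_type] at h1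
      linarith
    have hcy : ∀ i, 0 ≤ ∑ l, A i l * w l + τ * b i := by
      intro i
      have h1 := congrFun hm1 (Sum.inr i)
      have h0 : 0 ≤ m (Sum.inr (Sum.inl i)) := hm0 _
      simp [LPmaxAux.M, vecMul, dotProduct, Fintype.sum_sum_type, Pi.single_apply] at h1
      have h2 : ∑ l, A i l * w l = ∑ l, m (Sum.inr (Sum.inr (Sum.inl l))) * A i l -
          ∑ l, m (Sum.inr (Sum.inr (Sum.inr (Sum.inl l)))) * A i l := by
        rw [← Finset.sum_sub_distrib]
        exact Finset.sum_congr rfl fun l _ => by simp only [hw]; ring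
      rw [h2]
      linarith
    have hr : ∑ i, u i * b i + ∑ l, w l * d l < 0 := by
      have h1 := hm2
      simp [LPmaxAux.rhs, dotProduct, Fintype.sum_sum_type] at h1
      have h2 : ∑ l, w l * d l = ∑ l, m (Sum.inr (Sum.inr (Sum.inl l))) * d l -
          ∑ l, m (Sum.inr (Sum.inr (Sum.inr (Sum.inl l)))) * d l := by
        rw [← Finset.sum_sub_distrib]
        exact Finset.sum_congr rfl fun l _ => by simp only [hw]; ring
      rw [h2]
      linarith
    rcases hτ0.lt_or_eq with hpos | hzero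
    · -- τ > 0
      have h1 : ∑ l, w l * (τ * d l) = ∑ i, u i * ∑ l, A i l * w l := by
        simp only [Finset.mul_sum]
        rw [Finset.sum_comm]
        refine Finset.sum_congr rfl fun l _ => ?_
        rw [← hcz l, Finset.mul_sum]
        exact Finset.sum_congr rfl fun i _ => by ring
      have h2 : 0 ≤ ∑ i, u i * (∑ l, A i l * w l + τ * b i) :=
        Finset.sum_nonneg fun i _ => mul_nonneg (hu0 i) (hcy i)
      have h3 : ∑ i, u i * (∑ l, A i l * w l + τ * b i) =
          τ * (∑ i, u i * b i + ∑ l, w l * d l) := by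
        have e1 : ∑ l, w l * (τ * d l) = τ * ∑ l, w l * d l := by
          rw [Finset.mul_sum]; exact Finset.sum_congr rfl fun l _ => by ring
        rw [mul_add, ← e1, h1, Finset.mul_sum, ← Finset.sum_add_distrib]
        exact Finset.sum_congr rfl fun i _ => by ring
      rw [h3] at h2
      have := mul_neg_of_pos_of_neg hpos hr
      linarith
    · -- τ = 0
      have hτ' : τ = 0 := hzero.symm
      have h1 : ∀ l, ∑ i, u i * A i l = 0 := by
        intro l; rw [hcz l, hτ']; ring
      have h2 : ∀ i, 0 ≤ ∑ l, A i l * w l := by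
        intro i
        have := hcy i
        rw [hτ'] at this
        linarith
      have h3 : 0 ≤ ∑ i, u i * b i := by
        have e1 : ∑ i, u i * (A *ᵥ z₀) i = 0 := by
          simp only [mulVec, dotProduct, Finset.mul_sum]
          rw [Finset.sum_comm]
          refine Finset.sum_eq_zero fun l _ => ?_
          have : ∑ i, u i * (A i l * z₀ l) = (∑ i, u i * A i l) * z₀ l := by
            rw [Finset.sum_mul]; exact Finset.sum_congr rfl fun i _ => by ring
          rw [this, h1 l, zero_mul]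
        rw [← e1]
        exact Finset.sum_le_sum fun i _ => mul_le_mul_of_nonneg_left (hz₀ i) (hu0 i)
      have h4 : ∑ l, w l * d l < 0 := by linarith
      set g : K := -∑ l, w l * d l with hg
      have hg0 : 0 < g := by rw [hg]; linarith
      set s : K := (D - d ⬝ᵥ z₀ + 1) / g with hs
      have hD0 := hD z₀ hz₀
      have hs0 : 0 ≤ s := div_nonneg (by linarith) hg0.le
      have hfeas : A *ᵥ (fun l => z₀ l - s * w l) ≤ b := by
        intro i
        have e : (A *ᵥ (fun l => z₀ l - s * w l)) i = (A *ᵥ z₀) i - s * ∑ l, A i l * w l := by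
          simp only [mulVec, dotProduct]
          rw [Finset.mul_sum, ← Finset.sum_sub_distrib]
          exact Finset.sum_congr rfl fun l _ => by ring
        rw [e]
        have := hz₀ i
        have := mul_nonneg hs0 (h2 i)
        linarith
      have h5 := hD _ hfeas
      have e2 : d ⬝ᵥ (fun l => z₀ l - s * w l) = d ⬝ᵥ z₀ + s * g := by
        simp only [dotProduct, hg]
        rw [mul_neg, Finset.mul_sum, ← sub_eq_add_neg, ← Finset.sum_sub_distrib]
        exact Finset.sum_congr rfl fun l _ => by ring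
      rw [e2, hs, div_mul_cancel₀ _ hg0.ne'] at h5
      linarith

end Pool.Agent.Lib.P28F
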