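import Pool.Agent.Lib.P28F.Trans
import Pool.Agent.Lib.P28F.LPmax

/-!
# Module P28F.FlatA: a bounded polyhedron without integer points is flat

PROOF. Write P = {z | A.map c *ᵥ z ≤ c ∘ b} ⊆ K^(n+1), slack_j(z) = c (b j) - (A.map c *ᵥ z) j ≥ 0
on P, m = card ι. By `exists_max` with d = -(row j) (bounded above on P by
D * ∑ l |c (A j l)|) there is g_j ∈ P with slack_j(z) ≤ w_j := slack_j(g_j) for all z ∈ P; w_j ≥ 0.
CASE 1: some j has a nonzero row A j and w_j = 0. Then slack_j = 0 on P, so (A.map c *ᵥ z) j is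
constant on P and d = A j works with bound 0 ≤ m 3^n.
CASE 2: every j with A j ≠ 0 has w_j > 0. ι is not empty (otherwise z = 0 is an integer point).
Let E j l = c (A j l) / w_j (0 if w_j = 0, where the row A j is 0). Kernel of E is trivial: if
E z = 0 then (A.map c *ᵥ z) j = 0 for all j; for p ∈ P all points p + s z (s ∈ K) are in P, so
|p l + s z l| ≤ D for all s, which forces z l = 0 (if z l ≠ 0 take s = (2 D + 1)/|z l|, using
|p l| ≤ D). Apply `transfer hI n ι E`: R > 0, d ≠ 0.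
(a) R ≤ 1/m is impossible: let g = (1/m) ∑_j g_j. For all j:
slack_j(g) = (1/m) ∑_i slack_j(g_i) ≥ w_j/m. Take an integer z with |(E (g - c ∘ z)) j| ≤ R ≤ 1/m.
Then slack_j(c ∘ z) = slack_j(g) + (A.map c *ᵥ (g - c ∘ z)) j ≥ w_j/m - w_j/m = 0
(for w_j > 0, (A.map c *ᵥ x) j = w_j (E x) j; for w_j = 0 the row is 0 and slack_j is the constant
w_j... = slack_j(g) ≥ 0). So A z ≤ b (`hI.le_comp`, `comp_mulVec`), contradiction to `hno`.
(b) So R > 1/m. For p, q ∈ P: |(E (p - q)) j| = |slack_j(q) - slack_j(p)|/w_j ≤ 1 (both slacks are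
in [0, w_j]), hence |d ⬝ (p - q)| R ≤ 3^n, |d ⬝ (p - q)| ≤ m 3^n.
-/

set_option autoImplicit false

namespace Pool.Agent.Lib.P28F

open Matrix

namespace FlatAAux

/-- The mean of the extreme points is deep inside. -/
theorem mean_slack {Z K : Type} [CommRing Z] [Field K] [LinearOrder K] [IsStrictOrderedRing K]
    {c : Z →+* K} {n : ℕ} {ι : Type} [Fintype ι] (A : Matrix ι (Fin (n + 1)) Z) (b : ι → Z)
    (g : ι → Fin (n + 1) → K) (hgP : ∀ j, A.map c *ᵥ g j ≤ c ∘ b) (hm : 0 < Fintype.card ι)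
    (j : ι) :
    (A.map c *ᵥ ((Fintype.card ι : K)⁻¹ • ∑ i, g i)) j ≤
      c (b j) - (c (b j) - (A.map c *ᵥ g j) j) / (Fintype.card ι : K) := by
  have hmK : (0 : K) < (Fintype.card ι : K) := by exact_mod_cast hm
  have h1 : (A.map c *ᵥ ((Fintype.card ι : K)⁻¹ • ∑ i, g i)) j
      = (Fintype.card ι : K)⁻¹ * ∑ i, (A.map c *ᵥ g i) j := by
    rw [mulVec_smul, Pi.smul_apply, smul_eq_mul, mulVec_sum, Finset.sum_apply]
  have h2 : ∑ i, (c (b j) - (A.map c *ᵥ g i) j) ≥ c (b j) - (A.map c *ᵥ g j) j := by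
    refine Finset.single_le_sum (f := fun i => c (b j) - (A.map c *ᵥ g i) j) ?_ (Finset.mem_univ j)
    intro i _
    exact sub_nonneg.2 (hgP i j)
  have h3 : ∑ i, (c (b j) - (A.map c *ᵥ g i) j)
      = (Fintype.card ι : K) * c (b j) - ∑ i, (A.map c *ᵥ g i) j := by
    rw [Finset.sum_sub_distrib, Finset.sum_const, Finset.card_univ, nsmul_eq_mul]
  rw [h3] at h2
  rw [h1, div_eq_inv_mul]
  have h4 : (Fintype.card ι : K)⁻¹ * ((Fintype.card ι : K) * c (b j)) = c (b j) := by
    rw [← mul_assoc, inv_mul_cancel₀ hmK.ne', one_mul]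
  have h5 := mul_le_mul_of_nonneg_left h2 (inv_nonneg.2 hmK.le)
  rw [mul_sub (Fintype.card ι : K)⁻¹ ((Fintype.card ι : K) * c (b j)) _, h4] at h5
  linarith

end FlatAAux

theorem flatA {Z K : Type} [CommRing Z] [LinearOrder Z] [IsStrictOrderedRing Z]
    [Field K] [LinearOrder K] [IsStrictOrderedRing K] {c : Z →+* K} (hI : IntPart c)
    {n : ℕ} {ι : Type} [Fintype ι] (A : Matrix ι (Fin (n + 1)) Z) (b : ι → Z) (D : K)
    (hD : ∀ z : Fin (n + 1) → K, A.map c *ᵥ z ≤ c ∘ b → ∀ l, |z l| ≤ D)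
    (hne : ∃ z : Fin (n + 1) → K, A.map c *ᵥ z ≤ c ∘ b)
    (hno : ¬ ∃ z : Fin (n + 1) → Z, A *ᵥ z ≤ b) :
    ∃ d : Fin (n + 1) → Z, d ≠ 0 ∧ ∀ p q : Fin (n + 1) → K,
      A.map c *ᵥ p ≤ c ∘ b → A.map c *ᵥ q ≤ c ∘ b →
        |(c ∘ d) ⬝ᵥ (p - q)| ≤ (Fintype.card ι : K) * 3 ^ n := by
  classical
  -- boundedness in direction of the rows
  have hbd : ∀ j, ∀ z : Fin (n + 1) → K, A.map c *ᵥ z ≤ c ∘ b →
      (fun l => -(c (A j l))) ⬝ᵥ z ≤ ∑ l, |c (A j l)| * D := by
    intro j z hz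
    unfold dotProduct
    refine Finset.sum_le_sum fun l _ => ?_
    calc -(c (A j l)) * z l ≤ |-(c (A j l)) * z l| := le_abs_self _
      _ = |c (A j l)| * |z l| := by rw [abs_mul, abs_neg]
      _ ≤ |c (A j l)| * D := mul_le_mul_of_nonneg_left (hD z hz l) (abs_nonneg _)
  have hmx : ∀ j, ∃ z : Fin (n + 1) → K, A.map c *ᵥ z ≤ c ∘ b ∧
      ∀ w : Fin (n + 1) → K, A.map c *ᵥ w ≤ c ∘ b → (A.map c *ᵥ z) j ≤ (A.map c *ᵥ w) j := by
    intro j
    obtain ⟨z, hz, hz2⟩ := exists_max (A.map c) (c ∘ b) (fun l => -(c (A j l))) _ hne (hbd j)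
    refine ⟨z, hz, fun w hw => ?_⟩
    have h1 := hz2 w hw
    have h2 : ∀ v : Fin (n + 1) → K, (fun l => -(c (A j l))) ⬝ᵥ v = -((A.map c *ᵥ v) j) := by
      intro v
      simp only [dotProduct, mulVec, Matrix.map_apply, neg_mul, Finset.sum_neg_distrib]
    rw [h2, h2] at h1
    linarith
  choose g hgP hgm using hmx
  set w : ι → K := fun j => c (b j) - (A.map c *ᵥ g j) j with hw
  have hw0 : ∀ j, 0 ≤ w j := fun j => sub_nonneg.2 (hgP j j)
  have hsl : ∀ j (z : Fin (n + 1) → K), A.map c *ᵥ z ≤ c ∘ b →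
      0 ≤ c (b j) - (A.map c *ᵥ z) j ∧ c (b j) - (A.map c *ᵥ z) j ≤ w j := by
    intro j z hz
    exact ⟨sub_nonneg.2 (hz j), sub_le_sub_left (hgm j z hz) _⟩
  have h3n : (0 : K) < 3 ^ n := by positivity
  by_cases hcase : ∃ j, A j ≠ 0 ∧ w j = 0
  · obtain ⟨j, hj, hwj⟩ := hcase
    refine ⟨A j, hj, fun p q hp hq => ?_⟩
    have h1 := hsl j p hp
    have h2 := hsl j q hq
    rw [hwj] at h1 h2
    have h3 : (c ∘ A j) ⬝ᵥ (p - q) = (A.map c *ᵥ p) j - (A.map c *ᵥ q) j := by
      simp only [dotProduct, mulVec, Matrix.map_apply, Function.comp_apply, Pi.sub_apply, mul_sub,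
        Finset.sum_sub_distrib]
    rw [h3]
    have h4 : (A.map c *ᵥ p) j - (A.map c *ᵥ q) j = 0 := by linarith [h1.1, h1.2, h2.1, h2.2]
    rw [h4, abs_zero]
    positivity
  · have hrow : ∀ j, w j = 0 → A j = 0 := by
      intro j hj
      by_contra h
      exact hcase ⟨j, h, hj⟩
    have hm : 0 < Fintype.card ι := by
      rw [Fintype.card_pos_iff]
      by_contra hemp
      rw [not_nonempty_iff] at hemp
      exact hno ⟨0, fun j => (hemp.false j).elim⟩
    have hmK : (0 : K) < (Fintype.card ι : K) := by exact_mod_cast hm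
    set E : Matrix ι (Fin (n + 1)) K := fun j l => c (A j l) / w j with hE
    have hEw : ∀ (j : ι) (x : Fin (n + 1) → K), (A.map c *ᵥ x) j = w j * (E *ᵥ x) j := by
      intro j x
      by_cases hj : w j = 0
      · rw [hj, zero_mul]
        simp only [mulVec, dotProduct, Matrix.map_apply]
        refine Finset.sum_eq_zero fun l _ => ?_
        rw [hrow j hj, Pi.zero_apply, map_zero, zero_mul]
      · simp only [mulVec, dotProduct, Matrix.map_apply, hE, Finset.mul_sum]
        refine Finset.sum_congr rfl fun l _ => ?_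
        field_simp
    have hker : ∀ z : Fin (n + 1) → K, E *ᵥ z = 0 → z = 0 := by
      intro z hz
      obtain ⟨p, hp⟩ := hne
      have hz0 : A.map c *ᵥ z = 0 := by
        funext j
        rw [hEw, hz, Pi.zero_apply, mul_zero]
      have hps : ∀ s : K, A.map c *ᵥ (p + s • z) ≤ c ∘ b := by
        intro s
        rw [mulVec_add, mulVec_smul, hz0, smul_zero, add_zero]
        exact hp
      funext l
      by_contra hl
      rw [Pi.zero_apply] at hl
      have hl' : 0 < |z l| := abs_pos.2 hl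
      have hpl := hD p hp l
      have hD0 : 0 ≤ D := le_trans (abs_nonneg _) hpl
      have h1 := hD _ (hps ((2 * D + 1) / |z l|)) l
      rw [Pi.add_apply, Pi.smul_apply, smul_eq_mul] at h1
      have h2 : |(2 * D + 1) / |z l| * z l| = 2 * D + 1 := by
        rw [abs_mul, abs_div, abs_abs, div_mul_cancel₀ _ hl'.ne', abs_of_pos (by linarith)]
      have h3 : |(2 * D + 1) / |z l| * z l| ≤ |p l + (2 * D + 1) / |z l| * z l| + |p l| := by
        have := abs_sub (p l + (2 * D + 1) / |z l| * z l) (p l)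
        rw [add_sub_cancel_left] at this
        exact this
      linarith
    obtain ⟨R, d, hR, hd, hcov, hfun⟩ := transfer hI n ι E hker
    refine ⟨d, hd, fun p q hp hq => ?_⟩
    have hRm : 1 / (Fintype.card ι : K) < R := by
      by_contra hRm
      rw [not_lt] at hRm
      obtain ⟨z, hz⟩ := hcov ((Fintype.card ι : K)⁻¹ • ∑ i, g i)
      apply hno
      refine ⟨z, ?_⟩
      rw [← hI.le_comp, comp_mulVec]
      intro j
      have h1 := FlatAAux.mean_slack A b g hgP hm j
      have h2 := hEw j ((Fintype.card ι : K)⁻¹ • ∑ i, g i - c ∘ z)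
      rw [mulVec_sub, Pi.sub_apply] at h2
      have h3 : -(1 / (Fintype.card ι : K)) ≤
          (E *ᵥ ((Fintype.card ι : K)⁻¹ • ∑ i, g i - c ∘ z)) j :=
        (abs_le.1 ((hz j).trans hRm)).1
      have h4 := mul_le_mul_of_nonneg_left h3 (hw0 j)
      rw [← h2] at h4
      have h5 : w j * -(1 / (Fintype.card ι : K)) = -(w j / (Fintype.card ι : K)) := by ring
      rw [h5] at h4
      show (A.map c *ᵥ (c ∘ z)) j ≤ c (b j)
      have h6 : (c (b j) - (A.map c *ᵥ g j) j) / (Fintype.card ι : K)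
          = w j / (Fintype.card ι : K) := rfl
      rw [h6] at h1
      linarith
    have hone : ∀ j, |(E *ᵥ (p - q)) j| ≤ 1 := by
      intro j
      have h1 := hsl j p hp
      have h2 := hsl j q hq
      have h3 := hEw j (p - q)
      rw [mulVec_sub, Pi.sub_apply] at h3
      rcases (hw0 j).eq_or_lt with hj | hj
      · have h4 : (E *ᵥ (p - q)) j = 0 := by
          simp only [mulVec, dotProduct, hE]
          refine Finset.sum_eq_zero fun l _ => ?_
          rw [← hj, div_zero, zero_mul]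
        rw [h4, abs_zero]
        exact zero_le_one
      · have h4 : |w j * (E *ᵥ (p - q)) j| ≤ w j := by
          rw [← h3, abs_le]
          constructor <;> linarith [h1.1, h1.2, h2.1, h2.2]
        rw [abs_mul, abs_of_pos hj] at h4
        by_contra hcon
        rw [not_le] at hcon
        have := mul_lt_mul_of_pos_left hcon hj
        linarith
    have h1 := hfun (p - q) 1 hone
    rw [mul_one] at h1
    have h2 : |(c ∘ d) ⬝ᵥ (p - q)| * (1 / (Fintype.card ι : K)) ≤ 3 ^ n :=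
      le_trans (mul_le_mul_of_nonneg_left hRm.le (abs_nonneg _)) h1
    rw [mul_one_div, div_le_iff₀ hmK] at h2
    linarith

end Pool.Agent.Lib.P28F
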