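import Pool.Agent.Lib.P28F.FlatA

/-!
# Module P28F.FlatB: the flat direction as a coordinate

PROOF. Let d be the direction of `flatA`. By `herm hI.bez n d`: U U' = U' U = 1,
d i = U i 0 * g; g ≠ 0 as d ≠ 0. Put V' = Uᵀ, V = U'ᵀ: V * V' = (U * U')ᵀ = 1,
V' * V = (U' * U)ᵀ = 1, and row 0 of V' is i ↦ U i 0, so d ⬝ x = g · (V' x) 0. Since |c g| ≥ 1
(g ≠ 0, `hI.one_le`), |(V' p) 0 - (V' q) 0| ≤ |d ⬝ (p - q)| ≤ m 3^n for p, q ∈ P. Fix p₀ ∈ P, let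
z₀ be the floor of (V' p₀) 0 and h = z₀ - m 3^n. For z ∈ P: (V' z) 0 ≥ (V' p₀) 0 - m 3^n ≥ h and
(V' z) 0 ≤ (V' p₀) 0 + m 3^n ≤ z₀ + 1 + m 3^n = h + 2 m 3^n + 1 = h + Wd n m.
-/

set_option autoImplicit false

namespace Pool.Agent.Lib.P28F

open Matrix

theorem flatB {Z K : Type} [CommRing Z] [LinearOrder Z] [IsStrictOrderedRing Z]
    [Field K] [LinearOrder K] [IsStrictOrderedRing K] {c : Z →+* K} (hI : IntPart c)
    {n : ℕ} {ι : Type} [Fintype ι] (A : Matrix ι (Fin (n + 1)) Z) (b : ι → Z) (D : K)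
    (hD : ∀ z : Fin (n + 1) → K, A.map c *ᵥ z ≤ c ∘ b → ∀ l, |z l| ≤ D)
    (hne : ∃ z : Fin (n + 1) → K, A.map c *ᵥ z ≤ c ∘ b)
    (hno : ¬ ∃ z : Fin (n + 1) → Z, A *ᵥ z ≤ b) :
    ∃ (V V' : Matrix (Fin (n + 1)) (Fin (n + 1)) Z) (h : Z), V * V' = 1 ∧ V' * V = 1 ∧
      ∀ z : Fin (n + 1) → K, A.map c *ᵥ z ≤ c ∘ b →
        c h ≤ (V'.map c *ᵥ z) 0 ∧ (V'.map c *ᵥ z) 0 ≤ c h + (Wd n (Fintype.card ι) : K) := by
  obtain ⟨d, hd0, hd⟩ := flatA hI A b D hD hne hno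
  obtain ⟨U, U', g, hUU', hU'U, hU⟩ := herm hI.bez n d
  have hg : g ≠ 0 := by
    intro hg
    apply hd0
    funext i
    rw [hU i, hg, mul_zero, Pi.zero_apply]
  have hg1 : (1 : K) ≤ |c g| := by
    rcases lt_or_gt_of_ne hg with h | h
    · have h1 : 1 ≤ -g := hI.one_le _ (neg_pos.2 h)
      have h2 : c 1 ≤ c (-g) := hI.le_iff.2 h1
      rw [map_one, map_neg] at h2
      exact h2.trans (neg_le_abs _)
    · have h1 : 1 ≤ g := hI.one_le _ h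
      have h2 : c 1 ≤ c g := hI.le_iff.2 h1
      rw [map_one] at h2
      exact h2.trans (le_abs_self _)
  have hdot : ∀ p q : Fin (n + 1) → K, (c ∘ d) ⬝ᵥ (p - q) =
      c g * ((Uᵀ.map c *ᵥ p) 0 - (Uᵀ.map c *ᵥ q) 0) := by
    intro p q
    simp only [Matrix.mulVec, dotProduct, Function.comp_apply, Matrix.map_apply,
      Matrix.transpose_apply, Pi.sub_apply]
    rw [← Finset.sum_sub_distrib, Finset.mul_sum]
    refine Finset.sum_congr rfl fun i _ => ?_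
    rw [hU i, map_mul]
    ring
  have hdiff : ∀ p q : Fin (n + 1) → K, A.map c *ᵥ p ≤ c ∘ b → A.map c *ᵥ q ≤ c ∘ b →
      |(Uᵀ.map c *ᵥ p) 0 - (Uᵀ.map c *ᵥ q) 0| ≤ (Fintype.card ι : K) * 3 ^ n := by
    intro p q hp hq
    have h1 := hd p q hp hq
    rw [hdot, abs_mul] at h1
    refine le_trans ?_ h1
    exact le_mul_of_one_le_left (abs_nonneg _) hg1
  obtain ⟨p₀, hp₀⟩ := hne
  obtain ⟨z₀, hz₀, hz₀'⟩ := hI.floor ((Uᵀ.map c *ᵥ p₀) 0)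
  refine ⟨U'ᵀ, Uᵀ, z₀ - (Fintype.card ι : Z) * 3 ^ n, ?_, ?_, ?_⟩
  · rw [← Matrix.transpose_mul, hUU', Matrix.transpose_one]
  · rw [← Matrix.transpose_mul, hU'U, Matrix.transpose_one]
  · intro z hz
    have h1 := abs_le.1 (hdiff z p₀ hz hp₀)
    have h2 : c (z₀ - (Fintype.card ι : Z) * 3 ^ n) = c z₀ - (Fintype.card ι : K) * 3 ^ n := by
      rw [map_sub, map_mul, map_pow, map_natCast, map_ofNat]
    have h3 : ((Wd n (Fintype.card ι) : ℕ) : K) = 2 * ((Fintype.card ι : K) * 3 ^ n) + 1 := by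
      unfold Wd
      push_cast
      ring
    rw [h2, h3]
    constructor
    · linarith [h1.1]
    · linarith [h1.2]

end Pool.Agent.Lib.P28F
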