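import Pool.Agent.Lib.P28F.Defs

/-!
# Module P28F.Frac: the ordered field of fractions

Every ordered commutative ring `Z` has an ordered field of fractions.

PROOF. `Z` is a domain (`IsStrictOrderedRing` gives `NoZeroDivisors`, `IsDomain`). Take
`K = FractionRing Z` with `c = algebraMap Z K`. Order: the cone
`C = {x | ∃ a b : Z, 0 ≤ a ∧ 0 < b ∧ x * c b = c a}`. It is closed under + and *, contains 1,
`x, -x ∈ C → x = 0`, and for every x one of x, -x is in C (write x = c a / c b with b ≠ 0, make b
positive by changing the signs of both). Use `RingCone`, `LinearOrder.mkOfAddGroupCone` (or the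
name in this Mathlib) and `IsOrderedRing.mkOfCone` in
`Mathlib/Algebra/Order/Group/Cone.lean`, `Mathlib/Algebra/Order/Ring/Cone.lean`, or build the
`LinearOrder` structure by hand (x ≤ y ↔ y - x ∈ C). A field with `IsOrderedRing` and
`Nontrivial` is `IsStrictOrderedRing` (`IsOrderedRing.toIsStrictOrderedRing`, or
`IsStrictOrderedRing.of_mul_pos`).
-/

set_option autoImplicit false

namespace Pool.Agent.Lib.P28F

namespace FracAux

variable (Z : Type) [CommRing Z] [LinearOrder Z] [IsStrictOrderedRing Z]
variable (K : Type) [Field K] (c : Z →+* K)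

/-- The cone of nonnegative fractions. -/
def cone (hc : Function.Injective c) : RingCone K where
  carrier := {x | ∃ a b : Z, 0 ≤ a ∧ 0 < b ∧ x * c b = c a}
  mul_mem' := by
    rintro x y ⟨a, b, ha, hb, h⟩ ⟨a', b', ha', hb', h'⟩
    refine ⟨a * a', b * b', mul_nonneg ha ha', mul_pos hb hb', ?_⟩
    rw [map_mul, map_mul, ← h, ← h']
    ring
  one_mem' := ⟨1, 1, zero_le_one, zero_lt_one, by simp⟩
  add_mem' := by
    rintro x y ⟨a, b, ha, hb, h⟩ ⟨a', b', ha', hb', h'⟩
    refine ⟨a * b' + a' * b, b * b', ?_, mul_pos hb hb', ?_⟩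
    · exact add_nonneg (mul_nonneg ha hb'.le) (mul_nonneg ha' hb.le)
    · rw [map_mul, map_add, map_mul, map_mul, ← h, ← h']
      ring
  zero_mem' := ⟨0, 1, le_refl _, zero_lt_one, by simp⟩
  eq_zero_of_mem_of_neg_mem' := by
    rintro x ⟨a, b, ha, hb, h⟩ ⟨a', b', ha', hb', h'⟩
    have h1 : c (a * b' + a' * b) = 0 := by
      rw [map_add, map_mul, map_mul, ← h, ← h']
      ring
    have h2 : a * b' + a' * b = 0 := by
      apply hc
      rw [h1, map_zero]
    have h3 : a * b' = 0 := by
      have e1 := mul_nonneg ha hb'.le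
      have e2 := mul_nonneg ha' hb.le
      linarith
    have h4 : a = 0 := by
      rcases mul_eq_zero.mp h3 with h5 | h5
      · exact h5
      · exact absurd h5 (ne_of_gt hb')
    rw [h4, map_zero] at h
    rcases mul_eq_zero.mp h with h5 | h5
    · exact h5
    · exfalso
      have : b = 0 := by
        apply hc
        rw [h5, map_zero]
      exact absurd this (ne_of_gt hb)

theorem mem_cone (hc : Function.Injective c) (x : K) :
    x ∈ cone Z K c hc ↔ ∃ a b : Z, 0 ≤ a ∧ 0 < b ∧ x * c b = c a := Iff.rfl

theorem total (hc : Function.Injective c)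
    (hs : ∀ x : K, ∃ a b : Z, 0 < b ∧ x * c b = c a) : HasMemOrNegMem (cone Z K c hc) where
  mem_or_neg_mem := by
    intro x
    obtain ⟨a, b, hb, h⟩ := hs x
    rcases le_total 0 a with ha | ha
    · left
      exact ⟨a, b, ha, hb, h⟩
    · right
      refine ⟨-a, b, by linarith, hb, ?_⟩
      rw [map_neg, ← h]
      ring

end FracAux

open FracAux in
theorem exists_frac (Z : Type) [CommRing Z] [LinearOrder Z] [IsStrictOrderedRing Z] :
    ∃ (K : Type) (_ : Field K) (_ : LinearOrder K) (_ : IsStrictOrderedRing K) (c : Z →+* K),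
      (∀ a b : Z, a < b → c a < c b) ∧ ∀ x : K, ∃ a b : Z, 0 < b ∧ x * c b = c a := by
  classical
  have : IsDomain Z := inferInstance
  let K := FractionRing Z
  let c : Z →+* K := algebraMap Z K
  have hc : Function.Injective c := IsFractionRing.injective Z K
  have hs : ∀ x : K, ∃ a b : Z, 0 < b ∧ x * c b = c a := by
    intro x
    obtain ⟨a, b, hb, rfl⟩ := IsFractionRing.div_surjective (A := Z) x
    have hb0 : b ≠ 0 := nonZeroDivisors.ne_zero hb
    have hcb : c b ≠ 0 := by
      intro h
      exact hb0 (hc (by rw [h, map_zero]))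
    rcases lt_or_gt_of_ne hb0 with h | h
    · refine ⟨-a, -b, by linarith, ?_⟩
      rw [map_neg, map_neg]
      change c a / c b * -(c b) = -(c a)
      rw [mul_neg, div_mul_cancel₀ _ hcb]
    · refine ⟨a, b, h, ?_⟩
      change c a / c b * c b = c a
      rw [div_mul_cancel₀ _ hcb]
  have := total Z K c hc hs
  let lo : LinearOrder K := LinearOrder.mkOfAddGroupCone (cone Z K c hc)
  have ho : IsOrderedRing K := IsOrderedRing.mkOfCone (cone Z K c hc)
  have hst : IsStrictOrderedRing K := IsOrderedRing.toIsStrictOrderedRing K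
  refine ⟨K, inferInstance, lo, hst, c, ?_, hs⟩
  intro a b hab
  have h1 : c a ≤ c b := by
    change c b - c a ∈ cone Z K c hc
    refine ⟨b - a, 1, by linarith, zero_lt_one, ?_⟩
    rw [map_one, mul_one, map_sub]
  refine lt_of_le_of_ne h1 ?_
  intro h
  exact absurd (hc h) (ne_of_lt hab)

end Pool.Agent.Lib.P28F
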