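import Pool.Agent.Lib.P28F.Defs

/-!
# Module P28F.Herm: unimodular completion

In a commutative ring with the Bezout property every vector is a multiple of the first column of
an invertible matrix.

PROOF: for every finite set `S` of coordinates not containing `0` there is a linear automorphism
`E` of `Z^(n+1)` such that `E b` vanishes on `S` (induction on `S`; one more coordinate `i` is
killed by the automorphism acting on the coordinates `0, i` by [[u, v], [-q, p]]). For
`S = {i ≠ 0}` this gives `E b = g e_0`, so `b = E⁻¹ (g e_0)`.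
-/

set_option autoImplicit false

namespace Pool.Agent.Lib.P28F

open Matrix

namespace HermAux

variable {Z : Type} [CommRing Z]

theorem step {ι : Type} [DecidableEq ι] (i0 i : ι) (h : i ≠ i0) (p q u v : Z)
    (h1 : u * p + v * q = 1) :
    ∃ E : (ι → Z) ≃ₗ[Z] (ι → Z), (∀ c j, j ≠ i0 → j ≠ i → E c j = c j) ∧
      (∀ c, E c i0 = u * c i0 + v * c i) ∧ (∀ c, E c i = -q * c i0 + p * c i) := by
  refine ⟨{ toFun := fun c j => if j = i0 then u * c i0 + v * c i
              else if j = i then -q * c i0 + p * c i else c j
            map_add' := ?_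
            map_smul' := ?_
            invFun := fun c j => if j = i0 then p * c i0 - v * c i
              else if j = i then q * c i0 + u * c i else c j
            left_inv := ?_
            right_inv := ?_ }, ?_, ?_, ?_⟩
  · intro c d
    funext j
    simp only [Pi.add_apply]
    split_ifs <;> ring
  · intro r c
    funext j
    simp only [Pi.smul_apply, smul_eq_mul, RingHom.id_apply]
    split_ifs <;> ring
  · intro c
    funext j
    simp only [if_true, if_neg h]
    split_ifs with h2 h3
    · subst h2
      linear_combination (c j) * h1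
    · subst h3
      linear_combination (c j) * h1
    · rfl
  · intro c
    funext j
    simp only [if_true, if_neg h]
    split_ifs with h2 h3
    · subst h2
      linear_combination (c j) * h1
    · subst h3
      linear_combination (c j) * h1
    · rfl
  · intro c j hj hj'
    show (if j = i0 then u * c i0 + v * c i
              else if j = i then -q * c i0 + p * c i else c j) = c j
    rw [if_neg hj, if_neg hj']
  · intro c
    show (if i0 = i0 then u * c i0 + v * c i
              else if i0 = i then -q * c i0 + p * c i else c i0) = _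
    rw [if_pos rfl]
  · intro c
    show (if i = i0 then u * c i0 + v * c i
              else if i = i then -q * c i0 + p * c i else c i) = _
    rw [if_neg h, if_pos rfl]

theorem kill {ι : Type} [DecidableEq ι]
    (bez : ∀ a b : Z, ∃ p q u v g : Z, a = p * g ∧ b = q * g ∧ u * p + v * q = 1)
    (i0 : ι) (b : ι → Z) (S : Finset ι) (hS : i0 ∉ S) :
    ∃ E : (ι → Z) ≃ₗ[Z] (ι → Z), ∀ i ∈ S, E b i = 0 := by
  induction S using Finset.induction_on with
  | empty => exact ⟨LinearEquiv.refl Z _, by simp⟩
  | insert i S hi ih =>
    obtain ⟨E, hE⟩ := ih (fun h => hS (Finset.mem_insert_of_mem h))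
    have hne : i ≠ i0 := fun h => hS (h ▸ Finset.mem_insert_self i S)
    obtain ⟨p, q, u, v, g, ha, hb, h1⟩ := bez (E b i0) (E b i)
    obtain ⟨F, hF1, hF2, hF3⟩ := step i0 i hne p q u v h1
    refine ⟨E.trans F, fun j hj => ?_⟩
    rw [LinearEquiv.trans_apply]
    rcases Finset.mem_insert.1 hj with rfl | hj
    · rw [hF3, ha, hb]
      ring
    · have h2 : j ≠ i0 := fun h => hS (h ▸ Finset.mem_insert_of_mem hj)
      have h3 : j ≠ i := fun h => hi (h ▸ hj)
      rw [hF1 _ _ h2 h3]
      exact hE j hj

end HermAux

theorem herm {Z : Type} [CommRing Z]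
    (bez : ∀ a b : Z, ∃ p q u v g : Z, a = p * g ∧ b = q * g ∧ u * p + v * q = 1)
    (n : ℕ) (b : Fin (n + 1) → Z) :
    ∃ (V V' : Matrix (Fin (n + 1)) (Fin (n + 1)) Z) (g : Z), V * V' = 1 ∧ V' * V = 1 ∧
      ∀ i, b i = V i 0 * g := by
  obtain ⟨E, hE⟩ := HermAux.kill bez (0 : Fin (n + 1)) b (Finset.univ.erase 0) (by simp)
  have key : E b = (E b 0) • (Pi.single (0 : Fin (n + 1)) (1 : Z)) := by
    funext j
    by_cases hj : j = 0
    · subst hj
      simp
    · rw [hE j (by simp [hj])]
      simp [hj]
  refine ⟨LinearMap.toMatrix' (E.symm : (Fin (n + 1) → Z) →ₗ[Z] (Fin (n + 1) → Z)),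
    LinearMap.toMatrix' (E : (Fin (n + 1) → Z) →ₗ[Z] (Fin (n + 1) → Z)), E b 0, ?_, ?_, ?_⟩
  · rw [← LinearMap.toMatrix'_comp]
    simp
  · rw [← LinearMap.toMatrix'_comp]
    simp
  · intro i
    have h1 : b = E.symm (E b) := (E.symm_apply_apply b).symm
    rw [LinearMap.toMatrix'_apply]
    have h2 : (E.symm : (Fin (n + 1) → Z) →ₗ[Z] (Fin (n + 1) → Z)) (Pi.single 0 1) i * E b 0
        = b i := by
      conv_rhs => rw [h1, key, map_smul]
      simp [mul_comm]
    rw [← h2]
    

end Pool.Agent.Lib.P28F
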