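import Pool.Agent.Lib.P28F.FlatB
import Pool.Agent.Lib.P28F.FarkasZ

/-!
# Module P28F.InfC: completeness of the certificates for bounded systems

PROOF by induction on `k` (for all ι, A, b, D). k = 0: the unique vector z satisfies A z = 0, so
`hno` gives i with b i < 0. k + 1: if the system has no solution in K: `farkasZ`, left
alternative. Otherwise `flatB` gives V, V', h. Right alternative:
Upper: apply `farkas_upper hI (A * V) b (h + W + 1)`: if w ∈ K^(k+1) satisfies
(A V).map c w ≤ c ∘ b, then z = V.map c w satisfies A.map c z ≤ c ∘ b and V'.map c z = w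
(V' V = 1), so w 0 ≤ c h + W < c (h + W + 1). Lower: `farkas_lower` with t = h - 1.
For i ≤ W: the system with matrix `(A V) j l.succ` and right side b j - (A V) j 0 (h + i).
It has no integer solution: for y take z = V (cons (h + i) y), A z ≤ b. It is bounded: for a
solution y ∈ K^k, z = V.map c (cons (c (h + i)) y) is in P, |z l| ≤ D for all l, and
cons _ y = V'.map c z, so |y l| ≤ D * ∑ |c (V' _ _)|; as bound take
D' = |D| * ∑ l, ∑ l', |c (V' l l')| (D ≥ 0 since |z l| ≤ D; if P is empty any bound works).
-/

set_option autoImplicit false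
set_option linter.unusedSectionVars false

namespace Pool.Agent.Lib.P28F

open Matrix

namespace InfCAux

variable {Z K : Type} [CommRing Z] [LinearOrder Z] [IsStrictOrderedRing Z]
  [Field K] [LinearOrder K] [IsStrictOrderedRing K]

private theorem map_cancel (c : Z →+* K) {k : ℕ} (V V' : Matrix (Fin (k + 1)) (Fin (k + 1)) Z)
    (h2 : V' * V = 1) (w : Fin (k + 1) → K) : V'.map c *ᵥ (V.map c *ᵥ w) = w := by
  rw [Matrix.mulVec_mulVec, ← Matrix.map_mul, h2]
  simp

private theorem map_assoc (c : Z →+* K) {k : ℕ} {ι : Type} (A : Matrix ι (Fin (k + 1)) Z)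
    (V : Matrix (Fin (k + 1)) (Fin (k + 1)) Z) (w : Fin (k + 1) → K) :
    A.map c *ᵥ (V.map c *ᵥ w) = (A * V).map c *ᵥ w := by
  rw [Matrix.mulVec_mulVec, ← Matrix.map_mul]

private theorem cons_le (c : Z →+* K) {k : ℕ} {ι : Type} (B : Matrix ι (Fin (k + 1)) Z) (b : ι → Z)
    (t : Z) (y : Fin k → K)
    (hy : (Matrix.map (fun j (l : Fin k) => B j l.succ : Matrix ι (Fin k) Z) c) *ᵥ y
      ≤ c ∘ (fun j => b j - B j 0 * t)) :
    B.map c *ᵥ (Fin.cons (c t) y : Fin (k + 1) → K) ≤ c ∘ b := by
  intro j
  have h := hy j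
  simp only [Matrix.mulVec, dotProduct, Matrix.map_apply, Function.comp_apply, map_sub,
    map_mul] at h
  simp only [Matrix.mulVec, dotProduct, Matrix.map_apply, Function.comp_apply,
    Fin.sum_univ_succ, Fin.cons_zero, Fin.cons_succ]
  linarith

private theorem cons_leZ {k : ℕ} {ι : Type} (B : Matrix ι (Fin (k + 1)) Z) (b : ι → Z)
    (t : Z) (y : Fin k → Z)
    (hy : (fun j (l : Fin k) => B j l.succ : Matrix ι (Fin k) Z) *ᵥ y
      ≤ (fun j => b j - B j 0 * t)) :
    B *ᵥ (Fin.cons t y : Fin (k + 1) → Z) ≤ b := by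
  intro j
  have h := hy j
  simp only [Matrix.mulVec, dotProduct] at h
  simp only [Matrix.mulVec, dotProduct, Fin.sum_univ_succ, Fin.cons_zero, Fin.cons_succ]
  linarith

end InfCAux

theorem Inf.complete {Z K : Type} [CommRing Z] [LinearOrder Z] [IsStrictOrderedRing Z]
    [Field K] [LinearOrder K] [IsStrictOrderedRing K] {c : Z →+* K} (hI : IntPart c)
    (k : ℕ) (ι : Type) [Fintype ι] (A : Matrix ι (Fin k) Z) (b : ι → Z) (D : K)
    (hD : ∀ z : Fin k → K, A.map c *ᵥ z ≤ c ∘ b → ∀ l, |z l| ≤ D)
    (hno : ¬ ∃ z : Fin k → Z, A *ᵥ z ≤ b) : Inf k ι A b := by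
  induction k generalizing ι D with
  | zero =>
    by_contra hcon
    apply hno
    refine ⟨0, ?_⟩
    intro i
    rw [Matrix.mulVec_zero]
    by_contra hi
    exact hcon ⟨i, not_le.1 hi⟩
  | succ k ih =>
    by_cases hne : ∃ z : Fin (k + 1) → K, A.map c *ᵥ z ≤ c ∘ b
    · right
      obtain ⟨V, V', h, h1, h2, hP⟩ := flatB hI A b D hD hne hno
      have key : ∀ w : Fin (k + 1) → K, (A * V).map c *ᵥ w ≤ c ∘ b →
          A.map c *ᵥ (V.map c *ᵥ w) ≤ c ∘ b := by
        intro w hw
        rw [InfCAux.map_assoc]
        exact hw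
      refine ⟨V, V', h, h1, ?_, ?_, ?_⟩
      · apply farkas_upper hI (A * V) b (h + (Wd k (Fintype.card ι) : Z) + 1)
        intro w hw
        have h3 := (hP _ (key w hw)).2
        rw [InfCAux.map_cancel c V V' h2] at h3
        have h4 : c (h + (Wd k (Fintype.card ι) : Z) + 1)
            = c h + (Wd k (Fintype.card ι) : K) + 1 := by
          simp
        rw [h4]
        linarith
      · apply farkas_lower hI (A * V) b (h - 1)
        intro w hw
        have h3 := (hP _ (key w hw)).1
        rw [InfCAux.map_cancel c V V' h2] at h3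
        have h4 : c (h - 1) = c h - 1 := by
          simp
        rw [h4]
        linarith
      · intro i
        have hD0 : 0 ≤ D := by
          obtain ⟨z, hz⟩ := hne
          exact le_trans (abs_nonneg _) (hD z hz 0)
        apply ih ι _ _ (D * ∑ l, ∑ l', |c (V' l l')|)
        · intro y hy l
          have h3 := InfCAux.cons_le c (A * V) b (h + ((i : ℕ) : Z)) y hy
          have h4 := key _ h3
          have h5 := hD _ h4
          have h6 := InfCAux.map_cancel c V V' h2
            (Fin.cons (c (h + ((i : ℕ) : Z))) y : Fin (k + 1) → K)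
          have h7 := congrFun h6 l.succ
          rw [Fin.cons_succ] at h7
          rw [← h7]
          generalize V.map c *ᵥ (Fin.cons (c (h + ((i : ℕ) : Z))) y : Fin (k + 1) → K) = z at h5
          simp only [Matrix.mulVec, dotProduct, Matrix.map_apply]
          calc |∑ m, c (V' l.succ m) * z m| ≤ ∑ m, |c (V' l.succ m) * z m| :=
                Finset.abs_sum_le_sum_abs _ _
            _ ≤ ∑ m, |c (V' l.succ m)| * D := by
                apply Finset.sum_le_sum
                intro m _
                rw [abs_mul]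
                exact mul_le_mul_of_nonneg_left (h5 m) (abs_nonneg _)
            _ = (∑ m, |c (V' l.succ m)|) * D := by
                rw [Finset.sum_mul]
            _ = D * ∑ m, |c (V' l.succ m)| := by
                rw [mul_comm]
            _ ≤ D * ∑ l, ∑ l', |c (V' l l')| := by
                apply mul_le_mul_of_nonneg_left _ hD0
                exact Finset.single_le_sum (f := fun l => ∑ l', |c (V' l l')|)
                  (fun l _ => Finset.sum_nonneg fun l' _ => abs_nonneg _) (Finset.mem_univ l.succ)
        · rintro ⟨y, hy⟩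
          apply hno
          refine ⟨V *ᵥ (Fin.cons (h + ((i : ℕ) : Z)) y : Fin (k + 1) → Z), ?_⟩
          rw [Matrix.mulVec_mulVec]
          exact InfCAux.cons_leZ (A * V) b (h + ((i : ℕ) : Z)) y hy
    · left
      exact farkasZ hI A b hne

end Pool.Agent.Lib.P28F
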