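import Pool.Agent.Lib.P28F.Defs

/-!
# Module P28F.InfS: soundness of the certificates

PROOF by induction on `k` (for all ι, A, b). k = 0: A z = 0 for the unique z, so A z ≤ b means
0 ≤ b i for all i. k + 1: let A z ≤ b.
First alternative: y ≥ 0, y ᵥ* A = 0: 0 = (y ᵥ* A) ⬝ z = y ⬝ (A z) ≤ y ⬝ b < 0, contradiction.
Second: put w = V' z, so z = V w and (A V) w ≤ b. Upper certificate:
s * w 0 = (y ᵥ* (A V)) ⬝ w = y ⬝ ((A V) w) ≤ y ⬝ b < s (h + W + 1), so s ≠ 0, s > 0 and
w 0 < h + W + 1. Lower: -s * w 0 < -s (h - 1), so s > 0 and w 0 > h - 1. By discreteness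
(`h1 : 0 < z → 1 ≤ z`) h ≤ w 0 ≤ h + W, and an element of Z between h and h + W (W a natural
number) is h + i for some i ≤ W (induction on W). Then the vector w ∘ succ solves the system
`(A V) j l.succ`, `b j - (A V) j 0 * (h + i)`: ((A V) w) j = (A V) j 0 * w 0 + ∑ l (A V) j l.succ *
w l.succ (`Fin.sum_univ_succ`), contradicting the induction hypothesis.
-/

set_option autoImplicit false

namespace Pool.Agent.Lib.P28F

open Matrix

namespace InfSAux

/-- Elements between `h` and `h + W` in a discretely ordered ring. -/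
theorem between {Z : Type} [CommRing Z] [LinearOrder Z] [IsStrictOrderedRing Z]
    (h1 : ∀ z : Z, 0 < z → 1 ≤ z) (h x : Z) (hx : h ≤ x) (W : ℕ) (hW : x ≤ h + (W : Z)) :
    ∃ i : Fin (W + 1), x = h + ((i : ℕ) : Z) := by
  induction W with
  | zero =>
      refine ⟨0, le_antisymm ?_ ?_⟩
      · simpa using hW
      · simpa using hx
  | succ W ih =>
      rcases le_or_gt x (h + (W : Z)) with h2 | h2
      · obtain ⟨i, hi⟩ := ih h2
        exact ⟨i.castSucc, by simpa using hi⟩
      · refine ⟨Fin.last (W + 1), ?_⟩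
        have h3 := h1 (x - (h + (W : Z))) (by linarith)
        push_cast at hW
        simp only [Fin.val_last]
        push_cast
        linarith

end InfSAux

theorem Inf.sound {Z : Type} [CommRing Z] [LinearOrder Z] [IsStrictOrderedRing Z]
    (h1 : ∀ z : Z, 0 < z → 1 ≤ z) (k : ℕ) (ι : Type) [Fintype ι] (A : Matrix ι (Fin k) Z)
    (b : ι → Z) (h : Inf k ι A b) : ¬ ∃ z : Fin k → Z, A *ᵥ z ≤ b := by
  induction k generalizing b with
  | zero =>
      rintro ⟨z, hz⟩
      obtain ⟨i, hi⟩ := h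
      have h2 := hz i
      simp only [Matrix.mulVec, dotProduct, Finset.univ_eq_empty, Finset.sum_empty] at h2
      exact absurd hi (not_lt.2 h2)
  | succ k ih =>
      rintro ⟨z, hz⟩
      rcases h with ⟨y, hy0, hyA, hyb⟩ | ⟨V, V', t, hVV, ⟨y, s, hy0, hs0, hyV, hyb⟩,
        ⟨y', s', hy0', hs0', hyV', hyb'⟩, hall⟩
      · have h2 : y ⬝ᵥ (A *ᵥ z) ≤ y ⬝ᵥ b :=
          Finset.sum_le_sum fun i _ => mul_le_mul_of_nonneg_left (hz i) (hy0 i)
        rw [Matrix.dotProduct_mulVec, hyA, zero_dotProduct] at h2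
        exact absurd hyb (not_lt.2 h2)
      · have hzw : (A * V) *ᵥ (V' *ᵥ z) = A *ᵥ z := by
          rw [Matrix.mulVec_mulVec, Matrix.mul_assoc, hVV, Matrix.mul_one]
        generalize V' *ᵥ z = w at hzw
        rw [← hzw] at hz
        have hup : w 0 < t + (Wd k (Fintype.card ι) : Z) + 1 := by
          have h2 : y ⬝ᵥ ((A * V) *ᵥ w) ≤ y ⬝ᵥ b :=
            Finset.sum_le_sum fun i _ => mul_le_mul_of_nonneg_left (hz i) (hy0 i)
          rw [Matrix.dotProduct_mulVec, hyV, single_dotProduct] at h2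
          exact lt_of_mul_lt_mul_left (lt_of_le_of_lt h2 hyb) hs0
        have hlo : t - 1 < w 0 := by
          have h2 : y' ⬝ᵥ ((A * V) *ᵥ w) ≤ y' ⬝ᵥ b :=
            Finset.sum_le_sum fun i _ => mul_le_mul_of_nonneg_left (hz i) (hy0' i)
          rw [Matrix.dotProduct_mulVec, hyV', single_dotProduct] at h2
          have h3 : s' * (t - 1) < s' * w 0 := by
            have h4 := lt_of_le_of_lt h2 hyb'
            rw [neg_mul, neg_mul] at h4
            exact neg_lt_neg_iff.1 h4
          exact lt_of_mul_lt_mul_left h3 hs0'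
        have hlo' : t ≤ w 0 := by
          have := h1 (w 0 - t + 1) (by linarith)
          linarith
        have hup' : w 0 ≤ t + (Wd k (Fintype.card ι) : Z) := by
          have := h1 (t + (Wd k (Fintype.card ι) : Z) + 1 - w 0) (by linarith)
          linarith
        obtain ⟨i, hi⟩ := InfSAux.between h1 t (w 0) hlo' _ hup'
        refine ih _ _ (hall i) ⟨fun l => w l.succ, fun j => ?_⟩
        have h2 := hz j
        simp only [Matrix.mulVec, dotProduct] at h2 ⊢
        rw [Fin.sum_univ_succ, hi] at h2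
        linarith

end Pool.Agent.Lib.P28F
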