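import Pool.Agent.Lib.P28F.Frac

/-!
# Module P28F.Left: bounded preimages

An integer matrix with trivial kernel has a left inverse up to a positive factor.

PROOF. Let K, c be the field of fractions (`exists_frac Z`). The matrix `A.map c` has trivial
kernel over K: if `A.map c *ᵥ x = 0`, multiply x by a common denominator (finite product of
denominators of the coordinates, all positive) to get an integer vector z with A z = 0 (c is
injective), so z = 0 and x = 0. Hence the K-linear map `Matrix.mulVecLin (A.map c)` is injective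
and has a left inverse (`LinearMap.exists_leftInverse_of_injective`), i.e. a matrix
`L₀ : Matrix (Fin k) ι K` with `L₀ * A.map c = 1` (`LinearMap.toMatrix'`; ι has a decidable
equality classically). Let d > 0 be a common denominator of the entries of L₀:
`L₀ i j * c d = c (L i j)`. Then `L * A = d • 1` after applying c (injective) to the entries.
-/

set_option autoImplicit false

namespace Pool.Agent.Lib.P28F

open Matrix

namespace LeftAux

theorem common_den {Z K : Type} [CommRing Z] [LinearOrder Z] [IsStrictOrderedRing Z]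
    [Field K] (c : Z →+* K) (hfr : ∀ x : K, ∃ a b : Z, 0 < b ∧ x * c b = c a)
    {κ : Type} [Fintype κ] (f : κ → K) :
    ∃ (d : Z) (g : κ → Z), 0 < d ∧ ∀ i, f i * c d = c (g i) := by
  classical
  choose a b hb hab using hfr
  refine ⟨∏ i, b (f i), fun i => a (f i) * ∏ j ∈ Finset.univ.erase i, b (f j),
    Finset.prod_pos fun i _ => hb _, ?_⟩
  intro i
  rw [← Finset.mul_prod_erase Finset.univ (fun j => b (f j)) (Finset.mem_univ i), map_mul,
    map_mul, ← mul_assoc, hab]

end LeftAux

theorem exists_left {Z : Type} [CommRing Z] [LinearOrder Z] [IsStrictOrderedRing Z]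
    {k : ℕ} {ι : Type} [Fintype ι] (A : Matrix ι (Fin k) Z)
    (hA : ∀ z : Fin k → Z, A *ᵥ z = 0 → z = 0) :
    ∃ (L : Matrix (Fin k) ι Z) (d : Z), 0 < d ∧
      ∀ (z : Fin k → Z) (l : Fin k), (L *ᵥ (A *ᵥ z)) l = d * z l := by
  classical
  obtain ⟨K, _, _, _, c, hlt, hfr⟩ := exists_frac Z
  have hinj : ∀ a b : Z, c a = c b → a = b := by
    intro a b h
    by_contra hne
    rcases lt_or_gt_of_ne hne with h1 | h1
    · exact (hlt _ _ h1).ne h
    · exact (hlt _ _ h1).ne h.symm
  have hker : LinearMap.ker (Matrix.mulVecLin (A.map c)) = ⊥ := by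
    rw [LinearMap.ker_eq_bot']
    intro x hx
    obtain ⟨d, z, hd, hz⟩ := LeftAux.common_den c hfr x
    have hcd : (0 : K) < c d := by
      have := hlt 0 d hd
      rwa [map_zero] at this
    have hAz : A *ᵥ z = 0 := by
      funext i
      apply hinj
      rw [comp_mulVec_apply]
      have e1 : (c ∘ z) = fun j => x j * c d := funext fun j => (hz j).symm
      have e2 : (A.map c *ᵥ x) i = 0 := congrFun hx i
      rw [e1, Pi.zero_apply, map_zero]
      simp only [Matrix.mulVec, dotProduct] at e2 ⊢
      calc ∑ j, (A.map c) i j * (x j * c d) = (∑ j, (A.map c) i j * x j) * c d := by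
            rw [Finset.sum_mul]
            exact Finset.sum_congr rfl fun j _ => by ring
        _ = 0 := by rw [e2, zero_mul]
    have hz0 := hA z hAz
    funext i
    have := hz i
    rw [hz0, Pi.zero_apply, map_zero] at this
    exact (mul_eq_zero.1 this).resolve_right hcd.ne'
  obtain ⟨g, hg⟩ := (Matrix.mulVecLin (A.map c)).exists_leftInverse_of_injective hker
  set L₀ : Matrix (Fin k) ι K := LinearMap.toMatrix' g with hL₀
  have hL : ∀ x : Fin k → K, L₀ *ᵥ (A.map c *ᵥ x) = x := by
    intro x
    rw [hL₀, LinearMap.toMatrix'_mulVec]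
    exact LinearMap.congr_fun hg x
  obtain ⟨d, m, hd, hm⟩ := LeftAux.common_den c hfr (fun q : Fin k × ι => L₀ q.1 q.2)
  refine ⟨fun i j => m (i, j), d, hd, ?_⟩
  intro z l
  apply hinj
  rw [comp_mulVec_apply, comp_mulVec, map_mul]
  have h1 := congrFun (hL (c ∘ z)) l
  have h2 : ((Matrix.map (fun i j => m (i, j)) c : Matrix (Fin k) ι K) *ᵥ (A.map c *ᵥ (c ∘ z))) l
      = c d * (L₀ *ᵥ (A.map c *ᵥ (c ∘ z))) l := by
    simp only [Matrix.mulVec, dotProduct, Matrix.map_apply]
    rw [Finset.mul_sum]
    refine Finset.sum_congr rfl fun j _ => ?_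
    rw [← hm (l, j)]
    ring
  rw [h2, h1]
  rfl

end Pool.Agent.Lib.P28F
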