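import Pool.Agent.Lib.P28F.Sys

/-! Affine blocks of bounded universal quantifiers are Diophantine in IE₁. -/

set_option autoImplicit false
set_option linter.unusedSectionVars false

namespace Pool.Agent.Lib.P28F

open Pool.Agent.Lib.P28b

/-- An affine block is equivalent to finitely many certificates. -/
theorem block_dio {α : Type} {m : ℕ} (φ : Fm m) (hφ : Block (fun _ => false) φ)
    (ρ : Fin m → Tm α) :
    ∃ R : ∀ M : Mdl, (α → M.C) → Prop, Dio R ∧
      ∀ (M : Mdl) (_ : ModelIE1 M.C) (v : α → M.C),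
        φ.sat (fun i => (ρ i).eval v) ↔ R M v := by
  obtain ⟨k, e, L, h1, h2⟩ := block_nf (k := 0) (fun i => Sum.inl (ρ i)) φ hφ
  refine ⟨fun M v => ∀ S ∈ L, Inf k (Fin S.length ⊕ Fin k) (sysA S M v) (sysB S M v),
    Dio.listAll L _ (fun S => sys_dio S), ?_⟩
  intro M hM v
  have h3 := h1 M v Fin.elim0
  have h4 : ∀ S ∈ L, ((¬ ∃ z : Fin k → M.C, ∀ p ∈ S, p.holds v z) ↔
      Inf k (Fin S.length ⊕ Fin k) (sysA S M v) (sysB S M v)) := by
    intro S hS
    refine sys_iff S M hM v ?_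
    intro K _ _ _ κ hκ
    obtain ⟨D', hD'⟩ := h2 M v K κ hκ 0
    exact ⟨D', fun x hx hp => hD' S hS x (fun i => i.elim0) hx hp⟩
  constructor
  · intro hsat S hS
    refine (h4 S hS).1 ?_
    rintro ⟨z, hz⟩
    exact (h3.2 ⟨z, fun i => i.elim0, S, hS, hz⟩) hsat
  · intro hR
    by_contra hns
    obtain ⟨z, _, S, hS, hz⟩ := h3.1 hns
    exact (h4 S hS).2 (hR S hS) ⟨z, hz⟩

theorem linAll_dio {m : ℕ} (φ : Fm m) (hφ : LinAll φ) :
    ∀ {α : Type} (ρ : Fin m → Tm α), ∃ R : ∀ M : Mdl, (α → M.C) → Prop, Dio R ∧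
      ∀ (M : Mdl) (_ : ModelIE1 M.C) (v : α → M.C),
        φ.sat (fun i => (ρ i).eval v) ↔ R M v := by
  induction hφ with
  | block φ h => exact fun ρ => block_dio φ h ρ
  | one t θ h =>
      intro α ρ
      exact ⟨_, Dio.oneAll _ (OneAll.allB t θ h) ρ, fun M _ v => Iff.rfl⟩
  | and φ ψ h₁ h₂ ih₁ ih₂ =>
      intro α ρ
      obtain ⟨R, h1, h2⟩ := ih₁ ρ
      obtain ⟨S, h3, h4⟩ := ih₂ ρ
      exact ⟨_, h1.and h3, fun M hM v => and_congr (h2 M hM v) (h4 M hM v)⟩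
  | or φ ψ h₁ h₂ ih₁ ih₂ =>
      intro α ρ
      obtain ⟨R, h1, h2⟩ := ih₁ ρ
      obtain ⟨S, h3, h4⟩ := ih₂ ρ
      exact ⟨_, h1.or h3, fun M hM v => or_congr (h2 M hM v) (h4 M hM v)⟩
  | ex φ h ih =>
      intro α ρ
      obtain ⟨R, h1, h2⟩ := ih (Fin.cons (.var none) (fun i => up (ρ i)))
      refine ⟨_, h1.ex, fun M hM v => exists_congr fun x => ?_⟩
      rw [← h2 M hM]
      simp only [← cons_eval, eval_up, Tm.eval, Option.elim_none]
  | exB t φ h ih =>
      intro α ρ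
      obtain ⟨R, h1, h2⟩ := ih (Fin.cons (.var none) (fun i => up (ρ i)))
      refine ⟨_, ((Dio.lt (.var none) (up (t.subst ρ))).and h1).ex, fun M hM v =>
        exists_congr fun x => and_congr ?_ ?_⟩
      · simp only [eval_up, Tm.eval, Option.elim_none, Tm.eval_subst]
      · rw [← h2 M hM]
        simp only [← cons_eval, eval_up, Tm.eval, Option.elim_none]

end Pool.Agent.Lib.P28F
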