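import Pool.Agent.Lib.P28F.ShortM
import Pool.Agent.Lib.P28F.Bez
import Pool.Agent.Lib.P28F.Frac

/-!
# Module P28F.MkIP: every model of IE₁ has a field with integer part

PROOF. `exists_frac (ZM M)`, `ZM.bez`, `ZM.short`, `ZM.one_le`, and the floor: x * c b = c a,
0 < b, `ZM.floor M a b`: q b ≤ a < (q + 1) b, so c q ≤ x < c q + 1.
-/

set_option autoImplicit false

namespace Pool.Agent.Lib.P28F

open Pool.Agent.Lib.P28b

theorem exists_intPart (M : Mdl) (hM : ModelIE1 M.C) :
    ∃ (K : Type) (_ : Field K) (_ : LinearOrder K) (_ : IsStrictOrderedRing K)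
      (c : ZM M →+* K), IntPart c := by
  obtain ⟨K, h1, h2, h3, c, h4, h5⟩ := exists_frac (ZM M)
  have hI' : ∀ a b : ZM M, c a ≤ c b ↔ a ≤ b := by
    intro a b
    constructor
    · intro h
      by_contra h'
      exact absurd (h4 _ _ (not_le.1 h')) (not_lt.2 h)
    · intro h
      rcases h.lt_or_eq with h | h
      · exact (h4 _ _ h).le
      · rw [h]
  refine ⟨K, h1, h2, h3, c, ⟨h4, h5, ?_, fun z => ZM.one_le, ZM.bez M hM, ?_⟩⟩
  · intro x
    obtain ⟨a, b, hb, hx⟩ := h5 x
    obtain ⟨q, hq1, hq2⟩ := ZM.floor M a b hb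
    have hb' : (0 : K) < c b := by
      have := h4 _ _ hb
      rwa [map_zero] at this
    refine ⟨q, ?_, ?_⟩
    · have h6 : c q * c b ≤ x * c b := by
        rw [hx, ← map_mul]
        exact (hI' _ _).2 hq1
      exact le_of_mul_le_mul_right h6 hb'
    · have h6 : x * c b < (c q + 1) * c b := by
        rw [hx, ← map_one c, ← map_add, ← map_mul]
        exact h4 _ _ hq2
      exact lt_of_mul_lt_mul_right h6 hb'.le
  · intro n ι _ A hA
    exact ZM.short M hM n ι A hA

end Pool.Agent.Lib.P28F
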