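import Pool.Agent.Lib.P28F.Affine

/-!
# Module P28F.QDnf: disjunctive normal form of affine quantifier-free formulas

PROOF by induction on θ (the case distinction of `QLin`), for θ and ¬ θ together. Let f, g be the
linear forms of the terms s, t (`exists_lf`). s < t: L = [[(f.succ, g)]] (`Lf.eval_succ`,
a < b ↔ a + 1 ≤ b by `add_one_le M.io`, `lt_add_one'` of P28b.Open), L' = [[(g, f)]]
(¬ a < b ↔ b ≤ a). s = t: L = [[(f, g), (g, f)]], L' = [[(f.succ, g)], [(g.succ, f)]].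
not: exchange. and: L = all S ++ S' (S ∈ L₁, S' ∈ L₂, `List.flatMap`/`List.product`), L' = L₁' ++
L₂'. or: the other way round. ex, all, exB, allB: QLin is False.
-/

set_option autoImplicit false
set_option linter.unusedSectionVars false

namespace Pool.Agent.Lib.P28F

open Pool.Agent.Lib.P28b

/-- Linear inequalities: the first form is at most the second one. -/
def Con (α : Type) (k : ℕ) : Type := Lf α k × Lf α k

/-- Validity of an inequality in the model. -/
def Con.holds {α : Type} {k : ℕ} {M : Type} [CommSemiring M] [LE M] (p : Con α k) (v : α → M)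
    (z : Fin k → M) : Prop := p.1.eval v z ≤ p.2.eval v z

/-- Validity of an inequality for a point over a larger ring. -/
def Con.holdsK {α : Type} {k : ℕ} {M K : Type} [CommSemiring M] [CommSemiring K] [LE K]
    (κ : M →+* K) (p : Con α k) (v : α → M) (x : Fin k → K) : Prop :=
  p.1.evalK κ v x ≤ p.2.evalK κ v x

namespace QDnfAux

theorem mem_prod {β : Type} (L₁ L₂ : List (List β)) (P : β → Prop) :
    (∃ S ∈ L₁.flatMap (fun S => L₂.map (fun S' => S ++ S')), ∀ p ∈ S, P p) ↔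
      (∃ S ∈ L₁, ∀ p ∈ S, P p) ∧ (∃ S ∈ L₂, ∀ p ∈ S, P p) := by
  constructor
  · rintro ⟨S, hS, hp⟩
    obtain ⟨S₁, h₁, h₂⟩ := List.mem_flatMap.1 hS
    obtain ⟨S₂, h₃, rfl⟩ := List.mem_map.1 h₂
    exact ⟨⟨S₁, h₁, fun p hp' => hp p (List.mem_append.2 (Or.inl hp'))⟩,
      ⟨S₂, h₃, fun p hp' => hp p (List.mem_append.2 (Or.inr hp'))⟩⟩
  · rintro ⟨⟨S₁, h₁, hp₁⟩, ⟨S₂, h₂, hp₂⟩⟩
    refine ⟨S₁ ++ S₂, List.mem_flatMap.2 ⟨S₁, h₁, List.mem_map.2 ⟨S₂, h₂, rfl⟩⟩, ?_⟩
    intro p hp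
    rcases List.mem_append.1 hp with h | h
    · exact hp₁ p h
    · exact hp₂ p h

theorem mem_app {β : Type} (L₁ L₂ : List (List β)) (P : β → Prop) :
    (∃ S ∈ L₁ ++ L₂, ∀ p ∈ S, P p) ↔
      (∃ S ∈ L₁, ∀ p ∈ S, P p) ∨ (∃ S ∈ L₂, ∀ p ∈ S, P p) := by
  constructor
  · rintro ⟨S, hS, hp⟩
    rcases List.mem_append.1 hS with h | h
    · exact Or.inl ⟨S, h, hp⟩
    · exact Or.inr ⟨S, h, hp⟩
  · rintro (⟨S, hS, hp⟩ | ⟨S, hS, hp⟩)
    · exact ⟨S, List.mem_append.2 (Or.inl hS), hp⟩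
    · exact ⟨S, List.mem_append.2 (Or.inr hS), hp⟩

theorem succ_le_iff (M : Mdl) {a b : M.C} : a + 1 ≤ b ↔ a < b :=
  ⟨fun h => lt_of_lt_of_le (lt_add_one' a) h, fun h => add_one_le M.io h⟩

end QDnfAux

theorem qdnf {α : Type} {m k : ℕ} (E : Fin m → Tm α ⊕ Fin k) (θ : Fm m)
    (hθ : QLin (fun i => (E i).isRight) θ) :
    ∃ L L' : List (List (Con α k)), ∀ (M : Mdl) (v : α → M.C) (z : Fin k → M.C),
      (θ.sat (env E v z) ↔ ∃ S ∈ L, ∀ p ∈ S, p.holds v z) ∧
      (¬ θ.sat (env E v z) ↔ ∃ S ∈ L', ∀ p ∈ S, p.holds v z) := by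
  induction θ with
  | lt s t =>
    obtain ⟨f, hf⟩ := exists_lf E s hθ.1
    obtain ⟨g, hg⟩ := exists_lf E t hθ.2
    refine ⟨[[(f.succ, g)]], [[(g, f)]], fun M v z => ?_⟩
    have h1 : Fm.sat (Fm.lt s t) (env E v z) ↔ f.eval v z < g.eval v z := by
      show s.eval (env E v z) < t.eval (env E v z) ↔ _
      rw [hf, hg]
    constructor
    · rw [h1, ← QDnfAux.succ_le_iff M, ← Lf.eval_succ]
      constructor
      · intro h
        refine ⟨[(f.succ, g)], List.mem_singleton.2 rfl, ?_⟩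
        intro p hp
        rw [List.mem_singleton.1 hp]
        exact h
      · rintro ⟨S, hS, hp⟩
        rw [List.mem_singleton.1 hS] at hp
        exact hp _ (List.mem_singleton.2 rfl)
    · rw [h1, not_lt]
      constructor
      · intro h
        refine ⟨[(g, f)], List.mem_singleton.2 rfl, ?_⟩
        intro p hp
        rw [List.mem_singleton.1 hp]
        exact h
      · rintro ⟨S, hS, hp⟩
        rw [List.mem_singleton.1 hS] at hp
        exact hp _ (List.mem_singleton.2 rfl)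
  | eq s t =>
    obtain ⟨f, hf⟩ := exists_lf E s hθ.1
    obtain ⟨g, hg⟩ := exists_lf E t hθ.2
    refine ⟨[[(f, g), (g, f)]], [[(f.succ, g)], [(g.succ, f)]], fun M v z => ?_⟩
    have h1 : Fm.sat (Fm.eq s t) (env E v z) ↔ f.eval v z = g.eval v z := by
      show s.eval (env E v z) = t.eval (env E v z) ↔ _
      rw [hf, hg]
    constructor
    · rw [h1]
      constructor
      · intro h
        refine ⟨[(f, g), (g, f)], List.mem_singleton.2 rfl, ?_⟩
        intro p hp
        rcases List.mem_cons.1 hp with rfl | hp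
        · exact h.le
        · rw [List.mem_singleton.1 hp]
          exact h.ge
      · rintro ⟨S, hS, hp⟩
        rw [List.mem_singleton.1 hS] at hp
        exact le_antisymm (hp _ (List.mem_cons.2 (Or.inl rfl)))
          (hp _ (List.mem_cons.2 (Or.inr (List.mem_singleton.2 rfl))))
    · rw [h1]
      constructor
      · intro h
        rcases lt_or_gt_of_ne h with h2 | h2
        · refine ⟨[(f.succ, g)], List.mem_cons.2 (Or.inl rfl), ?_⟩
          intro p hp
          rw [List.mem_singleton.1 hp]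
          show f.succ.eval v z ≤ g.eval v z
          rw [Lf.eval_succ]
          exact (QDnfAux.succ_le_iff M).2 h2
        · refine ⟨[(g.succ, f)], List.mem_cons.2 (Or.inr (List.mem_singleton.2 rfl)), ?_⟩
          intro p hp
          rw [List.mem_singleton.1 hp]
          show g.succ.eval v z ≤ f.eval v z
          rw [Lf.eval_succ]
          exact (QDnfAux.succ_le_iff M).2 h2
      · rintro ⟨S, hS, hp⟩
        rcases List.mem_cons.1 hS with rfl | hS
        · have h2 : f.succ.eval v z ≤ g.eval v z := hp _ (List.mem_singleton.2 rfl)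
          rw [Lf.eval_succ] at h2
          exact ((QDnfAux.succ_le_iff M).1 h2).ne
        · rw [List.mem_singleton.1 hS] at hp
          have h2 : g.succ.eval v z ≤ f.eval v z := hp _ (List.mem_singleton.2 rfl)
          rw [Lf.eval_succ] at h2
          exact ((QDnfAux.succ_le_iff M).1 h2).ne'
  | not φ ih =>
    obtain ⟨L, L', h⟩ := ih E hθ
    refine ⟨L', L, fun M v z => ⟨(h M v z).2, ?_⟩⟩
    show ¬ ¬ φ.sat (env E v z) ↔ _
    rw [not_not]
    exact (h M v z).1
  | and φ ψ ih₁ ih₂ =>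
    obtain ⟨L₁, L₁', h₁⟩ := ih₁ E hθ.1
    obtain ⟨L₂, L₂', h₂⟩ := ih₂ E hθ.2
    refine ⟨L₁.flatMap (fun S => L₂.map (fun S' => S ++ S')), L₁' ++ L₂', fun M v z => ⟨?_, ?_⟩⟩
    · rw [QDnfAux.mem_prod L₁ L₂ (fun p => p.holds v z), ← (h₁ M v z).1, ← (h₂ M v z).1]
      rfl
    · rw [QDnfAux.mem_app L₁' L₂' (fun p => p.holds v z), ← (h₁ M v z).2, ← (h₂ M v z).2]
      show ¬ (φ.sat (env E v z) ∧ ψ.sat (env E v z)) ↔ _
      exact not_and_or
  | or φ ψ ih₁ ih₂ =>
    obtain ⟨L₁, L₁', h₁⟩ := ih₁ E hθ.1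
    obtain ⟨L₂, L₂', h₂⟩ := ih₂ E hθ.2
    refine ⟨L₁ ++ L₂, L₁'.flatMap (fun S => L₂'.map (fun S' => S ++ S')), fun M v z => ⟨?_, ?_⟩⟩
    · rw [QDnfAux.mem_app L₁ L₂ (fun p => p.holds v z), ← (h₁ M v z).1, ← (h₂ M v z).1]
      rfl
    · rw [QDnfAux.mem_prod L₁' L₂' (fun p => p.holds v z), ← (h₁ M v z).2, ← (h₂ M v z).2]
      show ¬ (φ.sat (env E v z) ∨ ψ.sat (env E v z)) ↔ _
      exact not_or
  | ex φ ih => exact hθ.elim
  | all φ ih => exact hθ.elim
  | exB t φ ih => exact hθ.elim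
  | allB t φ ih => exact hθ.elim

end Pool.Agent.Lib.P28F
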