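import Mathlib

/-!
# Module P28F.Quot: quotients of polyhedral norms

For a matrix A over an ordered field the norm max_i |(A z) i| on K^(n+1) has the quotient norm
y ↦ min_t max_i |(A (t, y)) i| on K^n, and it is max over pairs of |(quot A y) (i, j)|.

PROOFS. Write α i = A i 0, β i = ∑ l, A i l.succ * y l, so (A (Fin.cons t y)) i = α i * t + β i
and (quot A y)(i, j) = (α i β j - α j β i)/(|α i| + |α j|) (0 if the denominator is 0, by x/0 = 0).
`quot_le`: α i β j - α j β i = α i (α j t + β j) - α j (α i t + β i), of absolute value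
≤ |α i| r + |α j| r; divide (if the denominator is 0 the value is 0 ≤ r, r ≥ 0 from hypothesis h
at the index i).
`quot_ex`: r ≥ 0 (the hypothesis h at one index: |..| ≤ r). If α i = 0 for all i except that some
α j ≠ 0 exists by `h0`. For i with α i = 0 the pair (j, i) gives |α j β i|/|α j| = |β i| ≤ r.
For i with α i ≠ 0 put lo i = -β i/α i - r/|α i|, hi i = -β i/α i + r/|α i|. For i, j with
α i, α j ≠ 0: lo i ≤ hi j, because β j/α j - β i/α i = (α i β j - α j β i)/(α i α j) and
|α i β j - α j β i| ≤ r (|α i| + |α j|), so it is ≤ r/|α i| + r/|α j|. Take t = the maximum of the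
lo i over the i with α i ≠ 0 (`Finset.exists_max_image` on `Finset.univ.filter`). Then
lo i ≤ t ≤ hi i, i.e. |t + β i/α i| ≤ r/|α i|, |α i t + β i| ≤ r.
`quot_ker`: if quot A y = 0 then by `quot_ex` with r = 0 there is t with A (cons t y) = 0, so
cons t y = 0 and y = 0. The hypothesis `h0` holds since otherwise A e₀ = 0.
-/

set_option autoImplicit false

namespace Pool.Agent.Lib.P28F

open Matrix

/-- The matrix of the quotient norm. -/
def quot {K : Type} [Field K] [LinearOrder K] {ι : Type} {n : ℕ}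
    (A : Matrix ι (Fin (n + 1)) K) : Matrix (ι × ι) (Fin n) K :=
  fun p l => (A p.1 0 * A p.2 l.succ - A p.2 0 * A p.1 l.succ) / (|A p.1 0| + |A p.2 0|)

section

variable {K : Type} [Field K] [LinearOrder K] [IsStrictOrderedRing K] {ι : Type} [Fintype ι]
  {n : ℕ}

omit [LinearOrder K] [IsStrictOrderedRing K] [Fintype ι] in
private theorem cons_apply (A : Matrix ι (Fin (n + 1)) K) (t : K) (y : Fin n → K) (i : ι) :
    (A *ᵥ (Fin.cons t y : Fin (n + 1) → K)) i = A i 0 * t + ∑ l : Fin n, A i l.succ * y l := by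
  simp only [Matrix.mulVec, dotProduct, Fin.sum_univ_succ, Fin.cons_zero, Fin.cons_succ]

omit [IsStrictOrderedRing K] [Fintype ι] in
private theorem quot_apply (A : Matrix ι (Fin (n + 1)) K) (y : Fin n → K) (p : ι × ι) :
    (quot A *ᵥ y) p = (A p.1 0 * (∑ l : Fin n, A p.2 l.succ * y l) -
      A p.2 0 * (∑ l : Fin n, A p.1 l.succ * y l)) / (|A p.1 0| + |A p.2 0|) := by
  simp only [Matrix.mulVec, dotProduct, quot]
  rw [Finset.mul_sum, Finset.mul_sum, ← Finset.sum_sub_distrib, Finset.sum_div]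
  refine Finset.sum_congr rfl fun l _ => ?_
  rw [div_mul_eq_mul_div]
  congr 1
  ring

theorem quot_le (A : Matrix ι (Fin (n + 1)) K) (t : K) (y : Fin n → K) (r : K)
    (h : ∀ i, |(A *ᵥ (Fin.cons t y : Fin (n + 1) → K)) i| ≤ r) :
    ∀ p, |(quot A *ᵥ y) p| ≤ r := by
  rintro ⟨i, j⟩
  rw [quot_apply]
  have hi := h i
  have hj := h j
  rw [cons_apply] at hi hj
  dsimp only
  set a := A i 0
  set b := A j 0
  set u := ∑ l : Fin n, A i l.succ * y l
  set v := ∑ l : Fin n, A j l.succ * y l
  have hr : 0 ≤ r := (abs_nonneg _).trans hi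
  have h1 : |a * v - b * u| ≤ r * (|a| + |b|) := by
    have h2 : a * v - b * u = a * (b * t + v) - b * (a * t + u) := by ring
    rw [h2]
    calc |a * (b * t + v) - b * (a * t + u)|
        ≤ |a * (b * t + v)| + |b * (a * t + u)| := abs_sub _ _
      _ = |a| * |b * t + v| + |b| * |a * t + u| := by rw [abs_mul, abs_mul]
      _ ≤ |a| * r + |b| * r :=
          add_le_add (mul_le_mul_of_nonneg_left hj (abs_nonneg _))
            (mul_le_mul_of_nonneg_left hi (abs_nonneg _))
      _ = r * (|a| + |b|) := by ring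
  have h3 : 0 ≤ |a| + |b| := add_nonneg (abs_nonneg _) (abs_nonneg _)
  rw [abs_div, abs_of_nonneg h3]
  exact div_le_of_le_mul₀ h3 hr h1

theorem quot_ex (A : Matrix ι (Fin (n + 1)) K) (h0 : ∃ i, A i 0 ≠ 0) (y : Fin n → K) (r : K)
    (h : ∀ p, |(quot A *ᵥ y) p| ≤ r) :
    ∃ t : K, ∀ i, |(A *ᵥ (Fin.cons t y : Fin (n + 1) → K)) i| ≤ r := by
  classical
  obtain ⟨i₀, hi₀⟩ := h0
  set β : ι → K := fun i => ∑ l : Fin n, A i l.succ * y l with hβ
  set α : ι → K := fun i => A i 0 with hα
  have hp : ∀ i j, |α i * β j - α j * β i| / (|α i| + |α j|) ≤ r := by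
    intro i j
    have h1 := h (i, j)
    rw [quot_apply] at h1
    dsimp only at h1
    rwa [abs_div, abs_of_nonneg (add_nonneg (abs_nonneg (A i 0)) (abs_nonneg (A j 0)))] at h1
  have hpos : ∀ i, α i ≠ 0 → 0 < |α i| := fun i hi => abs_pos.2 hi
  let lo : ι → K := fun i => -(β i / α i) - r / |α i|
  let S : Finset ι := Finset.univ.filter fun i => α i ≠ 0
  have hS : S.Nonempty := ⟨i₀, by
    rw [Finset.mem_filter]
    exact ⟨Finset.mem_univ _, hi₀⟩⟩
  obtain ⟨m, hmS, hm⟩ := Finset.exists_max_image S lo hS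
  have hm0 : α m ≠ 0 := (Finset.mem_filter.1 hmS).2
  refine ⟨lo m, fun i => ?_⟩
  rw [cons_apply]
  show |α i * lo m + β i| ≤ r
  by_cases hi : α i = 0
  · have h1 := hp i₀ i
    rw [hi, zero_mul, sub_zero, abs_zero, add_zero, abs_mul,
      mul_div_cancel_left₀ _ (hpos i₀ hi₀).ne'] at h1
    rw [hi, zero_mul, zero_add]
    exact h1
  · have h1 : lo i ≤ lo m := hm i (by
      rw [Finset.mem_filter]
      exact ⟨Finset.mem_univ _, hi⟩)
    have h2 : lo m ≤ -(β i / α i) + r / |α i| := by
      have h3 := hp m i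
      have h4 : β i / α i - β m / α m = (α m * β i - α i * β m) / (α m * α i) := by
        field_simp
      have h5 : |β i / α i - β m / α m| ≤ r / |α m| + r / |α i| := by
        rw [h4, abs_div, abs_mul, div_le_iff₀ (mul_pos (hpos m hm0) (hpos i hi))]
        rw [div_le_iff₀ (add_pos (hpos m hm0) (hpos i hi))] at h3
        refine h3.trans (le_of_eq ?_)
        have e1 := (hpos m hm0).ne'
        have e2 := (hpos i hi).ne'
        field_simp
        ring
      have h6 := (abs_le.1 h5).2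
      show -(β m / α m) - r / |α m| ≤ -(β i / α i) + r / |α i|
      linarith
    have h3 : |lo m + β i / α i| ≤ r / |α i| := by
      rw [abs_le]
      constructor
      · have h4 : -(β i / α i) - r / |α i| ≤ lo m := h1
        linarith
      · linarith
    have h4 : α i * lo m + β i = α i * (lo m + β i / α i) := by
      field_simp
    rw [h4, abs_mul]
    calc |α i| * |lo m + β i / α i| ≤ |α i| * (r / |α i|) :=
          mul_le_mul_of_nonneg_left h3 (abs_nonneg _)
      _ = r := mul_div_cancel₀ _ (hpos i hi).ne'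

omit [LinearOrder K] [IsStrictOrderedRing K] [Fintype ι] in
private theorem col_ne_aux (A : Matrix ι (Fin (n + 1)) K)
    (hA : ∀ z : Fin (n + 1) → K, A *ᵥ z = 0 → z = 0) : ∃ i, A i 0 ≠ 0 := by
  by_contra hc
  have h1 : ∀ i, A i 0 = 0 := fun i => by
    by_contra hi
    exact hc ⟨i, hi⟩
  have h2 : (Fin.cons 1 0 : Fin (n + 1) → K) = 0 := hA _ (funext fun i => by
    rw [cons_apply, h1 i, zero_mul, zero_add]
    simp)
  have h3 := congrFun h2 0
  rw [Fin.cons_zero, Pi.zero_apply] at h3
  exact one_ne_zero h3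

theorem quot_ker (A : Matrix ι (Fin (n + 1)) K)
    (hA : ∀ z : Fin (n + 1) → K, A *ᵥ z = 0 → z = 0) (y : Fin n → K) (h : quot A *ᵥ y = 0) :
    y = 0 := by
  obtain ⟨t, ht⟩ := quot_ex A (col_ne_aux A hA) y 0 (fun p => by
    rw [h, Pi.zero_apply, abs_zero])
  have h1 : (Fin.cons t y : Fin (n + 1) → K) = 0 := hA _ (funext fun i =>
    abs_eq_zero.1 (le_antisymm (ht i) (abs_nonneg _)))
  funext l
  have h2 := congrFun h1 l.succ
  rwa [Fin.cons_succ] at h2

theorem col_ne (A : Matrix ι (Fin (n + 1)) K)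
    (hA : ∀ z : Fin (n + 1) → K, A *ᵥ z = 0 → z = 0) : ∃ i, A i 0 ≠ 0 :=
  col_ne_aux A hA

end

end Pool.Agent.Lib.P28F
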