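import Pool.Agent.Lib.P28F.Defs

/-!
# Module P28F.ShortK: shortest vectors for matrices with entries in the field

PROOF. `hI.frac` and finiteness: there are D > 0 in Z and an integer matrix A' with
A i l * c D = c (A' i l) for all i, l (D = product of the denominators; or induct over the finite
set of entries with common denominators). A' has trivial kernel over Z: if A' z = 0 then
A (c ∘ z) = 0 (c D ≠ 0), so c ∘ z = 0 and z = 0. Let b be the vector of
`hI.short n ι A' _`. For z ≠ 0, r with |(A (c ∘ z)) i| ≤ r: let N be the floor of r * c D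
(`hI.floor`): |(A' z) i| is an integer (element of Z) with c |(A' z) i| = |(A (c∘z)) i| * c D
≤ r * c D < c N + 1, so |(A' z) i| < N + 1, and |(A' z) i| ≤ N by discreteness
(`hI.one_le`: 0 < N + 1 - x → 1 ≤ N + 1 - x). Then |(A' b) i| ≤ N, and
|(A (c ∘ b)) i| * c D = c |(A' b) i| ≤ c N ≤ r * c D. `map_abs`-type facts: c |x| = |c x| since c
is monotone (`hI.le_iff`; cases on the sign).
-/

set_option autoImplicit false

namespace Pool.Agent.Lib.P28F

open Matrix

namespace ShortKAux

variable {Z K : Type} [CommRing Z] [LinearOrder Z] [IsStrictOrderedRing Z]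
  [Field K] [LinearOrder K] [IsStrictOrderedRing K] {c : Z →+* K}

theorem pos (hI : IntPart c) {a : Z} (h : 0 < a) : 0 < c a := by
  have h1 := hI.lt 0 a h
  rwa [map_zero] at h1

theorem abs_eq (hI : IntPart c) (x : Z) : c |x| = |c x| := by
  rcases le_total 0 x with h | h
  · have h1 : 0 ≤ c x := by
      rw [← map_zero c]
      exact hI.le_iff.2 h
    rw [abs_of_nonneg h, abs_of_nonneg h1]
  · have h1 : c x ≤ 0 := by
      rw [← map_zero c]
      exact hI.le_iff.2 h
    rw [abs_of_nonpos h, abs_of_nonpos h1, map_neg]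

/-- A common denominator of finitely many elements. -/
theorem common (hI : IntPart c) {κ : Type} (s : Finset κ) (x : κ → K) :
    ∃ D : Z, 0 < D ∧ ∀ i ∈ s, ∃ a : Z, x i * c D = c a := by
  classical
  induction s using Finset.induction_on with
  | empty => exact ⟨1, one_pos, fun i hi => absurd hi (Finset.notMem_empty i)⟩
  | insert j s hj ih =>
      obtain ⟨D, hD, h⟩ := ih
      obtain ⟨a, b, hb, hab⟩ := hI.frac (x j)
      refine ⟨D * b, mul_pos hD hb, fun i hi => ?_⟩
      rcases Finset.mem_insert.1 hi with rfl | hi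
      · refine ⟨D * a, ?_⟩
        rw [map_mul, map_mul, ← hab]
        ring
      · obtain ⟨e, he⟩ := h i hi
        refine ⟨e * b, ?_⟩
        rw [map_mul, map_mul, ← he]
        ring

theorem exists_den (hI : IntPart c) {κ ι : Type} [Fintype κ] [Fintype ι] (A : Matrix ι κ K) :
    ∃ (D : Z) (A' : Matrix ι κ Z), 0 < D ∧ ∀ i l, A i l * c D = c (A' i l) := by
  obtain ⟨D, hD, h⟩ := common hI (Finset.univ : Finset (ι × κ)) (fun p => A p.1 p.2)
  choose a ha using h
  exact ⟨D, fun i l => a (i, l) (Finset.mem_univ _), hD,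
    fun i l => ha (i, l) (Finset.mem_univ _)⟩

end ShortKAux

theorem exists_short {Z K : Type} [CommRing Z] [LinearOrder Z] [IsStrictOrderedRing Z]
    [Field K] [LinearOrder K] [IsStrictOrderedRing K] {c : Z →+* K} (hI : IntPart c)
    {n : ℕ} {ι : Type} [Fintype ι] (A : Matrix ι (Fin (n + 1)) K)
    (hA : ∀ z : Fin (n + 1) → K, A *ᵥ z = 0 → z = 0) :
    ∃ b : Fin (n + 1) → Z, b ≠ 0 ∧ ∀ z : Fin (n + 1) → Z, z ≠ 0 → ∀ r : K,
      (∀ i, |(A *ᵥ (c ∘ z)) i| ≤ r) → ∀ i, |(A *ᵥ (c ∘ b)) i| ≤ r := by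
  obtain ⟨D, A', hD, hA'⟩ := ShortKAux.exists_den hI A
  have hcD : 0 < c D := ShortKAux.pos hI hD
  have key : ∀ (z : Fin (n + 1) → Z) (i : ι), (A *ᵥ (c ∘ z)) i * c D = c ((A' *ᵥ z) i) := by
    intro z i
    rw [comp_mulVec_apply]
    simp only [Matrix.mulVec, dotProduct, Matrix.map_apply]
    rw [Finset.sum_mul]
    refine Finset.sum_congr rfl fun l _ => ?_
    rw [← hA' i l]
    ring
  have key2 : ∀ (z : Fin (n + 1) → Z) (i : ι),
      |(A *ᵥ (c ∘ z)) i| * c D = c |(A' *ᵥ z) i| := by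
    intro z i
    rw [ShortKAux.abs_eq hI, ← key z i, abs_mul, abs_of_pos hcD]
  have hker : ∀ z : Fin (n + 1) → Z, A' *ᵥ z = 0 → z = 0 := by
    intro z hz
    have h1 : A *ᵥ (c ∘ z) = 0 := by
      funext i
      have h2 := key z i
      rw [hz, Pi.zero_apply, map_zero] at h2
      exact (mul_eq_zero.1 h2).resolve_right hcD.ne'
    have h2 := hA _ h1
    funext l
    have h3 := congrFun h2 l
    rw [Function.comp_apply, Pi.zero_apply, ← map_zero c] at h3
    exact hI.inj.1 h3
  obtain ⟨b, hb, hmin⟩ := hI.short n ι A' hker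
  refine ⟨b, hb, fun z hz r hr i => ?_⟩
  obtain ⟨N, hN1, hN2⟩ := hI.floor (r * c D)
  have h1 : ∀ j, |(A' *ᵥ z) j| ≤ N := by
    intro j
    have h2 : c |(A' *ᵥ z) j| < c (N + 1) := by
      rw [← key2 z j, map_add, map_one]
      exact lt_of_le_of_lt (mul_le_mul_of_nonneg_right (hr j) hcD.le) hN2
    have h3 : |(A' *ᵥ z) j| < N + 1 := hI.lt_iff.1 h2
    have h4 := hI.one_le (N + 1 - |(A' *ᵥ z) j|) (sub_pos.2 h3)
    linarith
  have h2 := hmin z hz N h1 i
  have h3 : |(A *ᵥ (c ∘ b)) i| * c D ≤ r * c D := by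
    rw [key2 b i]
    exact (hI.le_iff.2 h2).trans hN1
  exact le_of_mul_le_mul_right h3 hcD

end Pool.Agent.Lib.P28F
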