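import Pool.Agent.Lib.P28F.EB
import Pool.Agent.Lib.P28F.Left

/-!
# Module P28F.ShortM: shortest vectors in models of IE₁

PROOF. Let `N₀ ≥ 0` bound `|(A e) i|` for a fixed nonzero vector e, e.g. `Pi.single 0 1`
(N₀ = sum of the absolute values). By `exists_left A hA`: L, d with L (A z) = d z, d > 0, so d ≥ 1
(`ZM.one_le`), hence for every z with |A z| ≤ N, N ≤ N₀:
|z l| ≤ |d z l| = |(L (A z)) l| ≤ (∑ |L l i|) N₀ =: bound; let T be an element of M with
`of M T > bound` for all l. So z = y⁺ - y⁻ with y⁺ l, y⁻ l < T in M (take the positive and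
negative part, `exists_of`).
Consider the relation R on N ∈ M: there are y⁺, y⁻ : Fin (n+1) → M, all values < T, such that
(y⁺ ≠ y⁻) and for all i, |A (y⁺ - y⁻)| i ≤ N. It is bounded existential with parameters (T, the
entries of A written as differences of elements of M): use `EB.exs` with
`γ = Fin (n+1) ⊕ Fin (n+1)` and finite conjunctions/disjunctions (over `Finset.univ.toList` or
`Fintype` induction) of inequalities of terms: with A i l = mk (P i l) (Q i l), the inequality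
(A z) i ≤ N is ∑ (P y⁺ + Q y⁻) ≤ N + ∑ (P y⁻ + Q y⁺) in M (by `mk_le`, `mk_add`, `mk_mul` or by
`of_le` and a ring computation), similarly -(A z) i ≤ N. R holds for N₀ (vector e).
Let N be least (`EB.lnp hM`), b = the vector y⁺ - y⁻. For z ≠ 0 and N' with |A z| ≤ N': then
N' ≥ 0; if N' ≤ N₀ then R(N') (N' = of M _, z in the box), so N ≤ N'; if N' > N₀ then N ≤ N₀ < N'.
So |A b| ≤ N ≤ N'.
-/

set_option autoImplicit false

namespace Pool.Agent.Lib.P28F

open Pool.Agent.Lib.P28b Matrix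

namespace ShortMAux

/-- Finite sums of terms. -/
theorem exists_sum {α K : Type} [CommSemiring K] {k : ℕ} (s : Fin k → Tm α) :
    ∃ t : Tm α, ∀ v : α → K, t.eval v = ∑ l, (s l).eval v := by
  induction k with
  | zero => exact ⟨Tm.zero, fun v => by simp [Tm.eval]⟩
  | succ k ih =>
    obtain ⟨t, ht⟩ := ih (fun l => s l.succ)
    refine ⟨Tm.add (s 0) t, fun v => ?_⟩
    rw [Fin.sum_univ_succ, ← ht v]
    rfl

/-- The type of the parameters. -/
abbrev PT (ι : Type) (n : ℕ) : Type := Option ((ι × Fin (n + 1)) ⊕ (ι × Fin (n + 1)))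

/-- The bounded variables. -/
abbrev VT (n : ℕ) : Type := Fin (n + 1) ⊕ Fin (n + 1)

/-- The relation without its quantifiers. -/
def rel {ι K : Type} [CommSemiring K] [LinearOrder K] (n : ℕ)
    (w : Option (PT ι n) ⊕ VT n → K) : Prop :=
  (∃ l : Fin (n + 1), w (Sum.inr (Sum.inl l)) ≠ w (Sum.inr (Sum.inr l))) ∧
  (∀ i : ι, (∑ l, (w (Sum.inl (some (some (Sum.inl (i, l))))) * w (Sum.inr (Sum.inl l)) +
      w (Sum.inl (some (some (Sum.inr (i, l))))) * w (Sum.inr (Sum.inr l)))) ≤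
    w (Sum.inl none) + ∑ l, (w (Sum.inl (some (some (Sum.inl (i, l))))) * w (Sum.inr (Sum.inr l)) +
      w (Sum.inl (some (some (Sum.inr (i, l))))) * w (Sum.inr (Sum.inl l)))) ∧
  (∀ i : ι, (∑ l, (w (Sum.inl (some (some (Sum.inl (i, l))))) * w (Sum.inr (Sum.inr l)) +
      w (Sum.inl (some (some (Sum.inr (i, l))))) * w (Sum.inr (Sum.inl l)))) ≤
    w (Sum.inl none) + ∑ l, (w (Sum.inl (some (some (Sum.inl (i, l))))) * w (Sum.inr (Sum.inl l)) +
      w (Sum.inl (some (some (Sum.inr (i, l))))) * w (Sum.inr (Sum.inr l))))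

theorem rel_qb {ι K : Type} [Finite ι] [CommSemiring K] [LinearOrder K] [IsStrictOrderedRing K]
    (n : ℕ) : QB (fun w : Option (PT ι n) ⊕ VT n → K => rel n w) := by
  refine QB.and _ _ ?_ (QB.and _ _ ?_ ?_)
  · refine QB.exFin _ (fun l => ?_)
    exact QB.not _ (QB.eq (Tm.var (Sum.inr (Sum.inl l))) (Tm.var (Sum.inr (Sum.inr l))))
  · refine QB.allFin _ (fun i => ?_)
    obtain ⟨t1, h1⟩ := exists_sum (K := K) (fun l : Fin (n + 1) =>
      Tm.add (Tm.mul (Tm.var (Sum.inl (some (some (Sum.inl (i, l))))))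
          (Tm.var (Sum.inr (Sum.inl l))))
        (Tm.mul (Tm.var (Sum.inl (some (some (Sum.inr (i, l))))))
          (Tm.var (α := Option (PT ι n) ⊕ VT n) (Sum.inr (Sum.inr l)))))
    obtain ⟨t2, h2⟩ := exists_sum (K := K) (fun l : Fin (n + 1) =>
      Tm.add (Tm.mul (Tm.var (Sum.inl (some (some (Sum.inl (i, l))))))
          (Tm.var (Sum.inr (Sum.inr l))))
        (Tm.mul (Tm.var (Sum.inl (some (some (Sum.inr (i, l))))))
          (Tm.var (α := Option (PT ι n) ⊕ VT n) (Sum.inr (Sum.inl l)))))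
    refine QB.congr (QB.le t1 (Tm.add (Tm.var (Sum.inl none)) t2)) (fun v => ?_)
    show t1.eval v ≤ v (Sum.inl none) + t2.eval v ↔ _
    rw [h1 v, h2 v]
    rfl
  · refine QB.allFin _ (fun i => ?_)
    obtain ⟨t1, h1⟩ := exists_sum (K := K) (fun l : Fin (n + 1) =>
      Tm.add (Tm.mul (Tm.var (Sum.inl (some (some (Sum.inl (i, l))))))
          (Tm.var (Sum.inr (Sum.inl l))))
        (Tm.mul (Tm.var (Sum.inl (some (some (Sum.inr (i, l))))))
          (Tm.var (α := Option (PT ι n) ⊕ VT n) (Sum.inr (Sum.inr l)))))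
    obtain ⟨t2, h2⟩ := exists_sum (K := K) (fun l : Fin (n + 1) =>
      Tm.add (Tm.mul (Tm.var (Sum.inl (some (some (Sum.inl (i, l))))))
          (Tm.var (Sum.inr (Sum.inr l))))
        (Tm.mul (Tm.var (Sum.inl (some (some (Sum.inr (i, l))))))
          (Tm.var (α := Option (PT ι n) ⊕ VT n) (Sum.inr (Sum.inl l)))))
    refine QB.congr (QB.le t2 (Tm.add (Tm.var (Sum.inl none)) t1)) (fun v => ?_)
    show t2.eval v ≤ v (Sum.inl none) + t1.eval v ↔ _
    rw [h1 v, h2 v]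
    rfl

/-- The relation of `N` (variable `none`), the bound (`some none`) and the entries. -/
def Rl {ι K : Type} [CommSemiring K] [LinearOrder K] (n : ℕ) (v : Option (PT ι n) → K) : Prop :=
  ∃ y : VT n → K, (∀ g, y g < v (some none)) ∧ rel n (Sum.elim v y)

theorem Rl_eb {ι K : Type} [Finite ι] [CommSemiring K] [LinearOrder K] [IsStrictOrderedRing K]
    (n : ℕ) : EB (fun v : Option (PT ι n) → K => Rl n v) :=
  EB.exs (Tm.var (some none)) (EB.qb _ (rel_qb n))

/-- The parameters of a matrix. -/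
def par {ι K : Type} {n : ℕ} (T : K) (P Q : ι → Fin (n + 1) → K) : PT ι n → K
  | none => T
  | some (Sum.inl (i, l)) => P i l
  | some (Sum.inr (i, l)) => Q i l

/-- The relation in terms of integer vectors. -/
theorem Rl_iff {M : Mdl} {ι : Type} {n : ℕ} (T N : M.C) (P Q : ι → Fin (n + 1) → M.C) :
    Rl n (fun o => o.elim N (par T P Q)) ↔
      ∃ y₁ y₂ : Fin (n + 1) → M.C, (∀ l, y₁ l < T) ∧ (∀ l, y₂ l < T) ∧
        (∃ l, of M (y₁ l) - of M (y₂ l) ≠ 0) ∧
        ∀ i, |∑ l, (of M (P i l) - of M (Q i l)) * (of M (y₁ l) - of M (y₂ l))| ≤ of M N := by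
  have key : ∀ (y₁ y₂ : Fin (n + 1) → M.C) (i : ι),
      (|∑ l, (of M (P i l) - of M (Q i l)) * (of M (y₁ l) - of M (y₂ l))| ≤ of M N) ↔
      (∑ l, (P i l * y₁ l + Q i l * y₂ l) ≤ N + ∑ l, (P i l * y₂ l + Q i l * y₁ l)) ∧
      (∑ l, (P i l * y₂ l + Q i l * y₁ l) ≤ N + ∑ l, (P i l * y₁ l + Q i l * y₂ l)) := by
    intro y₁ y₂ i
    have h1 : ∑ l, (of M (P i l) - of M (Q i l)) * (of M (y₁ l) - of M (y₂ l)) =
        of M (∑ l, (P i l * y₁ l + Q i l * y₂ l)) - of M (∑ l, (P i l * y₂ l + Q i l * y₁ l)) := by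
      rw [map_sum, map_sum, ← Finset.sum_sub_distrib]
      refine Finset.sum_congr rfl (fun l _ => ?_)
      simp only [map_add, map_mul]
      ring
    rw [h1, abs_le, ← of_le, ← of_le, map_add, map_add]
    constructor
    · rintro ⟨h2, h3⟩
      exact ⟨by linarith, by linarith⟩
    · rintro ⟨h2, h3⟩
      exact ⟨by linarith, by linarith⟩
  have hne : ∀ a b : M.C, of M a - of M b ≠ 0 ↔ a ≠ b := by
    intro a b
    rw [Ne, sub_eq_zero, of_inj]
  constructor
  · rintro ⟨y, hy, h1, h2, h3⟩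
    refine ⟨fun l => y (Sum.inl l), fun l => y (Sum.inr l), fun l => hy _, fun l => hy _, ?_, ?_⟩
    · obtain ⟨l, hl⟩ := h1
      exact ⟨l, (hne _ _).2 hl⟩
    · intro i
      exact (key _ _ i).2 ⟨h2 i, h3 i⟩
  · rintro ⟨y₁, y₂, hy₁, hy₂, ⟨l, hl⟩, h⟩
    refine ⟨Sum.elim y₁ y₂, ?_, ⟨l, (hne _ _).1 hl⟩, fun i => ((key y₁ y₂ i).1 (h i)).1,
      fun i => ((key y₁ y₂ i).1 (h i)).2⟩
    rintro (g | g)
    · exact hy₁ g
    · exact hy₂ g

/-- Elements of a box are differences of elements below the bound. -/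
theorem box {M : Mdl} (T : M.C) (z : ZM M) (h : |z| < of M T) :
    ∃ a b : M.C, a < T ∧ b < T ∧ z = of M a - of M b := by
  have hT : (0 : M.C) < T := by
    have := lt_of_le_of_lt (abs_nonneg z) h
    rwa [← map_zero (of M), of_lt] at this
  rcases le_total 0 z with hz | hz
  · obtain ⟨a, rfl⟩ := exists_of hz
    refine ⟨a, 0, ?_, hT, by rw [map_zero, sub_zero]⟩
    rwa [abs_of_nonneg hz, of_lt] at h
  · obtain ⟨a, ha⟩ := exists_of (neg_nonneg.2 hz)
    refine ⟨0, a, hT, ?_, by rw [map_zero, ← ha]; ring⟩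
    rwa [abs_of_nonpos hz, ha, of_lt] at h

/-- Vectors with bounded image are bounded. -/
theorem bound {M : Mdl} {k : ℕ} {ι : Type} [Fintype ι] (A : Matrix ι (Fin k) (ZM M))
    (hA : ∀ z : Fin k → ZM M, A *ᵥ z = 0 → z = 0) (N₀ : ZM M) :
    ∃ T : M.C, ∀ z : Fin k → ZM M, (∀ i, |(A *ᵥ z) i| ≤ N₀) → ∀ l, |z l| < of M T := by
  obtain ⟨L, d, hd, hL⟩ := exists_left A hA
  have hS : 0 ≤ ∑ l, ∑ i, |L l i| :=
    Finset.sum_nonneg (fun l _ => Finset.sum_nonneg (fun i _ => abs_nonneg _))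
  have hB : 0 ≤ (∑ l, ∑ i, |L l i|) * |N₀| + 1 := by
    have := mul_nonneg hS (abs_nonneg N₀)
    linarith
  obtain ⟨T, hT⟩ := exists_of hB
  refine ⟨T, fun z hz l => ?_⟩
  rw [← hT]
  have h1 : |d * z l| ≤ ∑ i, |L l i| * |N₀| := by
    rw [← hL z l]
    show |∑ i, L l i * (A *ᵥ z) i| ≤ _
    refine le_trans (Finset.abs_sum_le_sum_abs _ _) (Finset.sum_le_sum (fun i _ => ?_))
    rw [abs_mul]
    exact mul_le_mul_of_nonneg_left (le_trans (hz i) (le_abs_self _)) (abs_nonneg _)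
  have h2 : |z l| ≤ |d * z l| := by
    rw [abs_mul, abs_of_pos hd]
    exact le_mul_of_one_le_left (abs_nonneg _) (ZM.one_le hd)
  have h3 : ∑ i, |L l i| * |N₀| ≤ (∑ l, ∑ i, |L l i|) * |N₀| := by
    rw [← Finset.sum_mul]
    refine mul_le_mul_of_nonneg_right ?_ (abs_nonneg _)
    exact Finset.single_le_sum (f := fun l => ∑ i, |L l i|)
      (fun l _ => Finset.sum_nonneg (fun i _ => abs_nonneg _)) (Finset.mem_univ l)
  linarith

end ShortMAux

open ShortMAux in
theorem ZM.short (M : Mdl) (hM : ModelIE1 M.C) (n : ℕ) (ι : Type) [Fintype ι]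
    (A : Matrix ι (Fin (n + 1)) (ZM M)) (hA : ∀ z : Fin (n + 1) → ZM M, A *ᵥ z = 0 → z = 0) :
    ∃ b : Fin (n + 1) → ZM M, b ≠ 0 ∧ ∀ z : Fin (n + 1) → ZM M, z ≠ 0 → ∀ N : ZM M,
      (∀ i, |(A *ᵥ z) i| ≤ N) → ∀ i, |(A *ᵥ b) i| ≤ N := by
  choose P Q hPQ using fun (i : ι) (l : Fin (n + 1)) => mk_surj (A i l)
  have hAz : ∀ (z : Fin (n + 1) → ZM M) (i : ι),
      (A *ᵥ z) i = ∑ l, (of M (P i l) - of M (Q i l)) * z l := by
    intro z i
    show ∑ l, A i l * z l = _
    refine Finset.sum_congr rfl (fun l _ => ?_)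
    rw [hPQ i l, mk_of]
  -- a nonzero vector
  set e : Fin (n + 1) → ZM M := Pi.single 0 1 with he
  have he0 : e ≠ 0 := by
    intro h
    have := congrFun h 0
    rw [he, Pi.single_eq_same] at this
    exact one_ne_zero this
  have hN₀ : 0 ≤ ∑ i, |(A *ᵥ e) i| := Finset.sum_nonneg (fun i _ => abs_nonneg _)
  obtain ⟨N₀, hN₀'⟩ := exists_of hN₀
  have heN : ∀ i, |(A *ᵥ e) i| ≤ of M N₀ := by
    intro i
    rw [← hN₀']
    exact Finset.single_le_sum (f := fun i => |(A *ᵥ e) i|) (fun i _ => abs_nonneg _)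
      (Finset.mem_univ i)
  obtain ⟨T, hT⟩ := bound A hA (of M N₀)
  -- vectors in the box satisfy the relation
  have hR : ∀ (z : Fin (n + 1) → ZM M) (N : M.C), z ≠ 0 → N ≤ N₀ →
      (∀ i, |(A *ᵥ z) i| ≤ of M N) → Rl n (fun o => o.elim N (par T P Q)) := by
    intro z N hz hN h
    have hb : ∀ l, |z l| < of M T := hT z (fun i => le_trans (h i) (of_le.2 hN))
    choose y₁ y₂ h1 h2 h3 using fun l => box T (z l) (hb l)
    rw [Rl_iff]
    refine ⟨y₁, y₂, h1, h2, ?_, ?_⟩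
    · by_contra hc
      apply hz
      funext l
      by_contra hl
      exact hc ⟨l, by rw [← h3 l]; exact hl⟩
    · intro i
      have := h i
      rw [hAz] at this
      simpa only [← h3] using this
  obtain ⟨N, hN, hmin⟩ := EB.lnp hM (Rl_eb (ι := ι) (K := M.C) n) (par T P Q)
    ⟨N₀, hR e N₀ he0 le_rfl heN⟩
  obtain ⟨y₁, y₂, -, -, ⟨l, hl⟩, hb⟩ := (Rl_iff T N P Q).1 hN
  refine ⟨fun l => of M (y₁ l) - of M (y₂ l), ?_, ?_⟩
  · intro h
    exact hl (congrFun h l)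
  · intro z hz N' hN' i
    refine le_trans (b := of M N) ?_ ?_
    · rw [hAz]
      exact hb i
    · by_contra hc
      have hc1 : N' < of M N := not_le.1 hc
      have hN'0 : 0 ≤ N' := le_trans (abs_nonneg _) (hN' i)
      obtain ⟨N'', rfl⟩ := exists_of hN'0
      have hlt : N'' < N := of_lt.1 hc1
      have hNN : N ≤ N₀ := by
        by_contra h'
        exact hmin N₀ (not_le.1 h') (hR e N₀ he0 le_rfl heN)
      exact hmin N'' hlt (hR z N'' hz (le_trans hlt.le hNN) hN')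

end Pool.Agent.Lib.P28F
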