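import Pool.Agent.Lib.P28F.BlockNF
import Pool.Agent.Lib.P28F.DioInf
import Pool.Agent.Lib.P28F.InfS
import Pool.Agent.Lib.P28F.InfC
import Pool.Agent.Lib.P28F.MkIP

/-!
# Module P28F.Sys: linear systems over a model and their certificates

`sysA`, `sysB` are the matrix and the right side of the system of inequalities S together with
the sign conditions -x l ≤ 0.

PROOFS.
`sys_point`: row inl j: ∑ l, c (coef₁ l - coef₂ l) x l ≤ c (const₂ - const₁) is
holdsK for S.get j, because f.evalK (c ∘ of) v x = c (of (f.1.eval v)) + ∑ l, c (f.coef l) * x l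
(exchange the finite sum over l with the list sum: for every p in the list,
∑ l, (if p.2 = l then a else 0) * x l = a * x p.2; induction over the list). Row inr l': - x l' ≤ 0.
All p ∈ S are S.get j (`List.forall_mem_iff_get` or `List.mem_iff_get`).
`sys_pointZ`: the same with K replaced by the ring ZM M itself and z = of ∘ a: prove the
computation for any ordered commutative ring K' and ring homomorphism c : ZM M →+* K' in a private
lemma and use it with K and with `RingHom.id (ZM M)`; then `Lf.evalK_hom` with κ = of M turns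
evalK (of M) v (fun i => of M (z i)) into of M (f.eval v z), and `of_le`.
`sys_iff`: (→) `exists_intPart M hM` gives K, c; κ = c.comp (of M) is monotone (`of_le`,
`hI.le_iff`). Use `Inf.complete hI` with D = D' from the hypothesis (|x l| = x l ≤ D' by
`sys_point`). An integer solution z : Fin k → ZM M has z l ≥ 0 (rows inr), so z l = of M (a l)
(`exists_of`, choice) and `sys_pointZ` gives a solution in the model.
(←) `Inf.sound (fun z => ZM.one_le)`; a solution a in the model gives the integer solution
`fun l => of M (a l)` by `sys_pointZ`.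
`sys_dio`: `Dio.inf` and `Dio.congr`; the entries are TF: `TF.term`, `TF.sub`, `TF.zero`,
`TF.neg TF.one`, and list sums of `if p.2 = l then of M (p.1.eval v) else 0` by induction over the
list.
-/

set_option autoImplicit false
set_option linter.unusedSectionVars false

namespace Pool.Agent.Lib.P28F

open Pool.Agent.Lib.P28b Matrix

/-- The coefficient of a variable in a linear form. -/
def Lf.coef {α : Type} {k : ℕ} (f : Lf α k) (l : Fin k) (M : Mdl) (v : α → M.C) : ZM M :=
  (f.2.map (fun p => if p.2 = l then of M (p.1.eval v) else 0)).sum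

/-- The matrix of a system of linear inequalities and of the sign conditions. -/
def sysA {α : Type} {k : ℕ} (S : List (Con α k)) (M : Mdl) (v : α → M.C) :
    Matrix (Fin S.length ⊕ Fin k) (Fin k) (ZM M) :=
  Matrix.of fun i l => Sum.elim
    (fun j => (S.get j).1.coef l M v - (S.get j).2.coef l M v)
    (fun l' => if l' = l then -1 else 0) i

/-- The right side. -/
def sysB {α : Type} {k : ℕ} (S : List (Con α k)) (M : Mdl) (v : α → M.C) :
    Fin S.length ⊕ Fin k → ZM M :=
  Sum.elim (fun j => of M ((S.get j).2.1.eval v) - of M ((S.get j).1.1.eval v)) (fun _ => 0)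

namespace SysAux

theorem list_sum {α : Type} {k : ℕ} {M : Mdl} {K : Type} [CommRing K] (c : ZM M →+* K)
    (L : List (Tm α × Fin k)) (v : α → M.C) (x : Fin k → K) :
    ∑ l, c ((L.map (fun p => if p.2 = l then of M (p.1.eval v) else 0)).sum) * x l =
      (L.map (fun p => c (of M (p.1.eval v)) * x p.2)).sum := by
  induction L with
  | nil => simp
  | cons p L ih =>
      simp only [List.map_cons, List.sum_cons, map_add, add_mul, Finset.sum_add_distrib, ih]
      congr 1
      rw [Finset.sum_eq_single p.2]
      · rw [if_pos rfl]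
      · intro b _ hb
        rw [if_neg (Ne.symm hb), map_zero, zero_mul]
      · intro h
        exact absurd (Finset.mem_univ _) h

theorem evalK_eq {α : Type} {k : ℕ} {M : Mdl} {K : Type} [CommRing K] (c : ZM M →+* K)
    (f : Lf α k) (v : α → M.C) (x : Fin k → K) :
    f.evalK (c.comp (of M)) v x = c (of M (f.1.eval v)) + ∑ l, c (f.coef l M v) * x l := by
  unfold Lf.evalK Lf.coef
  rw [list_sum]
  rfl

theorem row_inl {α : Type} {k : ℕ} (S : List (Con α k)) (M : Mdl) (v : α → M.C) {K : Type}
    [CommRing K] [LinearOrder K] [IsStrictOrderedRing K] (c : ZM M →+* K) (x : Fin k → K)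
    (j : Fin S.length) :
    (((sysA S M v).map c *ᵥ x) (Sum.inl j) ≤ (c ∘ sysB S M v) (Sum.inl j)) ↔
      (S.get j).holdsK (c.comp (of M)) v x := by
  unfold Con.holdsK
  rw [evalK_eq, evalK_eq]
  have h1 : ((sysA S M v).map c *ᵥ x) (Sum.inl j) =
      ∑ l, c ((S.get j).1.coef l M v) * x l - ∑ l, c ((S.get j).2.coef l M v) * x l := by
    rw [← Finset.sum_sub_distrib]
    simp only [Matrix.mulVec, dotProduct, Matrix.map_apply]
    refine Finset.sum_congr rfl fun l _ => ?_
    show c ((S.get j).1.coef l M v - (S.get j).2.coef l M v) * x l = _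
    rw [map_sub, sub_mul]
  have h2 : (c ∘ sysB S M v) (Sum.inl j) =
      c (of M ((S.get j).2.1.eval v)) - c (of M ((S.get j).1.1.eval v)) := by
    show c (of M ((S.get j).2.1.eval v) - of M ((S.get j).1.1.eval v)) = _
    rw [map_sub]
  rw [h1, h2]
  constructor
  · intro h
    linarith
  · intro h
    linarith

theorem row_inr {α : Type} {k : ℕ} (S : List (Con α k)) (M : Mdl) (v : α → M.C) {K : Type}
    [CommRing K] [LinearOrder K] [IsStrictOrderedRing K] (c : ZM M →+* K) (x : Fin k → K)
    (l' : Fin k) :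
    (((sysA S M v).map c *ᵥ x) (Sum.inr l') ≤ (c ∘ sysB S M v) (Sum.inr l')) ↔ 0 ≤ x l' := by
  have h1 : ((sysA S M v).map c *ᵥ x) (Sum.inr l') = - x l' := by
    simp only [Matrix.mulVec, dotProduct, Matrix.map_apply]
    have : ∀ l, c (sysA S M v (Sum.inr l') l) * x l = if l' = l then - x l else 0 := by
      intro l
      show c (if l' = l then -1 else 0) * x l = _
      split_ifs with h
      · rw [map_neg, map_one, neg_mul, one_mul]
      · rw [map_zero, zero_mul]
    simp only [this]
    rw [Finset.sum_ite_eq, if_pos (Finset.mem_univ _)]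
  have h2 : (c ∘ sysB S M v) (Sum.inr l') = 0 := by
    show c 0 = 0
    exact map_zero c
  rw [h1, h2, neg_nonpos]

theorem point {α : Type} {k : ℕ} (S : List (Con α k)) (M : Mdl) (v : α → M.C) {K : Type}
    [CommRing K] [LinearOrder K] [IsStrictOrderedRing K] (c : ZM M →+* K) (x : Fin k → K) :
    ((sysA S M v).map c *ᵥ x ≤ c ∘ sysB S M v) ↔
      (∀ p ∈ S, p.holdsK (c.comp (of M)) v x) ∧ ∀ l, 0 ≤ x l := by
  constructor
  · intro h
    refine ⟨?_, fun l => (row_inr S M v c x l).1 (h (Sum.inr l))⟩
    intro p hp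
    obtain ⟨j, rfl⟩ := List.mem_iff_get.1 hp
    exact (row_inl S M v c x j).1 (h (Sum.inl j))
  · rintro ⟨h1, h2⟩ (j | l)
    · exact (row_inl S M v c x j).2 (h1 _ (List.get_mem _ _))
    · exact (row_inr S M v c x l).2 (h2 l)

theorem tf_list {α : Type} {k : ℕ} (L : List (Tm α × Fin k)) (l : Fin k) :
    TF (fun M (v : α → M.C) =>
      (L.map (fun p => if p.2 = l then of M (p.1.eval v) else 0)).sum) := by
  induction L with
  | nil => exact TF.zero
  | cons p L ih =>
      by_cases h : p.2 = l
      · refine ((TF.term p.1).add ih).congr fun M v => ?_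
        rw [List.map_cons, List.sum_cons, if_pos h]
      · refine ih.congr fun M v => ?_
        rw [List.map_cons, List.sum_cons, if_neg h, zero_add]

end SysAux

theorem sys_point {α : Type} {k : ℕ} (S : List (Con α k)) (M : Mdl) (v : α → M.C) {K : Type}
    [Field K] [LinearOrder K] [IsStrictOrderedRing K] (c : ZM M →+* K) (x : Fin k → K) :
    ((sysA S M v).map c *ᵥ x ≤ c ∘ sysB S M v) ↔
      (∀ p ∈ S, p.holdsK (c.comp (of M)) v x) ∧ ∀ l, 0 ≤ x l := by
  exact SysAux.point S M v c x

theorem sys_pointZ {α : Type} {k : ℕ} (S : List (Con α k)) (M : Mdl) (v : α → M.C)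
    (z : Fin k → M.C) :
    (sysA S M v *ᵥ (fun l => of M (z l)) ≤ sysB S M v) ↔ ∀ p ∈ S, p.holds v z := by
  have h := SysAux.point S M v (RingHom.id (ZM M)) (fun l => of M (z l))
  have h1 : (sysA S M v).map (RingHom.id (ZM M)) = sysA S M v := rfl
  have h2 : (RingHom.id (ZM M)) ∘ sysB S M v = sysB S M v := rfl
  rw [h1, h2, RingHom.id_comp] at h
  rw [h]
  constructor
  · rintro ⟨h3, _⟩ p hp
    have h4 := h3 p hp
    unfold Con.holdsK at h4
    rw [← Lf.evalK_hom, ← Lf.evalK_hom, of_le] at h4
    exact h4
  · intro h3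
    refine ⟨fun p hp => ?_, fun l => of_nonneg _⟩
    unfold Con.holdsK
    rw [← Lf.evalK_hom, ← Lf.evalK_hom, of_le]
    exact h3 p hp

theorem sys_iff {α : Type} {k : ℕ} (S : List (Con α k)) (M : Mdl) (hM : ModelIE1 M.C)
    (v : α → M.C)
    (hb : ∀ (K : Type) [Field K] [LinearOrder K] [IsStrictOrderedRing K]
      (κ : M.C →+* K) (_ : ∀ a b : M.C, a ≤ b → κ a ≤ κ b),
      ∃ D' : K, ∀ x : Fin k → K, (∀ i, 0 ≤ x i) → (∀ p ∈ S, p.holdsK κ v x) → ∀ i, x i ≤ D') :
    (¬ ∃ z : Fin k → M.C, ∀ p ∈ S, p.holds v z) ↔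
      Inf k (Fin S.length ⊕ Fin k) (sysA S M v) (sysB S M v) := by
  constructor
  · intro hno
    obtain ⟨K, h1, h2, h3, c, hI⟩ := exists_intPart M hM
    obtain ⟨D', hD'⟩ := hb K (c.comp (of M)) (fun a b hab => by
      show c (of M a) ≤ c (of M b)
      rw [hI.le_iff, of_le]
      exact hab)
    refine Inf.complete hI k _ _ _ D' ?_ ?_
    · intro z hz l
      obtain ⟨h4, h5⟩ := (sys_point S M v c z).1 hz
      rw [abs_of_nonneg (h5 l)]
      exact hD' z h5 h4 l
    · rintro ⟨z, hz⟩
      have hz' := (SysAux.point S M v (RingHom.id (ZM M)) z).1 hz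
      choose a ha using fun l => exists_of (hz'.2 l)
      apply hno
      refine ⟨a, ?_⟩
      rw [← sys_pointZ]
      have : (fun l => of M (a l)) = z := funext fun l => (ha l).symm
      rw [this]
      exact hz
  · rintro hinf ⟨z, hz⟩
    exact Inf.sound (fun z => ZM.one_le) k _ _ _ hinf
      ⟨fun l => of M (z l), (sys_pointZ S M v z).2 hz⟩

theorem sys_dio {α : Type} {k : ℕ} (S : List (Con α k)) :
    Dio (fun M (v : α → M.C) => Inf k (Fin S.length ⊕ Fin k) (sysA S M v) (sysB S M v)) := by
  refine Dio.inf k (Fin S.length ⊕ Fin k) (fun i l M v => sysA S M v i l)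
    (fun i M v => sysB S M v i) ?_ ?_
  · rintro (j | l') l
    · exact (SysAux.tf_list (S.get j).1.2 l).sub (SysAux.tf_list (S.get j).2.2 l)
    · by_cases h : l' = l
      · refine TF.one.neg.congr fun M v => ?_
        show -1 = if l' = l then (-1 : ZM M) else 0
        rw [if_pos h]
      · refine TF.zero.congr fun M v => ?_
        show 0 = if l' = l then (-1 : ZM M) else 0
        rw [if_neg h]
  · rintro (j | l')
    · exact (TF.term (S.get j).2.1).sub (TF.term (S.get j).1.1)
    · exact TF.zero

end Pool.Agent.Lib.P28F
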