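import Pool.Agent.Lib.P28F.Defs

/-!
# Module P28F.TF: integer valued term functions and Diophantine closure

`TF f`: f is the difference of two fixed terms. `Dio` is the predicate of `Lib/P28b/Dio.lean`.

PROOFS.
`TF.*`: with `mk_add`, `mk_neg`, `mk_sub`, `mk_mul`, `zero_def`, `one_def`, `of_apply`;
`TF.natCast` by induction; `TF.sum` by induction over the finite set (`Finset.induction_on`, classical
decidability); `TF.rename` with `Tm.map`, `Tm.eval_map`.
`Dio.leZ`: `mk_le` turns f ≤ g into s + t' ≤ s' + t, use `Dio.le`; `Dio.ltZ`: `mk_lt`, `Dio.lt`;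
`Dio.eqZ`: `mk_eq`, `Dio.eq`.
`Dio.allFin`: `Dio.listAll` with `Finset.univ.toList` (membership is always true).
`Dio.exFin`: the same for existence (induction over a list with `Dio.or`; the empty disjunction
`False` is `Dio.lt zero zero`).
`Dio.exM`: directly from the definition of `Dio`: if R M w ↔ ∃ y : β → M, P = Q for
w : α ⊕ γ → M, take β' = γ ⊕ β and rename the variables along
(α ⊕ γ) ⊕ β → α ⊕ (γ ⊕ β); compare the proof of `Dio.ex` in P28b/Dio.lean.
`Dio.exZ`: every element of ZM M is mk a b (`mk_surj`, choice over γ), use `Dio.exM` with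
γ ⊕ γ and `Dio.congr`.
-/

set_option autoImplicit false
set_option linter.unusedSectionVars false

namespace Pool.Agent.Lib.P28F

open Pool.Agent.Lib.P28b

/-- Functions given by a difference of two terms. -/
def TF {α : Type} (f : ∀ M : Mdl, (α → M.C) → ZM M) : Prop :=
  ∃ s t : Tm α, ∀ (M : Mdl) (v : α → M.C), f M v = mk (s.eval v) (t.eval v)

section

variable {α : Type}

theorem TF.congr {f g : ∀ M : Mdl, (α → M.C) → ZM M} (h : TF f) (hfg : ∀ M v, f M v = g M v) :
    TF g := by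
  obtain ⟨s, t, h⟩ := h
  exact ⟨s, t, fun M v => (hfg M v).symm.trans (h M v)⟩

theorem TF.term (s : Tm α) : TF (fun M v => of M (s.eval v)) :=
  ⟨s, .zero, fun _ _ => rfl⟩

theorem TF.zero : TF (fun M (_ : α → M.C) => 0) := ⟨.zero, .zero, fun _ _ => rfl⟩

theorem TF.one : TF (fun M (_ : α → M.C) => 1) := ⟨.one, .zero, fun _ _ => rfl⟩

theorem TF.add {f g : ∀ M : Mdl, (α → M.C) → ZM M} (hf : TF f) (hg : TF g) :
    TF (fun M v => f M v + g M v) := by
  obtain ⟨s, t, h⟩ := hf
  obtain ⟨s', t', h'⟩ := hg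
  refine ⟨.add s s', .add t t', fun M v => ?_⟩
  dsimp only
  rw [h, h', mk_add]
  rfl

theorem TF.neg {f : ∀ M : Mdl, (α → M.C) → ZM M} (hf : TF f) : TF (fun M v => - f M v) := by
  obtain ⟨s, t, h⟩ := hf
  refine ⟨t, s, fun M v => ?_⟩
  dsimp only
  rw [h, mk_neg]

theorem TF.sub {f g : ∀ M : Mdl, (α → M.C) → ZM M} (hf : TF f) (hg : TF g) :
    TF (fun M v => f M v - g M v) :=
  (hf.add hg.neg).congr fun M v => (sub_eq_add_neg _ _).symm

theorem TF.mul {f g : ∀ M : Mdl, (α → M.C) → ZM M} (hf : TF f) (hg : TF g) :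
    TF (fun M v => f M v * g M v) := by
  obtain ⟨s, t, h⟩ := hf
  obtain ⟨s', t', h'⟩ := hg
  refine ⟨.add (.mul s s') (.mul t t'), .add (.mul s t') (.mul t s'), fun M v => ?_⟩
  dsimp only
  rw [h, h', mk_mul]
  rfl

theorem TF.natCast (n : ℕ) : TF (fun M (_ : α → M.C) => ((n : ℕ) : ZM M)) := by
  induction n with
  | zero => exact TF.zero.congr fun M v => Nat.cast_zero.symm
  | succ n ih => exact (ih.add TF.one).congr fun M v => (Nat.cast_succ n).symm

theorem TF.sum {κ : Type} (s : Finset κ) (f : κ → ∀ M : Mdl, (α → M.C) → ZM M)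
    (hf : ∀ i, TF (f i)) : TF (fun M v => ∑ i ∈ s, f i M v) := by
  classical
  induction s using Finset.induction_on with
  | empty => exact TF.zero.congr fun M v => Finset.sum_empty.symm
  | insert a s ha ih =>
      exact ((hf a).add ih).congr fun M v => (Finset.sum_insert ha).symm

theorem TF.rename {β : Type} {f : ∀ M : Mdl, (α → M.C) → ZM M} (hf : TF f) (ρ : α → β) :
    TF (fun M (v : β → M.C) => f M (fun a => v (ρ a))) := by
  obtain ⟨s, t, h⟩ := hf
  refine ⟨s.map ρ, t.map ρ, fun M v => ?_⟩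
  dsimp only
  rw [h, Tm.eval_map, Tm.eval_map]

theorem Dio.leZ {f g : ∀ M : Mdl, (α → M.C) → ZM M} (hf : TF f) (hg : TF g) :
    Dio (fun M v => f M v ≤ g M v) := by
  obtain ⟨s, t, h⟩ := hf
  obtain ⟨s', t', h'⟩ := hg
  refine (Dio.le (.add s t') (.add s' t)).congr fun M v => ?_
  rw [h, h', mk_le]
  rfl

theorem Dio.ltZ {f g : ∀ M : Mdl, (α → M.C) → ZM M} (hf : TF f) (hg : TF g) :
    Dio (fun M v => f M v < g M v) := by
  obtain ⟨s, t, h⟩ := hf
  obtain ⟨s', t', h'⟩ := hg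
  refine (Dio.lt (.add s t') (.add s' t)).congr fun M v => ?_
  rw [h, h', mk_lt]
  rfl

theorem Dio.eqZ {f g : ∀ M : Mdl, (α → M.C) → ZM M} (hf : TF f) (hg : TF g) :
    Dio (fun M v => f M v = g M v) := by
  obtain ⟨s, t, h⟩ := hf
  obtain ⟨s', t', h'⟩ := hg
  refine (Dio.eq (.add s t') (.add s' t)).congr fun M v => ?_
  rw [h, h', mk_eq]
  rfl

theorem Dio.allFin {κ : Type} [Finite κ] (R : κ → ∀ M : Mdl, (α → M.C) → Prop)
    (h : ∀ i, Dio (R i)) : Dio (fun M v => ∀ i, R i M v) := by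
  classical
  have := Fintype.ofFinite κ
  refine (Dio.listAll (Finset.univ : Finset κ).toList R h).congr fun M v => ?_
  constructor
  · intro h1 i
    exact h1 i (Finset.mem_toList.2 (Finset.mem_univ i))
  · intro h1 i _
    exact h1 i

theorem TFAux.listEx {κ : Type} (L : List κ) (R : κ → ∀ M : Mdl, (α → M.C) → Prop)
    (h : ∀ i, Dio (R i)) : Dio (fun M v => ∃ i ∈ L, R i M v) := by
  induction L with
  | nil =>
      refine (Dio.lt (Tm.zero : Tm α) Tm.zero).congr fun M v => ?_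
      constructor
      · intro h1
        exact (lt_irrefl _ h1).elim
      · rintro ⟨i, hi, _⟩
        exact absurd hi (by simp)
  | cons i L ih =>
      exact ((h i).or ih).congr fun M v => by
        rw [List.exists_mem_cons_iff]

theorem Dio.exFin {κ : Type} [Finite κ] (R : κ → ∀ M : Mdl, (α → M.C) → Prop)
    (h : ∀ i, Dio (R i)) : Dio (fun M v => ∃ i, R i M v) := by
  classical
  have := Fintype.ofFinite κ
  refine (TFAux.listEx (Finset.univ : Finset κ).toList R h).congr fun M v => ?_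
  constructor
  · rintro ⟨i, _, h1⟩
    exact ⟨i, h1⟩
  · rintro ⟨i, h1⟩
    exact ⟨i, Finset.mem_toList.2 (Finset.mem_univ i), h1⟩

theorem Dio.exM {γ : Type} [Finite γ] {R : ∀ M : Mdl, (α ⊕ γ → M.C) → Prop} (h : Dio R) :
    Dio (fun M v => ∃ y : γ → M.C, R M (Sum.elim v y)) := by
  obtain ⟨β, hβ, P, Q, h⟩ := h
  let f : (α ⊕ γ) ⊕ β → α ⊕ (γ ⊕ β) :=
    Sum.elim (Sum.elim Sum.inl (fun c => Sum.inr (Sum.inl c))) (fun b => Sum.inr (Sum.inr b))
  have hf : ∀ {M : Type} (v : α → M) (x : γ → M) (y : β → M),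
      (fun a => Sum.elim v (Sum.elim x y) (f a)) = Sum.elim (Sum.elim v x) y := by
    intro M v x y
    funext a
    rcases a with (a | a) | a <;> rfl
  refine ⟨γ ⊕ β, inferInstance, P.map f, Q.map f, fun M v => ?_⟩
  simp only [Tm.eval_map]
  constructor
  · rintro ⟨x, hx⟩
    obtain ⟨y, hy⟩ := (h M _).1 hx
    refine ⟨Sum.elim x y, ?_⟩
    rw [hf]
    exact hy
  · rintro ⟨y, hy⟩
    have hy' : y = Sum.elim (fun b => y (Sum.inl b)) (fun b => y (Sum.inr b)) := by
      funext a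
      rcases a with a | a <;> rfl
    rw [hy', hf] at hy
    exact ⟨_, (h M _).2 ⟨_, hy⟩⟩

theorem Dio.exZ {γ : Type} [Finite γ] {R : ∀ M : Mdl, (α → M.C) → (γ → ZM M) → Prop}
    (h : Dio (fun M (w : α ⊕ (γ ⊕ γ) → M.C) => R M (fun a => w (.inl a))
      (fun g => mk (w (.inr (.inl g))) (w (.inr (.inr g)))))) :
    Dio (fun M v => ∃ y : γ → ZM M, R M v y) := by
  refine (Dio.exM h).congr fun M v => ?_
  constructor
  · rintro ⟨y, hy⟩
    exact ⟨_, hy⟩
  · rintro ⟨z, hz⟩
    have h1 : ∀ g, ∃ p : M.C × M.C, z g = mk p.1 p.2 := fun g => by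
      obtain ⟨a, b, hab⟩ := mk_surj (z g)
      exact ⟨(a, b), hab⟩
    choose p hp using h1
    refine ⟨Sum.elim (fun g => (p g).1) (fun g => (p g).2), ?_⟩
    have h2 : (fun g => mk (p g).1 (p g).2) = z := funext fun g => (hp g).symm
    show R M v (fun g => mk (p g).1 (p g).2)
    rw [h2]
    exact hz

/-- The new variables are term functions. -/
theorem TF.newVar {γ : Type} (g : γ) :
    TF (fun M (w : α ⊕ (γ ⊕ γ) → M.C) => mk (w (.inr (.inl g))) (w (.inr (.inr g)))) :=
  ⟨.var (.inr (.inl g)), .var (.inr (.inr g)), fun _ _ => rfl⟩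

end

end Pool.Agent.Lib.P28F
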