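import Pool.Agent.Lib.P28F.Herm
import Pool.Agent.Lib.P28F.Quot
import Pool.Agent.Lib.P28F.ShortK

/-!
# Module P28F.Trans: a transference theorem for polyhedral norms

Write ν(x) = max_i |(A x) i|. There are R > 0 and a nonzero integer vector d such that every point
is within R of an integer point and |d ⬝ x| R ≤ 3^n ν(x).

PROOF by induction on `n`, for all ι and A.

BASE n = 0. The matrix has one column; let N = max_i |A i 0| > 0 (`col_ne` of Quot;
`Finset.exists_max_image`). R = N/2, d = 1 (constant function). Integer point near x: z the floor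
of x 0 + 1/2, |x 0 - z| ≤ 1/2, |(A (x - z)) i| = |A i 0| |x 0 - z| ≤ N/2. If |(A x) i| ≤ r for all
i, then |x 0| N ≤ r, so |d ⬝ x| R = |x 0| N/2 ≤ r/2 ≤ r = 3^0 r (r ≥ 0).

STEP n → n + 1 (dimension n + 2). Let b be a shortest vector: `exists_short hI A hA`. By
`herm hI.bez (n+1) b`: V V' = V' V = 1, b i = V i 0 * g. Put e = first column of V,
e i = V i 0, a nonzero integer vector (V' V = 1). Let lam = max_i |(A (c ∘ e)) i| (the index type
is nonempty, A e ≠ 0), lam > 0. CLAIM 1: for all integer z ≠ 0 and r with ν(z) ≤ r: lam ≤ r.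
Indeed |(A (c∘b)) i| ≤ r by the choice of b, b = g e with g ≠ 0 (b ≠ 0), |c g| ≥ 1 (discreteness:
g ≠ 0 integer, `hI.one_le`), so |(A (c∘e)) i| ≤ |c g| |(A (c∘e)) i| = |(A (c∘b)) i| ≤ r.
Put A₁ = A * V.map c (so ν₁(y) = ν(V y)), with trivial kernel (V invertible over K:
V.map c * V'.map c = 1), A₁ e₀ = A (c ∘ e), i.e. A₁ i 0 = (A (c∘e)) i. Let Q = quot A₁ (index type
ι × ι, `Quot.lean`); its kernel is trivial (`quot_ker`). By the induction hypothesis for Q: R' > 0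
and d' ≠ 0 with the two properties. Let R = R' + lam/2.

CLAIM 2 (covering for A₁): for y = (t, y'), i.e. y = Fin.cons t y' : choose z' integer with
|(Q (y' - z')) p| ≤ R' for all p; by `quot_ex A₁` (h0 from `col_ne`) there is s with
|(A₁ (cons s (y' - z'))) i| ≤ R' for all i. Let t₀ be an integer with |(t - t₀) - s| ≤ 1/2 (floor
of t - s + 1/2). Then cons (t - t₀) (y' - z') = cons s (y' - z') + ((t - t₀) - s) e₀, so
|A₁ (cons (t - t₀) (y' - z'))| ≤ R' + lam/2 = R. For general x and A: apply it to y = V' x and put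
z = V (cons t₀ z'), A (x - z) = A₁ (y - cons t₀ z').

CLAIM 3: lam ≤ 4 R'. Let u : Fin (n+1) → K be u = (1/2) e_0 (Pi.single 0 (1/2)). There is an
integer z' with |(Q (u - z')) p| ≤ R'. Then w = 2 (u - z') is the integer vector e_0 - 2 z', with
first coordinate 1 - 2 z'_0 ≠ 0 (an element g of Z with 2 g = 1 would satisfy 0 < g, g < 1),
|(Q w) p| ≤ 2 R'. By `quot_ex` there is s with |(A₁ (cons s w)) i| ≤ 2 R'; with an integer t₀,
|t₀ - s| ≤ 1/2: |(A₁ (cons t₀ w)) i| ≤ 2 R' + lam/2. The integer vector z = V (cons t₀ w) is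
nonzero (w ≠ 0), so by Claim 1 lam ≤ 2 R' + lam/2, lam ≤ 4 R'.

So R ≤ 3 R'. The functional: d = (cons 0 d') ᵥ* V' (integer vector), d ≠ 0 since
d ᵥ* V = cons 0 d' ≠ 0. For x with |(A x) i| ≤ r put y = V' x = cons t y': |(A₁ y) i| ≤ r,
so |(Q y') p| ≤ r (`quot_le`), |d' ⬝ y'| R' ≤ 3^n r, and d ⬝ x = (cons 0 d') ⬝ y = d' ⬝ y', so
|d ⬝ x| R ≤ |d ⬝ x| 3 R' ≤ 3^(n+1) r.

(Suggestion: put the step into a separate private lemma, and first prove a lemma for the base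
change by V.)
-/

set_option autoImplicit false

namespace Pool.Agent.Lib.P28F

open Matrix

set_option linter.unusedSectionVars false

namespace TransAux

variable {Z K : Type} [CommRing Z] [LinearOrder Z] [IsStrictOrderedRing Z]
    [Field K] [LinearOrder K] [IsStrictOrderedRing K] {c : Z →+* K}

theorem round (hI : IntPart c) (x : K) : ∃ z : Z, |x - c z| ≤ 1 / 2 := by
  obtain ⟨z, h1, h2⟩ := hI.floor (x + 1 / 2)
  refine ⟨z, ?_⟩
  rw [abs_le]
  constructor <;> linarith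

theorem comp_vecMul (c : Z →+* K) {ι κ : Type} [Fintype ι] (A : Matrix ι κ Z) (z : ι → Z) :
    c ∘ (z ᵥ* A) = (c ∘ z) ᵥ* A.map c := by
  funext i
  simp only [Function.comp_apply, Matrix.vecMul, dotProduct, map_sum, map_mul, Matrix.map_apply]

theorem map_mul_one (c : Z →+* K) {κ : Type} [Fintype κ] [DecidableEq κ] (V V' : Matrix κ κ Z)
    (h : V * V' = 1) : V.map c * V'.map c = 1 := by
  rw [← Matrix.map_mul, h]
  exact Matrix.map_one c (map_zero c) (map_one c)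

/-- The base change. -/
theorem change (n : ℕ) (C : K) (ι : Type) [Fintype ι] (A : Matrix ι (Fin (n + 1)) K)
    (V V' : Matrix (Fin (n + 1)) (Fin (n + 1)) Z) (h : V * V' = 1) (h' : V' * V = 1)
    (H : ∃ (R : K) (d : Fin (n + 1) → Z), 0 < R ∧ d ≠ 0 ∧
      (∀ x : Fin (n + 1) → K, ∃ z : Fin (n + 1) → Z,
        ∀ i, |((A * V.map c) *ᵥ (x - c ∘ z)) i| ≤ R) ∧
      ∀ (x : Fin (n + 1) → K) (r : K), (∀ i, |((A * V.map c) *ᵥ x) i| ≤ r) →
        |(c ∘ d) ⬝ᵥ x| * R ≤ C * r) :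
    ∃ (R : K) (d : Fin (n + 1) → Z), 0 < R ∧ d ≠ 0 ∧
      (∀ x : Fin (n + 1) → K, ∃ z : Fin (n + 1) → Z, ∀ i, |(A *ᵥ (x - c ∘ z)) i| ≤ R) ∧
      ∀ (x : Fin (n + 1) → K) (r : K), (∀ i, |(A *ᵥ x) i| ≤ r) →
        |(c ∘ d) ⬝ᵥ x| * R ≤ C * r := by
  obtain ⟨R, d, hR, hd, hcov, hdu⟩ := H
  have hVV : V.map c * V'.map c = 1 := map_mul_one c V V' h
  refine ⟨R, d ᵥ* V', hR, ?_, ?_, ?_⟩
  · intro h0
    apply hd
    have h1 : (d ᵥ* V') ᵥ* V = d := by
      rw [Matrix.vecMul_vecMul, h', Matrix.vecMul_one]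
    rw [← h1, h0, Matrix.zero_vecMul]
  · intro x
    obtain ⟨z, hz⟩ := hcov (V'.map c *ᵥ x)
    refine ⟨V *ᵥ z, fun i => ?_⟩
    have h1 : x - c ∘ (V *ᵥ z) = V.map c *ᵥ (V'.map c *ᵥ x - c ∘ z) := by
      rw [comp_mulVec, Matrix.mulVec_sub, Matrix.mulVec_mulVec, hVV, Matrix.one_mulVec]
    rw [h1, Matrix.mulVec_mulVec]
    exact hz i
  · intro x r hx
    have h1 : (c ∘ (d ᵥ* V')) ⬝ᵥ x = (c ∘ d) ⬝ᵥ (V'.map c *ᵥ x) := by
      rw [comp_vecMul, Matrix.dotProduct_mulVec]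
    rw [h1]
    refine hdu _ r fun i => ?_
    rw [Matrix.mulVec_mulVec, Matrix.mul_assoc, hVV, Matrix.mul_one]
    exact hx i

theorem cons_apply {ι : Type} {n : ℕ} (A : Matrix ι (Fin (n + 1)) K) (t : K) (y : Fin n → K)
    (i : ι) :
    (A *ᵥ (Fin.cons t y : Fin (n + 1) → K)) i = A i 0 * t + ∑ l : Fin n, A i l.succ * y l := by
  simp only [Matrix.mulVec, dotProduct, Fin.sum_univ_succ, Fin.cons_zero, Fin.cons_succ]

theorem base (hI : IntPart c) (ι : Type) [Fintype ι] (A : Matrix ι (Fin (0 + 1)) K)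
    (hA : ∀ z : Fin (0 + 1) → K, A *ᵥ z = 0 → z = 0) :
    ∃ (R : K) (d : Fin (0 + 1) → Z), 0 < R ∧ d ≠ 0 ∧
      (∀ x : Fin (0 + 1) → K, ∃ z : Fin (0 + 1) → Z, ∀ i, |(A *ᵥ (x - c ∘ z)) i| ≤ R) ∧
      ∀ (x : Fin (0 + 1) → K) (r : K), (∀ i, |(A *ᵥ x) i| ≤ r) →
        |(c ∘ d) ⬝ᵥ x| * R ≤ 3 ^ 0 * r := by
  obtain ⟨j, hj⟩ := col_ne A hA
  obtain ⟨i₀, -, hmax⟩ :=
    Finset.exists_max_image Finset.univ (fun i => |A i 0|) ⟨j, Finset.mem_univ j⟩
  have hN : 0 < |A i₀ 0| := lt_of_lt_of_le (abs_pos.2 hj) (hmax j (Finset.mem_univ j))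
  have hmul : ∀ (x : Fin (0 + 1) → K) i, (A *ᵥ x) i = A i 0 * x 0 := by
    intro x i
    simp [Matrix.mulVec, dotProduct]
  refine ⟨|A i₀ 0| / 2, fun _ => 1, by positivity, ?_, ?_, ?_⟩
  · intro h
    exact one_ne_zero (congrFun h 0)
  · intro x
    obtain ⟨z, hz⟩ := round hI (x 0)
    refine ⟨fun _ => z, fun i => ?_⟩
    rw [hmul, abs_mul]
    have h1 : (x - (c ∘ fun _ : Fin (0 + 1) => z) : Fin (0 + 1) → K) 0 = x 0 - c z := rfl
    rw [h1]
    have h2 := hmax i (Finset.mem_univ i)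
    calc |A i 0| * |x 0 - c z| ≤ |A i₀ 0| * (1 / 2) :=
          mul_le_mul h2 hz (abs_nonneg _) (abs_nonneg _)
      _ = |A i₀ 0| / 2 := by ring
  · intro x r hx
    have h1 := hx i₀
    rw [hmul, abs_mul] at h1
    have h2 : (c ∘ fun _ => (1 : Z)) ⬝ᵥ x = x 0 := by simp [dotProduct]
    rw [h2]
    have h3 : 0 ≤ |A i₀ 0| * |x 0| := by positivity
    rw [pow_zero, one_mul]
    calc |x 0| * (|A i₀ 0| / 2) = (|A i₀ 0| * |x 0|) / 2 := by ring
      _ ≤ |A i₀ 0| * |x 0| := half_le_self h3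
      _ ≤ r := h1

theorem step (hI : IntPart c) (n : ℕ) (ι : Type) [Fintype ι]
    (A : Matrix ι (Fin (n + 1 + 1)) K)
    (hA : ∀ z : Fin (n + 1 + 1) → K, A *ᵥ z = 0 → z = 0)
    (hmin : ∀ z : Fin (n + 1 + 1) → Z, z ≠ 0 → ∀ r : K,
      (∀ i, |(A *ᵥ (c ∘ z)) i| ≤ r) → ∀ i, |A i 0| ≤ r)
    (ih : ∃ (R : K) (d : Fin (n + 1) → Z), 0 < R ∧ d ≠ 0 ∧
      (∀ x : Fin (n + 1) → K, ∃ z : Fin (n + 1) → Z, ∀ i, |(quot A *ᵥ (x - c ∘ z)) i| ≤ R) ∧
      ∀ (x : Fin (n + 1) → K) (r : K), (∀ i, |(quot A *ᵥ x) i| ≤ r) →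
        |(c ∘ d) ⬝ᵥ x| * R ≤ 3 ^ n * r) :
    ∃ (R : K) (d : Fin (n + 1 + 1) → Z), 0 < R ∧ d ≠ 0 ∧
      (∀ x : Fin (n + 1 + 1) → K, ∃ z : Fin (n + 1 + 1) → Z,
        ∀ i, |(A *ᵥ (x - c ∘ z)) i| ≤ R) ∧
      ∀ (x : Fin (n + 1 + 1) → K) (r : K), (∀ i, |(A *ᵥ x) i| ≤ r) →
        |(c ∘ d) ⬝ᵥ x| * R ≤ 3 ^ (n + 1) * r := by
  obtain ⟨R', d', hR', hd', hcov, hdu⟩ := ih
  have h0 := col_ne A hA
  obtain ⟨j, hj⟩ := h0
  obtain ⟨i₀, -, hmax⟩ :=
    Finset.exists_max_image Finset.univ (fun i => |A i 0|) ⟨j, Finset.mem_univ j⟩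
  have hlam0 : 0 < |A i₀ 0| := lt_of_lt_of_le (abs_pos.2 hj) (hmax j (Finset.mem_univ j))
  have shift : ∀ (s : K) (y : Fin (n + 1) → K) (r : K),
      (∀ i, |(A *ᵥ (Fin.cons s y : Fin (n + 1 + 1) → K)) i| ≤ r) → ∀ u : K, |u - s| ≤ 1 / 2 →
      ∀ i, |(A *ᵥ (Fin.cons u y : Fin (n + 1 + 1) → K)) i| ≤ r + |A i₀ 0| / 2 := by
    intro s y r h u hu i
    have h1 := h i
    rw [cons_apply] at h1 ⊢
    have h2 : A i 0 * u + ∑ l : Fin (n + 1), A i l.succ * y l =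
        (A i 0 * s + ∑ l : Fin (n + 1), A i l.succ * y l) + A i 0 * (u - s) := by ring
    rw [h2]
    refine (abs_add_le _ _).trans (add_le_add h1 ?_)
    rw [abs_mul]
    calc |A i 0| * |u - s| ≤ |A i₀ 0| * (1 / 2) :=
          mul_le_mul (hmax i (Finset.mem_univ i)) hu (abs_nonneg _) (abs_nonneg _)
      _ = |A i₀ 0| / 2 := by ring
  have hlam : |A i₀ 0| ≤ 4 * R' := by
    obtain ⟨z', hz'⟩ := hcov (Pi.single 0 (1 / 2))
    let w : Fin (n + 1) → Z := fun l => (Pi.single 0 1 : Fin (n + 1) → Z) l - 2 * z' l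
    have hw : c ∘ w = (2 : K) • ((Pi.single 0 (1 / 2) : Fin (n + 1) → K) - c ∘ z') := by
      funext l
      simp only [w, Function.comp_apply, map_sub, map_mul, Pi.smul_apply, Pi.sub_apply,
        smul_eq_mul, map_ofNat]
      by_cases hl : l = 0
      · subst hl
        rw [Pi.single_eq_same, Pi.single_eq_same, map_one]
        ring
      · rw [Pi.single_eq_of_ne hl, Pi.single_eq_of_ne hl, map_zero]
        ring
    have hQ : ∀ p, |(quot A *ᵥ (c ∘ w)) p| ≤ 2 * R' := by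
      intro p
      rw [hw, Matrix.mulVec_smul, Pi.smul_apply, smul_eq_mul, abs_mul, abs_two]
      exact mul_le_mul_of_nonneg_left (hz' p) zero_le_two
    obtain ⟨s, hs⟩ := quot_ex A ⟨j, hj⟩ (c ∘ w) (2 * R') hQ
    obtain ⟨t₀, ht₀⟩ := round hI s
    have h1 := shift s (c ∘ w) (2 * R') hs (c t₀) (by rw [abs_sub_comm]; exact ht₀)
    have h2 : (Fin.cons (c t₀) (c ∘ w) : Fin (n + 1 + 1) → K) =
        c ∘ (Fin.cons t₀ w : Fin (n + 1 + 1) → Z) := by
      funext l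
      refine Fin.cases ?_ (fun l => ?_) l
      · simp
      · simp
    rw [h2] at h1
    have h3 := hmin _ ?_ _ h1 i₀
    · linarith
    · intro h4
      have h5 := congrFun h4 (Fin.succ 0)
      rw [Fin.cons_succ] at h5
      have h6 : (1 : Z) = 2 * z' 0 := by
        have h7 : w 0 = 1 - 2 * z' 0 := by
          simp only [w, Pi.single_eq_same]
        rw [h7, Pi.zero_apply] at h5
        exact sub_eq_zero.1 h5
      have h8 : 0 < z' 0 := by linarith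
      have h9 := hI.one_le _ h8
      linarith
  refine ⟨R' + |A i₀ 0| / 2, Fin.cons 0 d', by positivity, ?_, ?_, ?_⟩
  · intro h
    apply hd'
    funext l
    have h1 := congrFun h l.succ
    rwa [Fin.cons_succ] at h1
  · intro x
    obtain ⟨z', hz'⟩ := hcov (Fin.tail x)
    obtain ⟨s, hs⟩ := quot_ex A ⟨j, hj⟩ (Fin.tail x - c ∘ z') R' hz'
    obtain ⟨t₀, ht₀⟩ := round hI (x 0 - s)
    refine ⟨Fin.cons t₀ z', ?_⟩
    have h1 := shift s _ R' hs (x 0 - c t₀) (by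
      have : x 0 - c t₀ - s = x 0 - s - c t₀ := by ring
      rw [this]
      exact ht₀)
    have h2 : x - c ∘ (Fin.cons t₀ z' : Fin (n + 1 + 1) → Z) =
        (Fin.cons (x 0 - c t₀) (Fin.tail x - c ∘ z') : Fin (n + 1 + 1) → K) := by
      funext l
      refine Fin.cases ?_ (fun l => ?_) l
      · simp
      · simp [Fin.tail]
    rw [h2]
    exact h1
  · intro x r hx
    have h1 : (Fin.cons (x 0) (Fin.tail x) : Fin (n + 1 + 1) → K) = x := Fin.cons_self_tail x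
    have h2 := quot_le A (x 0) (Fin.tail x) r (by rw [h1]; exact hx)
    have h3 := hdu _ r h2
    have h4 : (c ∘ (Fin.cons 0 d' : Fin (n + 1 + 1) → Z)) ⬝ᵥ x = (c ∘ d') ⬝ᵥ (Fin.tail x) := by
      simp only [dotProduct, Fin.sum_univ_succ (n := n + 1), Function.comp_apply, Fin.cons_zero,
        Fin.cons_succ, map_zero, zero_mul, zero_add, Fin.tail]
    rw [h4]
    have h5 : R' + |A i₀ 0| / 2 ≤ 3 * R' := by linarith
    calc |(c ∘ d') ⬝ᵥ (Fin.tail x)| * (R' + |A i₀ 0| / 2)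
        ≤ |(c ∘ d') ⬝ᵥ (Fin.tail x)| * (3 * R') :=
          mul_le_mul_of_nonneg_left h5 (abs_nonneg _)
      _ = 3 * (|(c ∘ d') ⬝ᵥ (Fin.tail x)| * R') := by ring
      _ ≤ 3 * (3 ^ n * r) := mul_le_mul_of_nonneg_left h3 zero_le_three
      _ = 3 ^ (n + 1) * r := by ring

end TransAux

theorem transfer {Z K : Type} [CommRing Z] [LinearOrder Z] [IsStrictOrderedRing Z]
    [Field K] [LinearOrder K] [IsStrictOrderedRing K] {c : Z →+* K} (hI : IntPart c)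
    (n : ℕ) (ι : Type) [Fintype ι] (A : Matrix ι (Fin (n + 1)) K)
    (hA : ∀ z : Fin (n + 1) → K, A *ᵥ z = 0 → z = 0) :
    ∃ (R : K) (d : Fin (n + 1) → Z), 0 < R ∧ d ≠ 0 ∧
      (∀ x : Fin (n + 1) → K, ∃ z : Fin (n + 1) → Z, ∀ i, |(A *ᵥ (x - c ∘ z)) i| ≤ R) ∧
      ∀ (x : Fin (n + 1) → K) (r : K), (∀ i, |(A *ᵥ x) i| ≤ r) →
        |(c ∘ d) ⬝ᵥ x| * R ≤ 3 ^ n * r := by
  induction n generalizing ι with
  | zero => exact TransAux.base hI ι A hA
  | succ n ih =>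
    obtain ⟨b, hb0, hb⟩ := exists_short hI A hA
    obtain ⟨V, V', g, h, h', hg⟩ := herm hI.bez (n + 1) b
    have hVV : V.map c * V'.map c = 1 := TransAux.map_mul_one c V V' h
    have hVV' : V'.map c * V.map c = 1 := TransAux.map_mul_one c V' V h'
    have hker : ∀ z : Fin (n + 1 + 1) → K, (A * V.map c) *ᵥ z = 0 → z = 0 := by
      intro z hz
      rw [← Matrix.mulVec_mulVec] at hz
      have h1 := hA _ hz
      have h2 : V'.map c *ᵥ (V.map c *ᵥ z) = z := by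
        rw [Matrix.mulVec_mulVec, hVV', Matrix.one_mulVec]
      rw [← h2, h1, Matrix.mulVec_zero]
    refine TransAux.change (n + 1) _ ι A V V' h h' ?_
    refine TransAux.step hI n ι (A * V.map c) hker ?_ (ih (ι × ι) (quot (A * V.map c))
      (quot_ker (A * V.map c) hker))
    intro z hz r hr i
    have h1 : V *ᵥ z ≠ 0 := by
      intro h2
      apply hz
      have h3 : V' *ᵥ (V *ᵥ z) = z := by
        rw [Matrix.mulVec_mulVec, h', Matrix.one_mulVec]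
      rw [← h3, h2, Matrix.mulVec_zero]
    have h2 := hb _ h1 r (by
      intro i
      rw [comp_mulVec, Matrix.mulVec_mulVec]
      exact hr i) i
    have h3 : (A *ᵥ (c ∘ b)) i = (A * V.map c) i 0 * c g := by
      simp only [Matrix.mulVec, dotProduct, Function.comp_apply, Matrix.mul_apply,
        Matrix.map_apply, Finset.sum_mul]
      refine Finset.sum_congr rfl fun j _ => ?_
      rw [hg j, map_mul, mul_assoc]
    rw [h3, abs_mul] at h2
    have hg0 : g ≠ 0 := by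
      intro h4
      apply hb0
      funext j
      rw [hg j, h4, mul_zero, Pi.zero_apply]
    have hg1 : 1 ≤ |c g| := by
      rw [← ShortKAux.abs_eq hI]
      have h5 := hI.one_le _ (abs_pos.2 hg0)
      have h6 := hI.le_iff.2 h5
      rwa [map_one] at h6
    calc |(A * V.map c) i 0| = |(A * V.map c) i 0| * 1 := (mul_one _).symm
      _ ≤ |(A * V.map c) i 0| * |c g| := mul_le_mul_of_nonneg_left hg1 (abs_nonneg _)
      _ ≤ r := h2

end Pool.Agent.Lib.P28F
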