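import Pool.Agent.Lib.P28b.Dio

/-!
The ring of integers of a model: differences of elements of a cancellative ordered semiring.
-/

set_option autoImplicit false
set_option linter.unusedSectionVars false

namespace Pool.Agent.Lib.P28F

open Pool.Agent.Lib.P28b

section

variable {M : Mdl}

/-- Pairs with the same difference. -/
def zset (M : Mdl) : Setoid (M.C × M.C) where
  r p q := p.1 + q.2 = q.1 + p.2
  iseqv :=
    { refl := fun _ => rfl
      symm := fun h => h.symm
      trans := by
        rintro ⟨a, b⟩ ⟨c, d⟩ ⟨e, f⟩ h1 h2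
        dsimp only at h1 h2 ⊢
        have h3 : (a + f) + (c + d) = (e + b) + (c + d) := by
          calc (a + f) + (c + d) = (a + d) + (c + f) := by ring
            _ = (c + b) + (e + d) := by rw [h1, h2]
            _ = (e + b) + (c + d) := by ring
        exact add_right_cancel h3 }

/-- The ring of differences of elements of the model `M`. -/
def ZM (M : Mdl) : Type :=
  Quotient (zset M)

/-- The difference of two elements. -/
def mk (a b : M.C) : ZM M := Quotient.mk (zset M) (a, b)

theorem mk_eq {a b c d : M.C} : mk a b = mk c d ↔ a + d = c + b := by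
  constructor
  · intro h
    exact Quotient.exact h
  · intro h
    exact Quotient.sound h

theorem mk_surj (z : ZM M) : ∃ a b : M.C, z = mk a b := by
  induction z using Quotient.inductionOn with
  | h p => exact ⟨p.1, p.2, rfl⟩

instance : Zero (ZM M) := ⟨mk 0 0⟩
instance : One (ZM M) := ⟨mk 1 0⟩

instance : Add (ZM M) :=
  ⟨Quotient.map₂ (fun p q => (p.1 + q.1, p.2 + q.2)) (by
    rintro ⟨a, b⟩ ⟨a', b'⟩ h ⟨c, d⟩ ⟨c', d'⟩ h'
    have h1 : a + b' = a' + b := h
    have h2 : c + d' = c' + d := h'
    show (a + c) + (b' + d') = (a' + c') + (b + d)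
    calc (a + c) + (b' + d') = (a + b') + (c + d') := by ring
      _ = (a' + b) + (c' + d) := by rw [h1, h2]
      _ = (a' + c') + (b + d) := by ring)⟩

instance : Neg (ZM M) :=
  ⟨Quotient.map (fun p => (p.2, p.1)) (by
    rintro ⟨a, b⟩ ⟨a', b'⟩ h
    have h1 : a + b' = a' + b := h
    show b + a' = b' + a
    rw [add_comm b, add_comm b', h1])⟩

instance : Mul (ZM M) :=
  ⟨Quotient.map₂ (fun p q => (p.1 * q.1 + p.2 * q.2, p.1 * q.2 + p.2 * q.1)) (by
    rintro ⟨a, b⟩ ⟨a', b'⟩ h ⟨c, d⟩ ⟨c', d'⟩ h'
    have h1 : a + b' = a' + b := h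
    have h2 : c + d' = c' + d := h'
    show (a * c + b * d) + (a' * d' + b' * c') = (a' * c' + b' * d') + (a * d + b * c)
    have h3 : ((a * c + b * d) + (a' * d' + b' * c')) + (b' * c + b' * d + a' * c + a' * d) =
        ((a' * c' + b' * d') + (a * d + b * c)) + (b' * c + b' * d + a' * c + a' * d) := by
      calc ((a * c + b * d) + (a' * d' + b' * c')) + (b' * c + b' * d + a' * c + a' * d)
          = (a + b') * c + (a' + b) * d + a' * (c + d') + b' * (c' + d) := by ring
        _ = (a' + b) * c + (a + b') * d + a' * (c' + d) + b' * (c + d') := by rw [h1, h2]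
        _ = ((a' * c' + b' * d') + (a * d + b * c)) + (b' * c + b' * d + a' * c + a' * d) := by
            ring
    exact add_right_cancel h3)⟩

theorem zero_def : (0 : ZM M) = mk 0 0 := rfl
theorem one_def : (1 : ZM M) = mk 1 0 := rfl
theorem mk_add (a b c d : M.C) : mk a b + mk c d = mk (a + c) (b + d) := rfl
theorem mk_neg (a b : M.C) : -mk a b = mk b a := rfl
theorem mk_mul (a b c d : M.C) : mk a b * mk c d = mk (a * c + b * d) (a * d + b * c) := rfl

instance : CommRing (ZM M) where
  add_assoc x y z := by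
    obtain ⟨a, b, rfl⟩ := mk_surj x
    obtain ⟨c, d, rfl⟩ := mk_surj y
    obtain ⟨e, f, rfl⟩ := mk_surj z
    simp only [mk_add, add_assoc]
  zero_add x := by
    obtain ⟨a, b, rfl⟩ := mk_surj x
    simp only [zero_def, mk_add, zero_add]
  add_zero x := by
    obtain ⟨a, b, rfl⟩ := mk_surj x
    simp only [zero_def, mk_add, add_zero]
  add_comm x y := by
    obtain ⟨a, b, rfl⟩ := mk_surj x
    obtain ⟨c, d, rfl⟩ := mk_surj y
    simp only [mk_add, add_comm]
  nsmul := nsmulRec
  zsmul := zsmulRec
  npow := npowRec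
  neg_add_cancel x := by
    obtain ⟨a, b, rfl⟩ := mk_surj x
    rw [mk_neg, mk_add, zero_def, mk_eq]
    ring
  left_distrib x y z := by
    obtain ⟨a, b, rfl⟩ := mk_surj x
    obtain ⟨c, d, rfl⟩ := mk_surj y
    obtain ⟨e, f, rfl⟩ := mk_surj z
    simp only [mk_add, mk_mul, mk_eq]
    ring
  right_distrib x y z := by
    obtain ⟨a, b, rfl⟩ := mk_surj x
    obtain ⟨c, d, rfl⟩ := mk_surj y
    obtain ⟨e, f, rfl⟩ := mk_surj z
    simp only [mk_add, mk_mul, mk_eq]
    ring
  zero_mul x := by
    obtain ⟨a, b, rfl⟩ := mk_surj x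
    simp only [zero_def, mk_mul, mk_eq]
    ring
  mul_zero x := by
    obtain ⟨a, b, rfl⟩ := mk_surj x
    simp only [zero_def, mk_mul, mk_eq]
    ring
  mul_assoc x y z := by
    obtain ⟨a, b, rfl⟩ := mk_surj x
    obtain ⟨c, d, rfl⟩ := mk_surj y
    obtain ⟨e, f, rfl⟩ := mk_surj z
    simp only [mk_mul, mk_eq]
    ring
  one_mul x := by
    obtain ⟨a, b, rfl⟩ := mk_surj x
    simp only [one_def, mk_mul, mk_eq]
    ring
  mul_one x := by
    obtain ⟨a, b, rfl⟩ := mk_surj x
    simp only [one_def, mk_mul, mk_eq]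
    ring
  mul_comm x y := by
    obtain ⟨a, b, rfl⟩ := mk_surj x
    obtain ⟨c, d, rfl⟩ := mk_surj y
    simp only [mk_mul, mk_eq]
    ring

theorem mk_sub (a b c d : M.C) : mk a b - mk c d = mk (a + d) (b + c) := by
  rw [sub_eq_add_neg, mk_neg, mk_add]

instance : LE (ZM M) :=
  ⟨Quotient.lift₂ (fun p q => p.1 + q.2 ≤ q.1 + p.2) (by
    rintro ⟨a, b⟩ ⟨c, d⟩ ⟨a', b'⟩ ⟨c', d'⟩ h h'
    have h1 : a + b' = a' + b := h
    have h2 : c + d' = c' + d := h'
    have key : ∀ {a b c d a' b' c' d' : M.C}, a + b' = a' + b → c + d' = c' + d →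
        a + d ≤ c + b → a' + d' ≤ c' + b' := by
      intro a b c d a' b' c' d' h1 h2 h
      have h3 : (a' + d') + (b + d) ≤ (c' + b') + (b + d) := by
        calc (a' + d') + (b + d) = (a' + b) + (d + d') := by ring
          _ = (a + b') + (d + d') := by rw [h1]
          _ = (a + d) + (b' + d') := by ring
          _ ≤ (c + b) + (b' + d') := by gcongr
          _ = (c + d') + (b + b') := by ring
          _ = (c' + d) + (b + b') := by rw [h2]
          _ = (c' + b') + (b + d) := by ring
      exact le_of_add_le_add_right h3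
    exact propext ⟨key h1 h2, key h1.symm h2.symm⟩)⟩

theorem mk_le {a b c d : M.C} : mk a b ≤ mk c d ↔ a + d ≤ c + b := Iff.rfl

open Classical in
noncomputable instance : LinearOrder (ZM M) where
  le_refl x := by
    obtain ⟨a, b, rfl⟩ := mk_surj x
    exact mk_le.2 le_rfl
  le_trans x y z := by
    obtain ⟨a, b, rfl⟩ := mk_surj x
    obtain ⟨c, d, rfl⟩ := mk_surj y
    obtain ⟨e, f, rfl⟩ := mk_surj z
    simp only [mk_le]
    intro h1 h2
    have h3 : (a + f) + (c + d) ≤ (e + b) + (c + d) := by
      calc (a + f) + (c + d) = (a + d) + (c + f) := by ring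
        _ ≤ (c + b) + (e + d) := by gcongr
        _ = (e + b) + (c + d) := by ring
    exact le_of_add_le_add_right h3
  le_antisymm x y := by
    obtain ⟨a, b, rfl⟩ := mk_surj x
    obtain ⟨c, d, rfl⟩ := mk_surj y
    simp only [mk_le, mk_eq]
    intro h1 h2
    exact le_antisymm h1 h2
  le_total x y := by
    obtain ⟨a, b, rfl⟩ := mk_surj x
    obtain ⟨c, d, rfl⟩ := mk_surj y
    simp only [mk_le]
    exact le_total _ _
  toDecidableLE := Classical.decRel _

theorem mk_lt {a b c d : M.C} : mk a b < mk c d ↔ a + d < c + b := by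
  rw [← not_le, ← not_le, mk_le]

instance : IsOrderedAddMonoid (ZM M) where
  add_le_add_left x y h z := by
    obtain ⟨a, b, rfl⟩ := mk_surj x
    obtain ⟨c, d, rfl⟩ := mk_surj y
    obtain ⟨e, f, rfl⟩ := mk_surj z
    rw [mk_le] at h
    rw [mk_add, mk_add, mk_le]
    calc (a + e) + (d + f) = (a + d) + (e + f) := by ring
      _ ≤ (c + b) + (e + f) := by gcongr
      _ = (c + e) + (b + f) := by ring

instance : Nontrivial (ZM M) :=
  ⟨⟨0, 1, by
    rw [zero_def, one_def, Ne, mk_eq]
    simp⟩⟩

instance : ZeroLEOneClass (ZM M) :=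
  ⟨by
    rw [zero_def, one_def, mk_le, add_zero, add_zero]
    exact zero_le_one⟩

instance : IsStrictOrderedRing (ZM M) :=
  IsStrictOrderedRing.of_mul_pos (fun x y => by
    obtain ⟨a, b, rfl⟩ := mk_surj x
    obtain ⟨c, d, rfl⟩ := mk_surj y
    simp only [zero_def, mk_mul, mk_lt, zero_add, add_zero]
    intro h1 h2
    obtain ⟨r, rfl⟩ := exists_add M.io h1.le
    obtain ⟨s, rfl⟩ := exists_add M.io h2.le
    have hr : 0 < r := pos_of_lt_add_right h1
    have hs : 0 < s := pos_of_lt_add_right h2
    have h3 := mul_pos hr hs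
    calc (b + r) * d + b * (d + s) < ((b + r) * d + b * (d + s)) + r * s :=
          lt_add_of_pos_right _ h3
      _ = (b + r) * (d + s) + b * d := by ring)

/-- The embedding of the model into its ring of integers. -/
def of (M : Mdl) : M.C →+* ZM M where
  toFun x := mk x 0
  map_zero' := rfl
  map_one' := rfl
  map_add' x y := by rw [mk_add, add_zero]
  map_mul' x y := by rw [mk_mul, mk_eq]; ring

theorem of_apply (x : M.C) : of M x = mk x 0 := rfl

theorem mk_of (a b : M.C) : mk a b = of M a - of M b := by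
  rw [of_apply, of_apply, mk_sub, mk_eq]
  ring

theorem of_le {a b : M.C} : of M a ≤ of M b ↔ a ≤ b := by
  rw [of_apply, of_apply, mk_le, add_zero, add_zero]

theorem of_lt {a b : M.C} : of M a < of M b ↔ a < b := by
  rw [of_apply, of_apply, mk_lt, add_zero, add_zero]

theorem of_inj {a b : M.C} : of M a = of M b ↔ a = b := by
  rw [of_apply, of_apply, mk_eq, add_zero, add_zero]

theorem of_nonneg (a : M.C) : 0 ≤ of M a := by
  have := of_le.2 (nonneg M.io a)
  rwa [map_zero] at this

theorem exists_of {z : ZM M} (h : 0 ≤ z) : ∃ a : M.C, z = of M a := by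
  obtain ⟨a, b, rfl⟩ := mk_surj z
  rw [zero_def, mk_le, zero_add, add_zero] at h
  obtain ⟨c, rfl⟩ := exists_add M.io h
  exact ⟨c, by rw [of_apply, mk_eq]; ring⟩

theorem ZM.one_le {z : ZM M} (h : 0 < z) : 1 ≤ z := by
  obtain ⟨a, rfl⟩ := exists_of h.le
  rw [← map_zero (of M), of_lt] at h
  rw [← map_one (of M), of_le]
  have := add_one_le M.io h
  rwa [zero_add] at this

/-- The integers of the model are discrete. -/
theorem ZM.add_one_le {x y : ZM M} (h : x < y) : x + 1 ≤ y := by
  have h1 : 0 < y - x := sub_pos.2 h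
  have h2 := ZM.one_le h1
  linarith

end

end Pool.Agent.Lib.P28F
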